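import Pool.Agent.K3h57.Refl

/-!
# Generated certificate
-/

set_option autoImplicit false
set_option maxRecDepth 100000
set_option linter.all false

namespace Pool.Agent.K3h57.Cert3
open Pool.Agent.K3h57 Pool.Agent.K3h57.Tm

abbrev t1 : Tm := .glue .line .line [[2, 1]] [[2, 1]]
theorem ok_t1 (B : Base) : Tm.Ok B t1 :=
  ok_rule ((fun _ => ok_line) B) [] .line _ _ (by decide +kernel)
abbrev t2 : Tm := .glue t1 t1 [[3, 1, -2], [-2, 0, 2]] [[3, 1, -2], [-2, 0, 2]]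
theorem ok_t2 (B : Base) : Tm.Ok B t2 :=
  ok_rule (ok_t1 B) [] t1 _ _ (by decide +kernel)
abbrev t3 : Tm := .glue t2 t2 [[3, 1, 0, 0, -1], [-1, 0, 0, 0, 1], [2, 1, -2]] [[3, 1, 0, 0, -1], [-1, 0, 0, 0, 1], [2, 1, -2]]
theorem ok_t3 (B : Base) : Tm.Ok B t3 :=
  ok_rule (ok_t2 B) [] t2 _ _ (by decide +kernel)
abbrev t4 : Tm := .glue t1 t1 [[-1, -1, 2], [2, 2, -2]] [[-1, -1, 2], [2, 2, -2]]
theorem ok_t4 (B : Base) : Tm.Ok B t4 :=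
  ok_rule (ok_t1 B) [] t1 _ _ (by decide +kernel)
abbrev t5 : Tm := .glue t4 t4 [[3, 1, 0, 0, -1], [-1, 0, 0, 0, 1], [2, 1, -2]] [[3, 1, 0, 0, -1], [-1, 0, 0, 0, 1], [2, 1, -2]]
theorem ok_t5 (B : Base) : Tm.Ok B t5 :=
  ok_rule (ok_t4 B) [] t4 _ _ (by decide +kernel)
noncomputable def v1 (B : Base) : ℝ := SS B .line [[1], [0, 1]]
theorem e1 (B : Base) : SS B .line [[1, 1], [0, 1]] = v1 B :=
  ss_mor (fun _ => ok_line) [] .line _ _ (by decide +kernel) B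
theorem e2 (B : Base) : SS B .line [[2, 3], [0, -1]] = v1 B :=
  ss_mor (fun _ => ok_line) [] .line _ _ (by decide +kernel) B
noncomputable def v2 (B : Base) : ℝ := SS B t1 [[1], [0, 1], [0, 0, 1]]
theorem e3 (B : Base) : SS B t1 [[3, 1, -2], [-2, 0, 2], [0, 1]] = v2 B :=
  ss_mor ok_t1 [] t1 _ _ (by decide +kernel) B
noncomputable def v3 (B : Base) : ℝ := SS B .line [[2, 1]]
theorem e4 (B : Base) : SS B .line [[2, 1]] = v3 B :=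
  ss_mor (fun _ => ok_line) [] .line _ _ (by decide +kernel) B
theorem q1 (B : Base) : v1 B + v1 B ≤ v2 B + v3 B := by
  have h := ss_ind (S := .line) (R := .line) ok_t1 [[1, 1], [0, 1]] [[2, 3], [0, -1]] [[3, 1, -2], [-2, 0, 2], [0, 1]] (by decide +kernel) (by decide +kernel) (by decide +kernel) (by decide +kernel) B
  have he1 := e1 B
  have he2 := e2 B
  have he3 := e3 B
  have he4 := e4 B
  linarith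
noncomputable def v4 (B : Base) : ℝ := SS B .line [[1]]
theorem e5 (B : Base) : SS B t3 [[-1, 0, 0, 0, 1, 0, 0, 0, 1]] = v4 B :=
  ss_mor ok_t3 [.snd, .snd, .fst] .line _ _ (by decide +kernel) B
theorem e6 (B : Base) : SS B t3 [[-1, 0, 1, 0, 1]] = v4 B :=
  ss_mor ok_t3 [.fst, .snd, .snd] .line _ _ (by decide +kernel) B
noncomputable def v5 (B : Base) : ℝ := SS B t1 [[1, 0, -1], [0, 1, 1]]
theorem e7 (B : Base) : SS B t3 [[-1, 0, 0, 0, 1, 0, 0, 0, 1], [0, 0, -2, 0, 0, 0, 0, 0, 2]] = v5 B :=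
  ss_ref ok_t3 [.snd, .snd] t1 _ _ (by decide +kernel) B
theorem q2 (B : Base) : v5 B ≤ v4 B + v4 B := by
  have h := ss_add ok_t3 [[-1, 0, 0, 0, 1, 0, 0, 0, 1]] [[-1, 0, 1, 0, 1]] [[-1, 0, 0, 0, 1, 0, 0, 0, 1], [0, 0, -2, 0, 0, 0, 0, 0, 2]] (by decide +kernel) B
  have he5 := e5 B
  have he6 := e6 B
  have he7 := e7 B
  linarith
theorem e8 (B : Base) : SS B t3 [[1, 1]] = v4 B :=
  ss_ref ok_t3 [.fst, .fst, .fst] .line _ _ (by decide +kernel) B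
noncomputable def v6 (B : Base) : ℝ := SS B t1 [[1], [0, 1, -1]]
theorem e9 (B : Base) : SS B t3 [[5, 3, -2, 0, -2], [-4, -2, 2, 0, 2]] = v6 B :=
  ss_mor ok_t3 [.fst, .snd, .swap] t1 _ _ (by decide +kernel) B
theorem q3 (B : Base) : v6 B ≤ v4 B + v4 B := by
  have h := ss_add ok_t3 [[-1, 0, 1, 0, 1]] [[1, 1]] [[5, 3, -2, 0, -2], [-4, -2, 2, 0, 2]] (by decide +kernel) B
  have he6 := e6 B
  have he8 := e8 B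
  have he9 := e9 B
  linarith
theorem e10 (B : Base) : SS B t1 [[2, 1], [2, 1, -2], [0, 1]] = v2 B :=
  ss_mor ok_t1 [] t1 _ _ (by decide +kernel) B
theorem e11 (B : Base) : SS B t1 [[2, 3], [0, -1], [2, 0, -2]] = v2 B :=
  ss_mor ok_t1 [] t1 _ _ (by decide +kernel) B
abbrev t6 : Tm := .glue t1 t1 [[1], [0, 0, 1]] [[0, 0, 1], [1]]
noncomputable def v7 (B : Base) : ℝ := SS B t6 [[1], [0, 1], [0, 0, 1], [0, 0, 0, 0, 0, 1]]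
theorem e12 (B : Base) : SS B t2 [[3, 1, 0, 0, -1], [-1, 0, 0, 0, 1], [2, 1, -2], [0, 1]] = v7 B :=
  ss_ref ok_t2 [.L (.swap) [[2, 0, -1], [-2, 0, 2]], .reb [[1], [0, 0, 1]] [[0, 0, 1], [1]]] t6 _ _ (by decide +kernel) B
theorem e13 (B : Base) : SS B t1 [[3, 1, -2], [-2, 0, 2]] = v5 B :=
  ss_mor ok_t1 [] t1 _ _ (by decide +kernel) B
theorem q4 (B : Base) : v2 B + v2 B ≤ v7 B + v5 B := by
  have h := ss_ind (S := t1) (R := t1) ok_t2 [[2, 1], [2, 1, -2], [0, 1]] [[2, 3], [0, -1], [2, 0, -2]] [[3, 1, 0, 0, -1], [-1, 0, 0, 0, 1], [2, 1, -2], [0, 1]] (by decide +kernel) (by decide +kernel) (by decide +kernel) (by decide +kernel) B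
  have he10 := e10 B
  have he11 := e11 B
  have he12 := e12 B
  have he13 := e13 B
  linarith
theorem e14 (B : Base) : SS B t1 [[2, 3], [0, -1], [2, 2, -2]] = v2 B :=
  ss_mor ok_t1 [] t1 _ _ (by decide +kernel) B
abbrev t7 : Tm := .glue t1 t1 [[1, 1], [0, 0, 1]] [[2, 1, -1], [1]]
noncomputable def v8 (B : Base) : ℝ := SS B t7 [[1], [0, 1], [0, 0, 1], [0, 0, 0, 0, 0, 1]]
theorem e15 (B : Base) : SS B t4 [[3, 1, 0, 0, -1], [-1, 0, 0, 0, 1], [2, 1, -2], [0, 1]] = v8 B :=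
  ss_mor ok_t4 [.R (.swap) [[0, -1, 1], [2, 2, -2]], .reb [[1, 1], [0, 0, 1]] [[2, 1, -1], [1]]] t7 _ _ (by decide +kernel) B
theorem e16 (B : Base) : SS B t1 [[-1, -1, 2], [2, 2, -2]] = v6 B :=
  ss_mor ok_t1 [.swap] t1 _ _ (by decide +kernel) B
theorem q5 (B : Base) : v2 B + v2 B ≤ v8 B + v6 B := by
  have h := ss_ind (S := t1) (R := t1) ok_t4 [[2, 1], [2, 1, -2], [0, 1]] [[2, 3], [0, -1], [2, 2, -2]] [[3, 1, 0, 0, -1], [-1, 0, 0, 0, 1], [2, 1, -2], [0, 1]] (by decide +kernel) (by decide +kernel) (by decide +kernel) (by decide +kernel) B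
  have he10 := e10 B
  have he14 := e14 B
  have he15 := e15 B
  have he16 := e16 B
  linarith
theorem e17 (B : Base) : SS B t2 [[1], [0, 1], [2, 1, -2], [1, 1, 0, 0, -1]] = v7 B :=
  ss_ref ok_t2 [.L (.swap) [[2, 0, -1], [-2, 0, 2]], .reb [[1], [0, 0, 1]] [[0, 0, 1], [1]]] t6 _ _ (by decide +kernel) B
abbrev t8 : Tm := .glue t1 t1 [[0, 0, 1], [1]] [[0, 0, 1], [1]]
abbrev t9 : Tm := .glue t6 t8 [[2, 1], [0, 0, 1], [0, 0, 0, 0, 0, 1]] [[2, 0, 0, 0, 0, 1], [0, 0, 1], [2, 1, -2]]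
noncomputable def v9 (B : Base) : ℝ := SS B t9 [[1], [0, 1], [0, 0, 1], [0, 0, 0, 0, 0, 1], [0, 0, 0, 0, 0, 0, 0, 0, 1]]
theorem e18 (B : Base) : SS B t3 [[1], [0, 1], [2, 1, -2], [1, 1, 0, 0, -1], [2, 1, 0, 0, 0, 0, 0, 0, -2]] = v9 B :=
  ss_ref ok_t3 [.L (.swap) [[2, -1, 0, 0, 0, 2], [0, 1, 0, 0, 0, -1], [-2, 0, 2, 0, 0, -1]], .L (.R (.swap) [[2, 0, -1], [-2, 0, 2]]) [[-2, -1, 4, 0, 0, 2], [2, 1, -2, 0, 0, -1], [0, 0, 0, 0, 0, -1]], .reb [[2, 1], [0, 0, 1], [0, 0, 0, 0, 0, 1]] [[2, 0, 0, 0, 0, 1], [0, 0, 1], [2, 1, -2]], .L (.reb [[1], [0, 0, 1]] [[0, 0, 1], [1]]) [[2, 1], [0, 0, 1], [0, 0, 0, 0, 0, 1]], .R (.reb [[0, 0, 1], [1]] [[0, 0, 1], [1]]) [[2, 0, 0, 0, 0, 1], [0, 0, 1], [2, 1, -2]]] t9 _ _ (by decide +kernel) B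
noncomputable def v10 (B : Base) : ℝ := SS B t6 [[1], [0, 1], [0, 0, 2, 0, 0, 1]]
theorem e19 (B : Base) : SS B t2 [[3, 1, 0, 0, -1], [-1, 0, 0, 0, 1], [2, 1, -2]] = v10 B :=
  ss_ref ok_t2 [.L (.swap) [[2, 0, -1], [-2, 0, 2]], .reb [[1], [0, 0, 1]] [[0, 0, 1], [1]]] t6 _ _ (by decide +kernel) B
theorem q6 (B : Base) : v7 B + v7 B ≤ v9 B + v10 B := by
  have h := ss_ind (S := t2) (R := t2) ok_t3 [[1], [0, 1], [2, 1, -2], [1, 1, 0, 0, -1]] [[3, 1, 0, 0, -1], [-1, 0, 0, 0, 1], [2, 1, -2], [0, 1]] [[1], [0, 1], [2, 1, -2], [1, 1, 0, 0, -1], [2, 1, 0, 0, 0, 0, 0, 0, -2]] (by decide +kernel) (by decide +kernel) (by decide +kernel) (by decide +kernel) B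
  have he17 := e17 B
  have he12 := e12 B
  have he18 := e18 B
  have he19 := e19 B
  linarith
noncomputable def v11 (B : Base) : ℝ := SS B t9 [[1, 0, -2, 0, 0, -1], [0, 0, 0, 0, 0, 0, 0, 0, 1]]
theorem e20 (B : Base) : SS B t3 [[5, 3, 0, 0, -2, 0, 0, 0, -2], [-4, -2, 0, 0, 2, 0, 0, 0, 2]] = v11 B :=
  ss_ref ok_t3 [.swap, .L (.R (.swap) [[2, 0, -1], [-2, 0, 2]]) [[4, 2, -2, 0, 0, -1], [-2, -1, 2, 0, 0, 1], [-2, -1, 2]], .R (.swap) [[2, -1, 0, 0, 0, 2], [0, 1, 0, 0, 0, -1], [-2, 0, 2, 0, 0, -1]], .reb [[2, 1], [0, 0, 1], [0, 0, 0, 0, 0, 1]] [[2, 0, 0, 0, 0, 1], [0, 0, 1], [2, 1, -2]], .L (.reb [[1], [0, 0, 1]] [[0, 0, 1], [1]]) [[2, 1], [0, 0, 1], [0, 0, 0, 0, 0, 1]], .R (.reb [[0, 0, 1], [1]] [[0, 0, 1], [1]]) [[2, 0, 0, 0, 0, 1], [0, 0, 1], [2, 1, -2]]] t9 _ _ (by decide +kernel) B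
theorem q7 (B : Base) : v11 B ≤ v4 B + v4 B := by
  have h := ss_add ok_t3 [[-1, 0, 0, 0, 1, 0, 0, 0, 1]] [[1, 1]] [[5, 3, 0, 0, -2, 0, 0, 0, -2], [-4, -2, 0, 0, 2, 0, 0, 0, 2]] (by decide +kernel) B
  have he5 := e5 B
  have he8 := e8 B
  have he20 := e20 B
  linarith
theorem e21 (B : Base) : SS B t4 [[1], [0, 1], [2, 1, -2], [1, 1, 0, 0, -1]] = v8 B :=
  ss_mor ok_t4 [.R (.swap) [[0, -1, 1], [2, 2, -2]], .reb [[1, 1], [0, 0, 1]] [[2, 1, -1], [1]]] t7 _ _ (by decide +kernel) B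
abbrev t10 : Tm := .glue t1 t1 [[0, 0, 1], [1, 1, -2]] [[1], [0, 1, -1]]
abbrev t11 : Tm := .glue t7 t10 [[2, 1], [0, 0, 1], [0, 0, 0, 0, 0, 1]] [[0, 0, 2, 0, 0, 1], [0, 0, 1], [2, 1, -2]]
noncomputable def v12 (B : Base) : ℝ := SS B t11 [[1], [0, 1], [0, 0, 1], [0, 0, 0, 0, 0, 1], [0, 0, 0, 0, 0, 0, 0, 0, 1]]
theorem e22 (B : Base) : SS B t5 [[1], [0, 1], [2, 1, -2], [1, 1, 0, 0, -1], [2, 1, 0, 0, 0, 0, 0, 0, -2]] = v12 B :=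
  ss_mor ok_t5 [.L (.swap) [[0, 1, 0, 0, 2], [1, 0, 0, 0, -1], [1, 1, -2, 0, 1]], .L (.R (.swap) [[0, -1, 1], [2, 2, -2]]) [[-2, -1, 4, 0, 0, 2], [2, 1, -2, 0, 0, -1], [0, 0, 0, 0, 0, 1]], .R (.R (.swap) [[0, -1, 1], [2, 2, -2]]) [[4, 2, -2, 0, 0, -1], [-2, -1, 2, 0, 0, 1], [2, 1, -2]], .reb [[2, 1], [0, 0, 1], [0, 0, 0, 0, 0, 1]] [[0, 0, 2, 0, 0, 1], [0, 0, 1], [2, 1, -2]], .L (.reb [[1, 1], [0, 0, 1]] [[2, 1, -1], [1]]) [[2, 1], [0, 0, 1], [0, 0, 0, 0, 0, 1]], .R (.reb [[0, 0, 1], [1, 1, -2]] [[1], [0, 1, -1]]) [[0, 0, 2, 0, 0, 1], [0, 0, 1], [2, 1, -2]]] t11 _ _ (by decide +kernel) B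
noncomputable def v13 (B : Base) : ℝ := SS B t7 [[1], [0, 1], [0, 0, 2, 0, 0, 1]]
theorem e23 (B : Base) : SS B t4 [[3, 1, 0, 0, -1], [-1, 0, 0, 0, 1], [2, 1, -2]] = v13 B :=
  ss_ref ok_t4 [.L (.swap) [[2, 2, -1], [-2, -2, 2]], .reb [[1, 1], [0, 0, 1]] [[2, 1, -1], [1]]] t7 _ _ (by decide +kernel) B
theorem q8 (B : Base) : v8 B + v8 B ≤ v12 B + v13 B := by
  have h := ss_ind (S := t4) (R := t4) ok_t5 [[1], [0, 1], [2, 1, -2], [1, 1, 0, 0, -1]] [[3, 1, 0, 0, -1], [-1, 0, 0, 0, 1], [2, 1, -2], [0, 1]] [[1], [0, 1], [2, 1, -2], [1, 1, 0, 0, -1], [2, 1, 0, 0, 0, 0, 0, 0, -2]] (by decide +kernel) (by decide +kernel) (by decide +kernel) (by decide +kernel) B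
  have he21 := e21 B
  have he15 := e15 B
  have he22 := e22 B
  have he23 := e23 B
  linarith
noncomputable def v14 (B : Base) : ℝ := SS B t6 [[3, 1, -2, 0, 0, -1]]
theorem e24 (B : Base) : SS B t3 [[1, 1, -1, 0, 1]] = v14 B :=
  ss_ref ok_t3 [.fst, .swap, .L (.swap) [[2, 0, -1], [-2, 0, 2]], .reb [[1], [0, 0, 1]] [[0, 0, 1], [1]]] t6 _ _ (by decide +kernel) B
theorem e25 (B : Base) : SS B t3 [[3, 1, 0, 0, -1], [-1, 0, 0, 0, 1], [2, 1, -2]] = v10 B :=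
  ss_ref ok_t3 [.fst, .L (.swap) [[2, 0, -1], [-2, 0, 2]], .reb [[1], [0, 0, 1]] [[0, 0, 1], [1]]] t6 _ _ (by decide +kernel) B
theorem q9 (B : Base) : v10 B ≤ v4 B + v14 B := by
  have h := ss_add ok_t3 [[-1, 0, 1, 0, 1]] [[1, 1, -1, 0, 1]] [[3, 1, 0, 0, -1], [-1, 0, 0, 0, 1], [2, 1, -2]] (by decide +kernel) B
  have he6 := e6 B
  have he24 := e24 B
  have he25 := e25 B
  linarith
theorem e26 (B : Base) : SS B t5 [[1, 1, -1, 0, 1]] = v4 B :=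
  ss_ref ok_t5 [.fst, .snd, .snd] .line _ _ (by decide +kernel) B
noncomputable def v15 (B : Base) : ℝ := SS B t1 [[1, 0, -1]]
theorem e27 (B : Base) : SS B t5 [[0, 0, -2, 0, 0, 0, 0, 0, 2]] = v15 B :=
  ss_mor ok_t5 [.snd, .fst] t1 _ _ (by decide +kernel) B
noncomputable def v16 (B : Base) : ℝ := SS B t7 [[1, 0, -1], [0, 1, -1, 0, 0, -1]]
theorem e28 (B : Base) : SS B t5 [[1, 1, 0, 0, 1, 0, 0, 0, -1], [0, 0, -2, 0, 0, 0, 0, 0, 2]] = v16 B :=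
  ss_ref ok_t5 [.snd, .L (.swap) [[2, 2, -1], [-2, -2, 2]], .reb [[1, 1], [0, 0, 1]] [[2, 1, -1], [1]]] t7 _ _ (by decide +kernel) B
theorem q10 (B : Base) : v16 B ≤ v4 B + v15 B := by
  have h := ss_add ok_t5 [[1, 1, -1, 0, 1]] [[0, 0, -2, 0, 0, 0, 0, 0, 2]] [[1, 1, 0, 0, 1, 0, 0, 0, -1], [0, 0, -2, 0, 0, 0, 0, 0, 2]] (by decide +kernel) B
  have he26 := e26 B
  have he27 := e27 B
  have he28 := e28 B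
  linarith
theorem e29 (B : Base) : SS B t3 [[0, 0, 0, 0, 0, 0, 0, 0, 1], [0, 0, -2, 0, 0, 0, 0, 0, 2]] = v5 B :=
  ss_ref ok_t3 [.snd, .fst] t1 _ _ (by decide +kernel) B
noncomputable def v17 (B : Base) : ℝ := SS B t6 [[1, 0, 0, 0, 0, 1], [0, 1, 0, 0, 0, -1], [0, 0, 1, 0, 0, 1]]
theorem e30 (B : Base) : SS B t3 [[1, 0, 0, 0, -1, 0, 0, 0, 2], [-1, 0, 0, 0, 1], [0, 0, -2, 0, 0, 0, 0, 0, 2]] = v17 B :=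
  ss_ref ok_t3 [.snd, .L (.swap) [[2, 0, -1], [-2, 0, 2]], .reb [[1], [0, 0, 1]] [[0, 0, 1], [1]]] t6 _ _ (by decide +kernel) B
theorem e31 (B : Base) : SS B t3 [[0, 0, -2, 0, 0, 0, 0, 0, 2]] = v15 B :=
  ss_mor ok_t3 [.snd, .fst] t1 _ _ (by decide +kernel) B
theorem q11 (B : Base) : v17 B + v15 B ≤ v5 B + v5 B := by
  have h := ss_sub ok_t3 [[-1, 0, 0, 0, 1, 0, 0, 0, 1], [0, 0, -2, 0, 0, 0, 0, 0, 2]] [[0, 0, 0, 0, 0, 0, 0, 0, 1], [0, 0, -2, 0, 0, 0, 0, 0, 2]] [[1, 0, 0, 0, -1, 0, 0, 0, 2], [-1, 0, 0, 0, 1], [0, 0, -2, 0, 0, 0, 0, 0, 2]] [[0, 0, -2, 0, 0, 0, 0, 0, 2]] (by decide +kernel) (by decide +kernel) (by decide +kernel) B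
  have he7 := e7 B
  have he29 := e29 B
  have he30 := e30 B
  have he31 := e31 B
  linarith
noncomputable def v18 (B : Base) : ℝ := SS B t7 [[1, 0, -2, 0, 0, -1]]
theorem e32 (B : Base) : SS B t5 [[-1, 0, 1, 0, 1]] = v18 B :=
  ss_ref ok_t5 [.fst, .L (.swap) [[2, 2, -1], [-2, -2, 2]], .reb [[1, 1], [0, 0, 1]] [[2, 1, -1], [1]]] t7 _ _ (by decide +kernel) B
theorem e33 (B : Base) : SS B t5 [[3, 1, 0, 0, -1], [-1, 0, 0, 0, 1], [2, 1, -2]] = v13 B :=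
  ss_ref ok_t5 [.fst, .L (.swap) [[2, 2, -1], [-2, -2, 2]], .reb [[1, 1], [0, 0, 1]] [[2, 1, -1], [1]]] t7 _ _ (by decide +kernel) B
theorem q12 (B : Base) : v13 B ≤ v4 B + v18 B := by
  have h := ss_add ok_t5 [[1, 1, -1, 0, 1]] [[-1, 0, 1, 0, 1]] [[3, 1, 0, 0, -1], [-1, 0, 0, 0, 1], [2, 1, -2]] (by decide +kernel) B
  have he26 := e26 B
  have he32 := e32 B
  have he33 := e33 B
  linarith
theorem e34 (B : Base) : SS B t5 [[0, 0, 0, 0, 1]] = v4 B :=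
  ss_mor ok_t5 [.fst, .snd, .fst] .line _ _ (by decide +kernel) B
theorem e35 (B : Base) : SS B t5 [[2, 1, 0, 0, 0, 0, 0, 0, -1]] = v4 B :=
  ss_ref ok_t5 [.snd, .fst, .fst] .line _ _ (by decide +kernel) B
noncomputable def v19 (B : Base) : ℝ := SS B t11 [[1, 0, -2, 0, 0, -1, 0, 0, 1], [0, 1, 2, 0, 0, 1, 0, 0, -1]]
theorem e36 (B : Base) : SS B t5 [[4, 2, 0, 0, -1, 0, 0, 0, -2], [-4, -2, 0, 0, 2, 0, 0, 0, 2]] = v19 B :=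
  ss_mor ok_t5 [.swap, .L (.swap) [[0, 1, 0, 0, 2], [1, 0, 0, 0, -1], [1, 1, -2, 0, 1]], .L (.R (.swap) [[0, -1, 1], [2, 2, -2]]) [[-2, -1, 4, 0, 0, 2], [2, 1, -2, 0, 0, -1], [0, 0, 0, 0, 0, 1]], .R (.R (.swap) [[0, -1, 1], [2, 2, -2]]) [[4, 2, -2, 0, 0, -1], [-2, -1, 2, 0, 0, 1], [2, 1, -2]], .reb [[2, 1], [0, 0, 1], [0, 0, 0, 0, 0, 1]] [[0, 0, 2, 0, 0, 1], [0, 0, 1], [2, 1, -2]], .L (.reb [[1, 1], [0, 0, 1]] [[2, 1, -1], [1]]) [[2, 1], [0, 0, 1], [0, 0, 0, 0, 0, 1]], .R (.reb [[0, 0, 1], [1, 1, -2]] [[1], [0, 1, -1]]) [[0, 0, 2, 0, 0, 1], [0, 0, 1], [2, 1, -2]]] t11 _ _ (by decide +kernel) B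
theorem q13 (B : Base) : v19 B ≤ v4 B + v4 B := by
  have h := ss_add ok_t5 [[0, 0, 0, 0, 1]] [[2, 1, 0, 0, 0, 0, 0, 0, -1]] [[4, 2, 0, 0, -1, 0, 0, 0, -2], [-4, -2, 0, 0, 2, 0, 0, 0, 2]] (by decide +kernel) B
  have he34 := e34 B
  have he35 := e35 B
  have he36 := e36 B
  linarith
noncomputable def v20 (B : Base) : ℝ := SS B t9 [[1, 0, -2, 0, 0, -1], [0, 1, 2, 0, 0, 1, 0, 0, -1]]
theorem e37 (B : Base) : SS B t3 [[-2, -2, 0, 0, 1, 0, 0, 0, 2], [2, 2, 0, 0, 0, 0, 0, 0, -2]] = v20 B :=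
  ss_ref ok_t3 [.L (.R (.swap) [[2, 0, -1], [-2, 0, 2]]) [[4, 2, -2, 0, 0, -1], [-2, -1, 2, 0, 0, 1], [-2, -1, 2]], .R (.swap) [[2, -1, 0, 0, 0, 2], [0, 1, 0, 0, 0, -1], [-2, 0, 2, 0, 0, -1]], .reb [[2, 1], [0, 0, 1], [0, 0, 0, 0, 0, 1]] [[2, 0, 0, 0, 0, 1], [0, 0, 1], [2, 1, -2]], .L (.reb [[1], [0, 0, 1]] [[0, 0, 1], [1]]) [[2, 1], [0, 0, 1], [0, 0, 0, 0, 0, 1]], .R (.reb [[0, 0, 1], [1]] [[0, 0, 1], [1]]) [[2, 0, 0, 0, 0, 1], [0, 0, 1], [2, 1, -2]]] t9 _ _ (by decide +kernel) B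
noncomputable def v21 (B : Base) : ℝ := SS B t6 [[1, 0, -2, 0, 0, -1], [0, 1, 1, 0, 0, 1]]
theorem e38 (B : Base) : SS B t3 [[1, 1, 0, 0, 1, 0, 0, 0, -1], [4, 2, -2, 0, 0, 0, 0, 0, -2]] = v21 B :=
  ss_ref ok_t3 [.snd, .L (.swap) [[2, 0, -1], [-2, 0, 2]], .reb [[1], [0, 0, 1]] [[0, 0, 1], [1]]] t6 _ _ (by decide +kernel) B
noncomputable def v22 (B : Base) : ℝ := SS B t9 [[1, 0, 0, 0, 0, -1, 0, 0, -1], [0, 1, 0, 0, 0, 2, 0, 0, 1], [0, 0, 1, 0, 0, 0, 0, 0, -1]]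
theorem e39 (B : Base) : SS B t3 [[-2, -2, 0, 0, 1, 0, 0, 0, 2], [2, 2, 0, 0, 0, 0, 0, 0, -2], [4, 2, -2, 0, 0, 0, 0, 0, -2]] = v22 B :=
  ss_ref ok_t3 [.swap, .L (.swap) [[2, -1, 0, 0, 0, 2], [0, 1, 0, 0, 0, -1], [-2, 0, 2, 0, 0, -1]], .L (.R (.swap) [[2, 0, -1], [-2, 0, 2]]) [[-2, -1, 4, 0, 0, 2], [2, 1, -2, 0, 0, -1], [0, 0, 0, 0, 0, -1]], .reb [[2, 1], [0, 0, 1], [0, 0, 0, 0, 0, 1]] [[2, 0, 0, 0, 0, 1], [0, 0, 1], [2, 1, -2]], .L (.reb [[1], [0, 0, 1]] [[0, 0, 1], [1]]) [[2, 1], [0, 0, 1], [0, 0, 0, 0, 0, 1]], .R (.reb [[0, 0, 1], [1]] [[0, 0, 1], [1]]) [[2, 0, 0, 0, 0, 1], [0, 0, 1], [2, 1, -2]]] t9 _ _ (by decide +kernel) B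
theorem e40 (B : Base) : SS B t3 [[1, 1, 0, 0, 1, 0, 0, 0, -1]] = v14 B :=
  ss_ref ok_t3 [.snd, .swap, .R (.swap) [[2, 0, -1], [-2, 0, 2]], .reb [[1], [0, 0, 1]] [[0, 0, 1], [1]]] t6 _ _ (by decide +kernel) B
theorem q14 (B : Base) : v22 B + v14 B ≤ v20 B + v21 B := by
  have h := ss_sub ok_t3 [[-2, -2, 0, 0, 1, 0, 0, 0, 2], [2, 2, 0, 0, 0, 0, 0, 0, -2]] [[1, 1, 0, 0, 1, 0, 0, 0, -1], [4, 2, -2, 0, 0, 0, 0, 0, -2]] [[-2, -2, 0, 0, 1, 0, 0, 0, 2], [2, 2, 0, 0, 0, 0, 0, 0, -2], [4, 2, -2, 0, 0, 0, 0, 0, -2]] [[1, 1, 0, 0, 1, 0, 0, 0, -1]] (by decide +kernel) (by decide +kernel) (by decide +kernel) B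
  have he37 := e37 B
  have he38 := e38 B
  have he39 := e39 B
  have he40 := e40 B
  linarith
noncomputable def v23 (B : Base) : ℝ := SS B t9 [[1, 0, 0, 0, 0, 0, 0, 0, -1], [0, 0, 1, 0, 0, 0, 0, 0, -1], [0, 0, 0, 0, 0, 1, 0, 0, 1]]
theorem e41 (B : Base) : SS B t3 [[2, 0, 0, 0, 1, 0, 0, 0, -2], [-2, 0, 0, 0, 0, 0, 0, 0, 2], [0, 0, -2, 0, 0, 0, 0, 0, 2]] = v23 B :=
  ss_ref ok_t3 [.L (.R (.swap) [[2, 0, -1], [-2, 0, 2]]) [[4, 2, -2, 0, 0, -1], [-2, -1, 2, 0, 0, 1], [-2, -1, 2]], .R (.swap) [[2, -1, 0, 0, 0, 2], [0, 1, 0, 0, 0, -1], [-2, 0, 2, 0, 0, -1]], .reb [[2, 1], [0, 0, 1], [0, 0, 0, 0, 0, 1]] [[2, 0, 0, 0, 0, 1], [0, 0, 1], [2, 1, -2]], .L (.reb [[1], [0, 0, 1]] [[0, 0, 1], [1]]) [[2, 1], [0, 0, 1], [0, 0, 0, 0, 0, 1]], .R (.reb [[0, 0, 1], [1]] [[0, 0, 1], [1]]) [[2, 0, 0, 0, 0, 1], [0,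 0, 1], [2, 1, -2]]] t9 _ _ (by decide +kernel) B
theorem e42 (B : Base) : SS B t3 [[2, 0, -2, 0, 1], [-2, 0, 2]] = v5 B :=
  ss_ref ok_t3 [.fst, .snd] t1 _ _ (by decide +kernel) B
theorem q15 (B : Base) : v9 B + v5 B ≤ v22 B + v23 B := by
  have h := ss_sub ok_t3 [[-2, -2, 0, 0, 1, 0, 0, 0, 2], [2, 2, 0, 0, 0, 0, 0, 0, -2], [4, 2, -2, 0, 0, 0, 0, 0, -2]] [[2, 0, 0, 0, 1, 0, 0, 0, -2], [-2, 0, 0, 0, 0, 0, 0, 0, 2], [0, 0, -2, 0, 0, 0, 0, 0, 2]] [[1], [0, 1], [2, 1, -2], [1, 1, 0, 0, -1], [2, 1, 0, 0, 0, 0, 0, 0, -2]] [[2, 0, -2, 0, 1], [-2, 0, 2]] (by decide +kernel) (by decide +kernel) (by decide +kernel) B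
  have he39 := e39 B
  have he41 := e41 B
  have he18 := e18 B
  have he42 := e42 B
  linarith
theorem e43 (B : Base) : SS B t3 [[0, 0, 0, 0, 1]] = v4 B :=
  ss_mor ok_t3 [.fst, .snd, .fst] .line _ _ (by decide +kernel) B
noncomputable def v24 (B : Base) : ℝ := SS B t9 [[1, 0, -2, 0, 0, -1, 0, 0, 1]]
theorem e44 (B : Base) : SS B t3 [[2, 2, 0, 0, 0, 0, 0, 0, -2]] = v24 B :=
  ss_ref ok_t3 [.L (.swap) [[2, -1, 0, 0, 0, 2], [0, 1, 0, 0, 0, -1], [-2, 0, 2, 0, 0, -1]], .L (.R (.swap) [[2, 0, -1], [-2, 0, 2]]) [[-2, -1, 4, 0, 0, 2], [2, 1, -2, 0, 0, -1], [0, 0, 0, 0, 0, -1]], .reb [[2, 1], [0, 0, 1], [0, 0, 0, 0, 0, 1]] [[2, 0, 0, 0, 0, 1], [0, 0, 1], [2, 1, -2]], .L (.reb [[1], [0, 0, 1]] [[0, 0, 1], [1]]) [[2, 1], [0, 0, 1], [0, 0, 0, 0, 0, 1]], .R (.reb [[0, 0, 1], [1]] [[0, 0, 1], [1]]) [[2,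 0, 0, 0, 0, 1], [0, 0, 1], [2, 1, -2]]] t9 _ _ (by decide +kernel) B
theorem q16 (B : Base) : v20 B ≤ v4 B + v24 B := by
  have h := ss_add ok_t3 [[0, 0, 0, 0, 1]] [[2, 2, 0, 0, 0, 0, 0, 0, -2]] [[-2, -2, 0, 0, 1, 0, 0, 0, 2], [2, 2, 0, 0, 0, 0, 0, 0, -2]] (by decide +kernel) B
  have he43 := e43 B
  have he44 := e44 B
  have he37 := e37 B
  linarith
noncomputable def v25 (B : Base) : ℝ := SS B t9 [[1], [0, 0, 1], [0, 0, 0, 0, 0, 1], [0, 0, 0, 0, 0, 0, 0, 0, 1]]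
theorem e45 (B : Base) : SS B t3 [[3, 1, 0, 0, 0, 0, 0, 0, -2], [-2, 0, 0, 0, 0, 0, 0, 0, 2], [0, 0, -2, 0, 0, 0, 0, 0, 2], [1, 1, 0, 0, -1]] = v25 B :=
  ss_ref ok_t3 [.L (.R (.swap) [[2, 0, -1], [-2, 0, 2]]) [[4, 2, -2, 0, 0, -1], [-2, -1, 2, 0, 0, 1], [-2, -1, 2]], .R (.swap) [[2, -1, 0, 0, 0, 2], [0, 1, 0, 0, 0, -1], [-2, 0, 2, 0, 0, -1]], .reb [[2, 1], [0, 0, 1], [0, 0, 0, 0, 0, 1]] [[2, 0, 0, 0, 0, 1], [0, 0, 1], [2, 1, -2]], .L (.reb [[1], [0, 0, 1]] [[0, 0, 1], [1]]) [[2, 1], [0, 0, 1], [0, 0, 0, 0, 0, 1]], .R (.reb [[0, 0, 1], [1]] [[0, 0, 1], [1]]) [[2, 0, 0, 0, 0, 1], [0, 0, 1], [2, 1, -2]]] t9 _ _ (by decide +kernel) B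
noncomputable def v26 (B : Base) : ℝ := SS B t9 [[1, 0, 0, 0, 0, 0, 0, 0, -1], [0, 1, 0, 0, 0, 0, 0, 0, 1], [0, 0, 1, 0, 0, 0, 0, 0, -1], [0, 0, 0, 0, 0, 1, 0, 0, 1]]
theorem e46 (B : Base) : SS B t3 [[1], [-2, 0, 0, 0, 0, 0, 0, 0, 2], [0, 0, -2, 0, 0, 0, 0, 0, 2], [-1, 0, 0, 0, -1, 0, 0, 0, 2]] = v26 B :=
  ss_ref ok_t3 [.L (.swap) [[2, -1, 0, 0, 0, 2], [0, 1, 0, 0, 0, -1], [-2, 0, 2, 0, 0, -1]], .L (.R (.swap) [[2, 0, -1], [-2, 0, 2]]) [[-2, -1, 4, 0, 0, 2], [2, 1, -2, 0, 0, -1], [0, 0, 0, 0, 0, -1]], .reb [[2, 1], [0, 0, 1], [0, 0, 0, 0, 0, 1]] [[2, 0, 0, 0, 0, 1], [0, 0, 1], [2, 1, -2]], .L (.reb [[1], [0, 0, 1]] [[0, 0, 1], [1]]) [[2, 1], [0, 0, 1], [0, 0, 0, 0, 0, 1]], .R (.reb [[0, 0, 1], [1]] [[0, 0, 1], [1]]) [[2, 0, 0, 0, 0, 1], [0, 0, 1], [2, 1, -2]]] t9 _ _ (by decide +kernel) B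
theorem q17 (B : Base) : v9 B + v23 B ≤ v25 B + v26 B := by
  have h := ss_sub ok_t3 [[3, 1, 0, 0, 0, 0, 0, 0, -2], [-2, 0, 0, 0, 0, 0, 0, 0, 2], [0, 0, -2, 0, 0, 0, 0, 0, 2], [1, 1, 0, 0, -1]] [[1], [-2, 0, 0, 0, 0, 0, 0, 0, 2], [0, 0, -2, 0, 0, 0, 0, 0, 2], [-1, 0, 0, 0, -1, 0, 0, 0, 2]] [[1], [0, 1], [2, 1, -2], [1, 1, 0, 0, -1], [2, 1, 0, 0, 0, 0, 0, 0, -2]] [[2, 0, 0, 0, 1, 0, 0, 0, -2], [-2, 0, 0, 0, 0, 0, 0, 0, 2], [0, 0, -2, 0, 0, 0, 0, 0, 2]] (by decide +kernel) (by decide +kernel) (by decide +kernel) B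
  have he45 := e45 B
  have he46 := e46 B
  have he18 := e18 B
  have he41 := e41 B
  linarith
noncomputable def v27 (B : Base) : ℝ := SS B t1 [[1, 1, -1]]
theorem e47 (B : Base) : SS B t3 [[4, 2, -2, 0, 0, 0, 0, 0, -2]] = v27 B :=
  ss_mor ok_t3 [.snd, .fst] t1 _ _ (by decide +kernel) B
theorem q18 (B : Base) : v21 B ≤ v4 B + v27 B := by
  have h := ss_add ok_t3 [[-1, 0, 1, 0, 1]] [[4, 2, -2, 0, 0, 0, 0, 0, -2]] [[1, 1, 0, 0, 1, 0, 0, 0, -1], [4, 2, -2, 0, 0, 0, 0, 0, -2]] (by decide +kernel) B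
  have he6 := e6 B
  have he47 := e47 B
  have he38 := e38 B
  linarith
theorem e48 (B : Base) : SS B t3 [[1], [-1, 0, 0, 0, 1], [1, 0, -2, 0, 1]] = v17 B :=
  ss_ref ok_t3 [.fst, .L (.swap) [[2, 0, -1], [-2, 0, 2]], .reb [[1], [0, 0, 1]] [[0, 0, 1], [1]]] t6 _ _ (by decide +kernel) B
noncomputable def v28 (B : Base) : ℝ := SS B t6 [[1, 0, -2, 0, 0, -1], [0, 1, 2, 0, 0, 1]]
theorem e49 (B : Base) : SS B t3 [[1, 0, 2, 0, -1], [-1, 0, 0, 0, 1]] = v28 B :=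
  ss_ref ok_t3 [.fst, .L (.swap) [[2, 0, -1], [-2, 0, 2]], .reb [[1], [0, 0, 1]] [[0, 0, 1], [1]]] t6 _ _ (by decide +kernel) B
theorem q19 (B : Base) : v26 B + v28 B ≤ v17 B + v17 B := by
  have h := ss_sub ok_t3 [[1, 0, 0, 0, -1, 0, 0, 0, 2], [-1, 0, 0, 0, 1], [0, 0, -2, 0, 0, 0, 0, 0, 2]] [[1], [-1, 0, 0, 0, 1], [1, 0, -2, 0, 1]] [[1], [-2, 0, 0, 0, 0, 0, 0, 0, 2], [0, 0, -2, 0, 0, 0, 0, 0, 2], [-1, 0, 0, 0, -1, 0, 0, 0, 2]] [[1, 0, 2, 0, -1], [-1, 0, 0, 0, 1]] (by decide +kernel) (by decide +kernel) (by decide +kernel) B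
  have he30 := e30 B
  have he48 := e48 B
  have he46 := e46 B
  have he49 := e49 B
  linarith
theorem e50 (B : Base) : SS B t3 [[7, 3, 0, 0, -1, 0, 0, 0, -4], [-3, -1, 0, 0, 1, 0, 0, 0, 2], [0, 0, -2, 0, 0, 0, 0, 0, 2]] = v2 B :=
  ss_mor ok_t3 [.snd, .snd] t1 _ _ (by decide +kernel) B
noncomputable def v29 (B : Base) : ℝ := SS B t9 [[1], [0, 0, 2, 0, 0, 1], [0, 0, 0, 0, 0, 0, 0, 0, 1]]
theorem e51 (B : Base) : SS B t3 [[3, 1, 0, 0, 0, 0, 0, 0, -2], [-2, 0, 0, 0, 0, 0, 0, 0, 2], [1, 1, 0, 0, -1]] = v29 B :=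
  ss_ref ok_t3 [.L (.R (.swap) [[2, 0, -1], [-2, 0, 2]]) [[4, 2, -2, 0, 0, -1], [-2, -1, 2, 0, 0, 1], [-2, -1, 2]], .R (.swap) [[2, -1, 0, 0, 0, 2], [0, 1, 0, 0, 0, -1], [-2, 0, 2, 0, 0, -1]], .reb [[2, 1], [0, 0, 1], [0, 0, 0, 0, 0, 1]] [[2, 0, 0, 0, 0, 1], [0, 0, 1], [2, 1, -2]], .L (.reb [[1], [0, 0, 1]] [[0, 0, 1], [1]]) [[2, 1], [0, 0, 1], [0, 0, 0, 0, 0, 1]], .R (.reb [[0, 0, 1], [1]] [[0, 0, 1], [1]]) [[2, 0, 0, 0, 0, 1], [0, 0, 1], [2, 1, -2]]] t9 _ _ (by decide +kernel) B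
theorem e52 (B : Base) : SS B t3 [[7, 3, 0, 0, -1, 0, 0, 0, -4], [-3, -1, 0, 0, 1, 0, 0, 0, 2]] = v1 B :=
  ss_mor ok_t3 [.snd, .snd, .fst] .line _ _ (by decide +kernel) B
theorem q20 (B : Base) : v25 B + v1 B ≤ v2 B + v29 B := by
  have h := ss_sub ok_t3 [[7, 3, 0, 0, -1, 0, 0, 0, -4], [-3, -1, 0, 0, 1, 0, 0, 0, 2], [0, 0, -2, 0, 0, 0, 0, 0, 2]] [[3, 1, 0, 0, 0, 0, 0, 0, -2], [-2, 0, 0, 0, 0, 0, 0, 0, 2], [1, 1, 0, 0, -1]] [[3, 1, 0, 0, 0, 0, 0, 0, -2], [-2, 0, 0, 0, 0, 0, 0, 0, 2], [0, 0, -2, 0, 0, 0, 0, 0, 2], [1, 1, 0, 0, -1]] [[7, 3, 0, 0, -1, 0, 0, 0, -4], [-3, -1, 0, 0, 1, 0, 0, 0, 2]] (by decide +kernel) (by decide +kernel) (by decide +kernel) B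
  have he50 := e50 B
  have he51 := e51 B
  have he45 := e45 B
  have he52 := e52 B
  linarith
theorem e53 (B : Base) : SS B t3 [[-1, -1, 0, 0, 0, 0, 0, 0, 2], [2, 2, 0, 0, 0, 0, 0, 0, -2]] = v11 B :=
  ss_ref ok_t3 [.swap, .L (.swap) [[2, -1, 0, 0, 0, 2], [0, 1, 0, 0, 0, -1], [-2, 0, 2, 0, 0, -1]], .L (.R (.swap) [[2, 0, -1], [-2, 0, 2]]) [[-2, -1, 4, 0, 0, 2], [2, 1, -2, 0, 0, -1], [0, 0, 0, 0, 0, -1]], .reb [[2, 1], [0, 0, 1], [0, 0, 0, 0, 0, 1]] [[2, 0, 0, 0, 0, 1], [0, 0, 1], [2, 1, -2]], .L (.reb [[1], [0, 0, 1]] [[0, 0, 1], [1]]) [[2, 1], [0, 0, 1], [0, 0, 0, 0, 0, 1]], .R (.reb [[0, 0, 1], [1]] [[0, 0, 1], [1]]) [[2, 0, 0, 0, 0, 1], [0, 0, 1], [2, 1, -2]]] t9 _ _ (by decide +kernel) B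
theorem e54 (B : Base) : SS B t3 [[1], [2, 2, 0, 0, 0, 0, 0, 0, -2]] = v11 B :=
  ss_ref ok_t3 [.L (.swap) [[2, -1, 0, 0, 0, 2], [0, 1, 0, 0, 0, -1], [-2, 0, 2, 0, 0, -1]], .L (.R (.swap) [[2, 0, -1], [-2, 0, 2]]) [[-2, -1, 4, 0, 0, 2], [2, 1, -2, 0, 0, -1], [0, 0, 0, 0, 0, -1]], .reb [[2, 1], [0, 0, 1], [0, 0, 0, 0, 0, 1]] [[2, 0, 0, 0, 0, 1], [0, 0, 1], [2, 1, -2]], .L (.reb [[1], [0, 0, 1]] [[0, 0, 1], [1]]) [[2, 1], [0, 0, 1], [0, 0, 0, 0, 0, 1]], .R (.reb [[0, 0, 1], [1]] [[0, 0, 1], [1]]) [[2, 0, 0, 0, 0, 1], [0, 0, 1], [2, 1, -2]]] t9 _ _ (by decide +kernel) B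
theorem e55 (B : Base) : SS B t3 [[1], [0, 1], [2, 1, 0, 0, 0, 0, 0, 0, -2]] = v29 B :=
  ss_ref ok_t3 [.L (.swap) [[2, -1, 0, 0, 0, 2], [0, 1, 0, 0, 0, -1], [-2, 0, 2, 0, 0, -1]], .L (.R (.swap) [[2, 0, -1], [-2, 0, 2]]) [[-2, -1, 4, 0, 0, 2], [2, 1, -2, 0, 0, -1], [0, 0, 0, 0, 0, -1]], .reb [[2, 1], [0, 0, 1], [0, 0, 0, 0, 0, 1]] [[2, 0, 0, 0, 0, 1], [0, 0, 1], [2, 1, -2]], .L (.reb [[1], [0, 0, 1]] [[0, 0, 1], [1]]) [[2, 1], [0, 0, 1], [0, 0, 0, 0, 0, 1]], .R (.reb [[0, 0, 1], [1]] [[0, 0, 1], [1]]) [[2, 0, 0, 0, 0, 1], [0, 0, 1], [2, 1, -2]]] t9 _ _ (by decide +kernel) B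
theorem q21 (B : Base) : v29 B + v24 B ≤ v11 B + v11 B := by
  have h := ss_sub ok_t3 [[-1, -1, 0, 0, 0, 0, 0, 0, 2], [2, 2, 0, 0, 0, 0, 0, 0, -2]] [[1], [2, 2, 0, 0, 0, 0, 0, 0, -2]] [[1], [0, 1], [2, 1, 0, 0, 0, 0, 0, 0, -2]] [[2, 2, 0, 0, 0, 0, 0, 0, -2]] (by decide +kernel) (by decide +kernel) (by decide +kernel) B
  have he53 := e53 B
  have he54 := e54 B
  have he55 := e55 B
  have he44 := e44 B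
  linarith
theorem e56 (B : Base) : SS B t5 [[-1, 0, 0, 0, 1, 0, 0, 0, 1], [4, 2, -2, 0, 0, 0, 0, 0, -2]] = v6 B :=
  ss_mor ok_t5 [.snd, .snd] t1 _ _ (by decide +kernel) B
theorem e57 (B : Base) : SS B t5 [[0, 0, 0, 0, 0, 0, 0, 0, 1], [4, 2, -2, 0, 0, 0, 0, 0, -2]] = v6 B :=
  ss_mor ok_t5 [.snd, .fst] t1 _ _ (by decide +kernel) B
noncomputable def v30 (B : Base) : ℝ := SS B t7 [[1], [0, 1, 0, 0, 0, 1], [0, 0, 1, 0, 0, 1]]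
theorem e58 (B : Base) : SS B t5 [[1, 0, 0, 0, -1, 0, 0, 0, 2], [-1, 0, 0, 0, 1], [4, 2, -2, 0, 0, 0, 0, 0, -2]] = v30 B :=
  ss_mor ok_t5 [.snd, .R (.swap) [[0, -1, 1], [2, 2, -2]], .reb [[1, 1], [0, 0, 1]] [[2, 1, -1], [1]]] t7 _ _ (by decide +kernel) B
theorem e59 (B : Base) : SS B t5 [[4, 2, -2, 0, 0, 0, 0, 0, -2]] = v27 B :=
  ss_mor ok_t5 [.snd, .fst] t1 _ _ (by decide +kernel) B
theorem q22 (B : Base) : v30 B + v27 B ≤ v6 B + v6 B := by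
  have h := ss_sub ok_t5 [[-1, 0, 0, 0, 1, 0, 0, 0, 1], [4, 2, -2, 0, 0, 0, 0, 0, -2]] [[0, 0, 0, 0, 0, 0, 0, 0, 1], [4, 2, -2, 0, 0, 0, 0, 0, -2]] [[1, 0, 0, 0, -1, 0, 0, 0, 2], [-1, 0, 0, 0, 1], [4, 2, -2, 0, 0, 0, 0, 0, -2]] [[4, 2, -2, 0, 0, 0, 0, 0, -2]] (by decide +kernel) (by decide +kernel) (by decide +kernel) B
  have he56 := e56 B
  have he57 := e57 B
  have he58 := e58 B
  have he59 := e59 B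
  linarith
noncomputable def v31 (B : Base) : ℝ := SS B t11 [[1], [0, 1], [0, 0, 1], [0, 0, 0, 0, 0, 1, 0, 0, -1]]
theorem e60 (B : Base) : SS B t5 [[3, 1, 0, 0, 0, 0, 0, 0, -2], [-2, 0, 0, 0, 0, 0, 0, 0, 2], [4, 2, -2, 0, 0, 0, 0, 0, -2], [1, 1, 0, 0, -1]] = v31 B :=
  ss_mor ok_t5 [.L (.swap) [[0, 1, 0, 0, 2], [1, 0, 0, 0, -1], [1, 1, -2, 0, 1]], .L (.R (.swap) [[0, -1, 1], [2, 2, -2]]) [[-2, -1, 4, 0, 0, 2], [2, 1, -2, 0, 0, -1], [0, 0, 0, 0, 0, 1]], .R (.R (.swap) [[0, -1, 1], [2, 2, -2]]) [[4, 2, -2, 0, 0, -1], [-2, -1, 2, 0, 0, 1], [2, 1, -2]], .reb [[2, 1], [0, 0, 1], [0, 0, 0, 0, 0, 1]] [[0, 0, 2, 0, 0, 1], [0, 0, 1], [2, 1, -2]], .L (.reb [[1, 1], [0, 0, 1]] [[2, 1, -1], [1]]) [[2, 1], [0, 0, 1], [0, 0, 0, 0, 0, 1]], .R (.reb [[0, 0, 1], [1, 1, -2]] [[1], [0, 1, -1]]) [[0, 0, 2, 0,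 0, 1], [0, 0, 1], [2, 1, -2]]] t11 _ _ (by decide +kernel) B
noncomputable def v32 (B : Base) : ℝ := SS B t11 [[1], [0, 1, 0, 0, 0, 1], [0, 0, 1, 0, 0, 1], [0, 0, 0, 0, 0, 0, 0, 0, 1]]
theorem e61 (B : Base) : SS B t5 [[1], [-2, 0, 0, 0, 0, 0, 0, 0, 2], [4, 2, -2, 0, 0, 0, 0, 0, -2], [-1, 0, 0, 0, -1, 0, 0, 0, 2]] = v32 B :=
  ss_mor ok_t5 [.L (.swap) [[0, 1, 0, 0, 2], [1, 0, 0, 0, -1], [1, 1, -2, 0, 1]], .L (.R (.swap) [[0, -1, 1], [2, 2, -2]]) [[-2, -1, 4, 0, 0, 2], [2, 1, -2, 0, 0, -1], [0, 0, 0, 0, 0, 1]], .R (.R (.swap) [[0, -1, 1], [2, 2, -2]]) [[4, 2, -2, 0, 0, -1], [-2, -1, 2, 0, 0, 1], [2, 1, -2]], .reb [[2, 1], [0, 0, 1], [0, 0, 0, 0, 0, 1]] [[0, 0, 2, 0, 0, 1], [0, 0, 1], [2, 1, -2]], .L (.reb [[1, 1], [0, 0, 1]] [[2, 1, -1], [1]]) [[2, 1], [0, 0, 1], [0, 0, 0, 0, 0, 1]], .R (.reb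 [[0, 0, 1], [1, 1, -2]] [[1], [0, 1, -1]]) [[0, 0, 2, 0, 0, 1], [0, 0, 1], [2, 1, -2]]] t11 _ _ (by decide +kernel) B
noncomputable def v33 (B : Base) : ℝ := SS B t11 [[1], [0, 1, 0, 0, 0, 1, 0, 0, -1], [0, 0, 1, 0, 0, 1, 0, 0, -1]]
theorem e62 (B : Base) : SS B t5 [[2, 0, 0, 0, 1, 0, 0, 0, -2], [-2, 0, 0, 0, 0, 0, 0, 0, 2], [4, 2, -2, 0, 0, 0, 0, 0, -2]] = v33 B :=
  ss_mor ok_t5 [.L (.swap) [[0, 1, 0, 0, 2], [1, 0, 0, 0, -1], [1, 1, -2, 0, 1]], .L (.R (.swap) [[0, -1, 1], [2, 2, -2]]) [[-2, -1, 4, 0, 0, 2], [2, 1, -2, 0, 0, -1], [0, 0, 0, 0, 0, 1]], .R (.R (.swap) [[0, -1, 1], [2, 2, -2]]) [[4, 2, -2, 0, 0, -1], [-2, -1, 2, 0, 0, 1], [2, 1, -2]], .reb [[2, 1], [0, 0, 1], [0, 0, 0, 0, 0, 1]] [[0, 0, 2, 0, 0, 1], [0, 0, 1], [2, 1, -2]], .L (.reb [[1, 1], [0, 0, 1]] [[2, 1, -1], [1]]) [[2, 1],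 [0, 0, 1], [0, 0, 0, 0, 0, 1]], .R (.reb [[0, 0, 1], [1, 1, -2]] [[1], [0, 1, -1]]) [[0, 0, 2, 0, 0, 1], [0, 0, 1], [2, 1, -2]]] t11 _ _ (by decide +kernel) B
theorem q23 (B : Base) : v12 B + v33 B ≤ v31 B + v32 B := by
  have h := ss_sub ok_t5 [[3, 1, 0, 0, 0, 0, 0, 0, -2], [-2, 0, 0, 0, 0, 0, 0, 0, 2], [4, 2, -2, 0, 0, 0, 0, 0, -2], [1, 1, 0, 0, -1]] [[1], [-2, 0, 0, 0, 0, 0, 0, 0, 2], [4, 2, -2, 0, 0, 0, 0, 0, -2], [-1, 0, 0, 0, -1, 0, 0, 0, 2]] [[1], [0, 1], [2, 1, -2], [1, 1, 0, 0, -1], [2, 1, 0, 0, 0, 0, 0, 0, -2]] [[2, 0, 0, 0, 1, 0, 0, 0, -2], [-2, 0, 0, 0, 0, 0, 0, 0, 2], [4, 2, -2, 0, 0, 0, 0, 0, -2]] (by decide +kernel) (by decide +kernel) (by decide +kernel) B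
  have he60 := e60 B
  have he61 := e61 B
  have he22 := e22 B
  have he62 := e62 B
  linarith
theorem e63 (B : Base) : SS B t5 [[-1, -1, 2], [2, 2, -2], [1, 1, 0, 0, -1]] = v2 B :=
  ss_mor ok_t5 [.fst, .snd] t1 _ _ (by decide +kernel) B
noncomputable def v34 (B : Base) : ℝ := SS B t11 [[1], [0, 1], [0, 0, 2, 0, 0, 1, 0, 0, -1]]
theorem e64 (B : Base) : SS B t5 [[3, 1, 0, 0, 0, 0, 0, 0, -2], [-2, 0, 0, 0, 0, 0, 0, 0, 2], [1, 1, 0, 0, -1]] = v34 B :=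
  ss_mor ok_t5 [.L (.swap) [[0, 1, 0, 0, 2], [1, 0, 0, 0, -1], [1, 1, -2, 0, 1]], .L (.R (.swap) [[0, -1, 1], [2, 2, -2]]) [[-2, -1, 4, 0, 0, 2], [2, 1, -2, 0, 0, -1], [0, 0, 0, 0, 0, 1]], .R (.R (.swap) [[0, -1, 1], [2, 2, -2]]) [[4, 2, -2, 0, 0, -1], [-2, -1, 2, 0, 0, 1], [2, 1, -2]], .reb [[2, 1], [0, 0, 1], [0, 0, 0, 0, 0, 1]] [[0, 0, 2, 0, 0, 1], [0, 0, 1], [2, 1, -2]], .L (.reb [[1, 1], [0, 0, 1]] [[2, 1, -1], [1]]) [[2, 1], [0, 0, 1], [0, 0, 0, 0, 0, 1]], .R (.reb [[0, 0, 1], [1, 1, -2]] [[1], [0, 1, -1]]) [[0, 0, 2, 0, 0, 1], [0, 0, 1], [2, 1, -2]]] t11 _ _ (by decide +kernel) B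
theorem e65 (B : Base) : SS B t5 [[1, 1], [1, 1, 0, 0, -1]] = v1 B :=
  ss_mor ok_t5 [.fst, .snd, .fst] .line _ _ (by decide +kernel) B
theorem q24 (B : Base) : v31 B + v1 B ≤ v2 B + v34 B := by
  have h := ss_sub ok_t5 [[-1, -1, 2], [2, 2, -2], [1, 1, 0, 0, -1]] [[3, 1, 0, 0, 0, 0, 0, 0, -2], [-2, 0, 0, 0, 0, 0, 0, 0, 2], [1, 1, 0, 0, -1]] [[3, 1, 0, 0, 0, 0, 0, 0, -2], [-2, 0, 0, 0, 0, 0, 0, 0, 2], [4, 2, -2, 0, 0, 0, 0, 0, -2], [1, 1, 0, 0, -1]] [[1, 1], [1, 1, 0, 0, -1]] (by decide +kernel) (by decide +kernel) (by decide +kernel) B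
  have he63 := e63 B
  have he64 := e64 B
  have he60 := e60 B
  have he65 := e65 B
  linarith
theorem e66 (B : Base) : SS B t5 [[2, 0, -2, 0, 1], [-2, 0, 2]] = v16 B :=
  ss_mor ok_t5 [.fst, .R (.swap) [[0, -1, 1], [2, 2, -2]], .reb [[1, 1], [0, 0, 1]] [[2, 1, -1], [1]]] t7 _ _ (by decide +kernel) B
theorem e67 (B : Base) : SS B t5 [[-1, 0, 0, 0, 1, 0, 0, 0, 1], [0, 0, -2, 0, 0, 0, 0, 0, 2]] = v16 B :=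
  ss_mor ok_t5 [.snd, .R (.swap) [[0, -1, 1], [2, 2, -2]], .reb [[1, 1], [0, 0, 1]] [[2, 1, -1], [1]]] t7 _ _ (by decide +kernel) B
noncomputable def v35 (B : Base) : ℝ := SS B t11 [[1, 0, -1], [0, 1, -1, 0, 0, -1], [0, 0, 0, 0, 0, 0, 0, 0, 1]]
theorem e68 (B : Base) : SS B t5 [[2, 0, 0, 0, 1, 0, 0, 0, -2], [-2, 0, 0, 0, 0, 0, 0, 0, 2], [0, 0, -2, 0, 0, 0, 0, 0, 2]] = v35 B :=
  ss_mor ok_t5 [.L (.R (.swap) [[0, -1, 1], [2, 2, -2]]) [[4, 2, -2, 0, 0, -1], [-2, -1, 2, 0, 0, 1], [2, 1, -2]], .R (.swap) [[0, 1, 0, 0, 2], [1, 0, 0, 0, -1], [1, 1, -2, 0, 1]], .R (.R (.swap) [[0, -1, 1], [2, 2, -2]]) [[-2, -1, 4, 0, 0, 2], [2, 1, -2, 0, 0, -1], [0, 0, 0, 0, 0, 1]], .reb [[2, 1], [0, 0, 1], [0, 0, 0, 0, 0, 1]] [[0, 0, 2, 0, 0, 1], [0, 0, 1], [2, 1, -2]], .L (.reb [[1, 1], [0, 0, 1]] [[2, 1, -1], [1]])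 [[2, 1], [0, 0, 1], [0, 0, 0, 0, 0, 1]], .R (.reb [[0, 0, 1], [1, 1, -2]] [[1], [0, 1, -1]]) [[0, 0, 2, 0, 0, 1], [0, 0, 1], [2, 1, -2]]] t11 _ _ (by decide +kernel) B
theorem q25 (B : Base) : v35 B + v18 B ≤ v16 B + v16 B := by
  have h := ss_sub ok_t5 [[2, 0, -2, 0, 1], [-2, 0, 2]] [[-1, 0, 0, 0, 1, 0, 0, 0, 1], [0, 0, -2, 0, 0, 0, 0, 0, 2]] [[2, 0, 0, 0, 1, 0, 0, 0, -2], [-2, 0, 0, 0, 0, 0, 0, 0, 2], [0, 0, -2, 0, 0, 0, 0, 0, 2]] [[-1, 0, 1, 0, 1]] (by decide +kernel) (by decide +kernel) (by decide +kernel) B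
  have he66 := e66 B
  have he67 := e67 B
  have he68 := e68 B
  have he32 := e32 B
  linarith
noncomputable def v36 (B : Base) : ℝ := SS B t11 [[1], [0, 1, -2, 0, 0, -1, 0, 0, 1]]
theorem e69 (B : Base) : SS B t5 [[2, 0, 0, 0, 1, 0, 0, 0, -2], [-2, 0, 0, 0, 0, 0, 0, 0, 2]] = v36 B :=
  ss_mor ok_t5 [.L (.swap) [[0, 1, 0, 0, 2], [1, 0, 0, 0, -1], [1, 1, -2, 0, 1]], .L (.R (.swap) [[0, -1, 1], [2, 2, -2]]) [[-2, -1, 4, 0, 0, 2], [2, 1, -2, 0, 0, -1], [0, 0, 0, 0, 0, 1]], .R (.R (.swap) [[0, -1, 1], [2, 2, -2]]) [[4, 2, -2, 0, 0, -1], [-2, -1, 2, 0, 0, 1], [2, 1, -2]], .reb [[2, 1], [0, 0, 1], [0, 0, 0, 0, 0, 1]] [[0, 0, 2, 0, 0, 1], [0, 0, 1], [2, 1, -2]], .L (.reb [[1, 1], [0, 0, 1]] [[2, 1, -1], [1]]) [[2, 1], [0, 0, 1], [0, 0, 0, 0, 0, 1]], .R (.reb [[0, 0, 1], [1, 1, -2]] [[1], [0, 1, -1]])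 [[0, 0, 2, 0, 0, 1], [0, 0, 1], [2, 1, -2]]] t11 _ _ (by decide +kernel) B
theorem q26 (B : Base) : v12 B + v36 B ≤ v33 B + v35 B := by
  have h := ss_sub ok_t5 [[2, 0, 0, 0, 1, 0, 0, 0, -2], [-2, 0, 0, 0, 0, 0, 0, 0, 2], [4, 2, -2, 0, 0, 0, 0, 0, -2]] [[2, 0, 0, 0, 1, 0, 0, 0, -2], [-2, 0, 0, 0, 0, 0, 0, 0, 2], [0, 0, -2, 0, 0, 0, 0, 0, 2]] [[1], [0, 1], [2, 1, -2], [1, 1, 0, 0, -1], [2, 1, 0, 0, 0, 0, 0, 0, -2]] [[2, 0, 0, 0, 1, 0, 0, 0, -2], [-2, 0, 0, 0, 0, 0, 0, 0, 2]] (by decide +kernel) (by decide +kernel) (by decide +kernel) B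
  have he62 := e62 B
  have he68 := e68 B
  have he22 := e22 B
  have he69 := e69 B
  linarith
theorem e70 (B : Base) : SS B t5 [[-1, -1, 0, 0, 0, 0, 0, 0, 2], [2, 2, 0, 0, 0, 0, 0, 0, -2]] = v19 B :=
  ss_mor ok_t5 [.L (.R (.swap) [[0, -1, 1], [2, 2, -2]]) [[4, 2, -2, 0, 0, -1], [-2, -1, 2, 0, 0, 1], [2, 1, -2]], .R (.swap) [[0, 1, 0, 0, 2], [1, 0, 0, 0, -1], [1, 1, -2, 0, 1]], .R (.R (.swap) [[0, -1, 1], [2, 2, -2]]) [[-2, -1, 4, 0, 0, 2], [2, 1, -2, 0, 0, -1], [0, 0, 0, 0, 0, 1]], .reb [[2, 1], [0, 0, 1], [0, 0, 0, 0, 0, 1]] [[0, 0, 2, 0, 0, 1], [0, 0, 1], [2, 1, -2]], .L (.reb [[1, 1], [0, 0, 1]] [[2, 1, -1], [1]]) [[2, 1], [0, 0, 1], [0, 0, 0, 0, 0, 1]], .R (.reb [[0, 0, 1], [1, 1, -2]] [[1], [0, 1, -1]]) [[0, 0, 2, 0, 0, 1], [0, 0, 1], [2, 1, -2]]] t11 _ _ (by decide +kernel) B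
theorem e71 (B : Base) : SS B t5 [[1], [2, 2, 0, 0, 0, 0, 0, 0, -2]] = v19 B :=
  ss_mor ok_t5 [.swap, .L (.R (.swap) [[0, -1, 1], [2, 2, -2]]) [[4, 2, -2, 0, 0, -1], [-2, -1, 2, 0, 0, 1], [2, 1, -2]], .R (.swap) [[0, 1, 0, 0, 2], [1, 0, 0, 0, -1], [1, 1, -2, 0, 1]], .R (.R (.swap) [[0, -1, 1], [2, 2, -2]]) [[-2, -1, 4, 0, 0, 2], [2, 1, -2, 0, 0, -1], [0, 0, 0, 0, 0, 1]], .reb [[2, 1], [0, 0, 1], [0, 0, 0, 0, 0, 1]] [[0, 0, 2, 0, 0, 1], [0, 0, 1], [2, 1, -2]], .L (.reb [[1, 1], [0, 0, 1]] [[2, 1, -1], [1]]) [[2, 1], [0, 0, 1], [0, 0, 0, 0, 0, 1]], .R (.reb [[0, 0, 1], [1, 1, -2]] [[1], [0, 1, -1]]) [[0, 0, 2, 0, 0, 1], [0, 0, 1], [2, 1, -2]]] t11 _ _ (by decide +kernel) B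
theorem e72 (B : Base) : SS B t5 [[1], [0, 1], [2, 1, 0, 0, 0, 0, 0, 0, -2]] = v34 B :=
  ss_mor ok_t5 [.L (.R (.swap) [[0, -1, 1], [2, 2, -2]]) [[4, 2, -2, 0, 0, -1], [-2, -1, 2, 0, 0, 1], [2, 1, -2]], .R (.swap) [[0, 1, 0, 0, 2], [1, 0, 0, 0, -1], [1, 1, -2, 0, 1]], .R (.R (.swap) [[0, -1, 1], [2, 2, -2]]) [[-2, -1, 4, 0, 0, 2], [2, 1, -2, 0, 0, -1], [0, 0, 0, 0, 0, 1]], .reb [[2, 1], [0, 0, 1], [0, 0, 0, 0, 0, 1]] [[0, 0, 2, 0, 0, 1], [0, 0, 1], [2, 1, -2]], .L (.reb [[1, 1], [0, 0, 1]] [[2, 1, -1], [1]]) [[2, 1], [0, 0, 1], [0, 0, 0, 0, 0, 1]], .R (.reb [[0, 0, 1], [1, 1, -2]] [[1], [0, 1, -1]]) [[0, 0, 2, 0, 0, 1], [0, 0, 1], [2, 1, -2]]] t11 _ _ (by decide +kernel) B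
noncomputable def v37 (B : Base) : ℝ := SS B t11 [[1, 0, -2, 0, 0, -1, 0, 0, 1]]
theorem e73 (B : Base) : SS B t5 [[2, 2, 0, 0, 0, 0, 0, 0, -2]] = v37 B :=
  ss_mor ok_t5 [.L (.R (.swap) [[0, -1, 1], [2, 2, -2]]) [[4, 2, -2, 0, 0, -1], [-2, -1, 2, 0, 0, 1], [2, 1, -2]], .R (.swap) [[0, 1, 0, 0, 2], [1, 0, 0, 0, -1], [1, 1, -2, 0, 1]], .R (.R (.swap) [[0, -1, 1], [2, 2, -2]]) [[-2, -1, 4, 0, 0, 2], [2, 1, -2, 0, 0, -1], [0, 0, 0, 0, 0, 1]], .reb [[2, 1], [0, 0, 1], [0, 0, 0, 0, 0, 1]] [[0, 0, 2, 0, 0, 1], [0, 0, 1], [2, 1, -2]], .L (.reb [[1, 1], [0, 0, 1]] [[2, 1, -1], [1]]) [[2, 1], [0, 0, 1], [0, 0, 0, 0, 0, 1]], .R (.reb [[0, 0, 1], [1, 1, -2]] [[1], [0, 1, -1]]) [[0, 0, 2, 0, 0, 1], [0, 0, 1], [2, 1, -2]]] t11 _ _ (by decide +kernel) B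
theorem q27 (B : Base) : v34 B + v37 B ≤ v19 B + v19 B := by
  have h := ss_sub ok_t5 [[-1, -1, 0, 0, 0, 0, 0, 0, 2], [2, 2, 0, 0, 0, 0, 0, 0, -2]] [[1], [2, 2, 0, 0, 0, 0, 0, 0, -2]] [[1], [0, 1], [2, 1, 0, 0, 0, 0, 0, 0, -2]] [[2, 2, 0, 0, 0, 0, 0, 0, -2]] (by decide +kernel) (by decide +kernel) (by decide +kernel) B
  have he70 := e70 B
  have he71 := e71 B
  have he72 := e72 B
  have he73 := e73 B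
  linarith
noncomputable def v38 (B : Base) : ℝ := SS B t6 [[1, 0, -2, 0, 0, -1], [0, 1, 4, 0, 0, 2]]
theorem e74 (B : Base) : SS B t3 [[-1, -1, 4, 0, -1], [1, 1, -2, 0, 1]] = v38 B :=
  ss_ref ok_t3 [.fst, .swap, .L (.swap) [[2, 0, -1], [-2, 0, 2]], .reb [[1], [0, 0, 1]] [[0, 0, 1], [1]]] t6 _ _ (by decide +kernel) B
noncomputable def v39 (B : Base) : ℝ := SS B t6 [[1], [0, 1, -2, 0, 0, -1]]
theorem e75 (B : Base) : SS B t3 [[5, 2, -2, 0, -1], [-1, 0, 0, 0, 1]] = v39 B :=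
  ss_ref ok_t3 [.fst, .L (.swap) [[2, 0, -1], [-2, 0, 2]], .reb [[1], [0, 0, 1]] [[0, 0, 1], [1]]] t6 _ _ (by decide +kernel) B
theorem q28 (B : Base) : v10 B + v14 B ≤ v38 B + v39 B := by
  have h := ss_sub ok_t3 [[-1, -1, 4, 0, -1], [1, 1, -2, 0, 1]] [[5, 2, -2, 0, -1], [-1, 0, 0, 0, 1]] [[3, 1, 0, 0, -1], [-1, 0, 0, 0, 1], [2, 1, -2]] [[1, 1, -1, 0, 1]] (by decide +kernel) (by decide +kernel) (by decide +kernel) B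
  have he74 := e74 B
  have he75 := e75 B
  have he25 := e25 B
  have he24 := e24 B
  linarith
noncomputable def v40 (B : Base) : ℝ := SS B t6 [[2, 1, -2, 0, 0, -1]]
theorem e76 (B : Base) : SS B t3 [[-1, 0, 0, 0, 1]] = v40 B :=
  ss_ref ok_t3 [.fst, .L (.swap) [[2, 0, -1], [-2, 0, 2]], .reb [[1], [0, 0, 1]] [[0, 0, 1], [1]]] t6 _ _ (by decide +kernel) B
theorem e77 (B : Base) : SS B t3 [[2, 1, 0, 0, -1], [-1, 0, 0, 0, 1]] = v39 B :=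
  ss_ref ok_t3 [.fst, .R (.swap) [[2, 0, -1], [-2, 0, 2]], .reb [[1], [0, 0, 1]] [[0, 0, 1], [1]]] t6 _ _ (by decide +kernel) B
theorem q29 (B : Base) : v39 B ≤ v40 B + v4 B := by
  have h := ss_add ok_t3 [[-1, 0, 0, 0, 1]] [[1, 1]] [[2, 1, 0, 0, -1], [-1, 0, 0, 0, 1]] (by decide +kernel) B
  have he76 := e76 B
  have he8 := e8 B
  have he77 := e77 B
  linarith
theorem e78 (B : Base) : SS B t3 [[1, 1, 0, 0, 1]] = v3 B :=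
  ss_mor ok_t3 [.fst, .snd, .fst] .line _ _ (by decide +kernel) B
theorem e79 (B : Base) : SS B t3 [[0, 0, 0, 0, 0, 0, 0, 0, 1]] = v4 B :=
  ss_mor ok_t3 [.snd, .fst, .fst] .line _ _ (by decide +kernel) B
theorem e80 (B : Base) : SS B t3 [[-1, -1, 0, 0, -1, 0, 0, 0, 4], [1, 1, 0, 0, 1, 0, 0, 0, -2]] = v38 B :=
  ss_ref ok_t3 [.snd, .swap, .R (.swap) [[2, 0, -1], [-2, 0, 2]], .reb [[1], [0, 0, 1]] [[0, 0, 1], [1]]] t6 _ _ (by decide +kernel) B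
theorem q30 (B : Base) : v38 B ≤ v3 B + v4 B := by
  have h := ss_add ok_t3 [[1, 1, 0, 0, 1]] [[0, 0, 0, 0, 0, 0, 0, 0, 1]] [[-1, -1, 0, 0, -1, 0, 0, 0, 4], [1, 1, 0, 0, 1, 0, 0, 0, -2]] (by decide +kernel) B
  have he78 := e78 B
  have he79 := e79 B
  have he80 := e80 B
  linarith
theorem e81 (B : Base) : SS B t3 [[1, 0, 0, 0, -1, 0, 0, 0, 2], [-1, 0, 0, 0, 1]] = v28 B :=
  ss_ref ok_t3 [.snd, .R (.swap) [[2, 0, -1], [-2, 0, 2]], .reb [[1], [0, 0, 1]] [[0, 0, 1], [1]]] t6 _ _ (by decide +kernel) B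
theorem q31 (B : Base) : v17 B + v40 B ≤ v28 B + v28 B := by
  have h := ss_sub ok_t3 [[1, 0, 0, 0, -1, 0, 0, 0, 2], [-1, 0, 0, 0, 1]] [[1, 0, 2, 0, -1], [-1, 0, 0, 0, 1]] [[1, 0, 0, 0, -1, 0, 0, 0, 2], [-1, 0, 0, 0, 1], [0, 0, -2, 0, 0, 0, 0, 0, 2]] [[-1, 0, 0, 0, 1]] (by decide +kernel) (by decide +kernel) (by decide +kernel) B
  have he81 := e81 B
  have he49 := e49 B
  have he30 := e30 B
  have he76 := e76 B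
  linarith
theorem e82 (B : Base) : SS B t5 [[1, 1, 0, 0, 1]] = v3 B :=
  ss_mor ok_t5 [.fst, .snd, .fst] .line _ _ (by decide +kernel) B
theorem e83 (B : Base) : SS B t5 [[0, 0, 0, 0, 0, 0, 0, 0, 1]] = v4 B :=
  ss_mor ok_t5 [.snd, .fst, .fst] .line _ _ (by decide +kernel) B
noncomputable def v41 (B : Base) : ℝ := SS B t7 [[1], [0, 0, 2, 0, 0, 1]]
theorem e84 (B : Base) : SS B t5 [[-1, -1, 0, 0, -1, 0, 0, 0, 4], [1, 1, 0, 0, 1, 0, 0, 0, -2]] = v41 B :=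
  ss_mor ok_t5 [.snd, .R (.swap) [[0, -1, 1], [2, 2, -2]], .reb [[1, 1], [0, 0, 1]] [[2, 1, -1], [1]]] t7 _ _ (by decide +kernel) B
theorem q32 (B : Base) : v41 B ≤ v3 B + v4 B := by
  have h := ss_add ok_t5 [[1, 1, 0, 0, 1]] [[0, 0, 0, 0, 0, 0, 0, 0, 1]] [[-1, -1, 0, 0, -1, 0, 0, 0, 4], [1, 1, 0, 0, 1, 0, 0, 0, -2]] (by decide +kernel) B
  have he82 := e82 B
  have he83 := e83 B
  have he84 := e84 B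
  linarith
theorem e85 (B : Base) : SS B t5 [[7, 3, -4, 0, -1], [-3, -1, 2, 0, 1]] = v41 B :=
  ss_ref ok_t5 [.fst, .L (.swap) [[2, 2, -1], [-2, -2, 2]], .reb [[1, 1], [0, 0, 1]] [[2, 1, -1], [1]]] t7 _ _ (by decide +kernel) B
noncomputable def v42 (B : Base) : ℝ := SS B t7 [[1, 0, -2, 0, 0, -1], [0, 1, 2, 0, 0, 1]]
theorem e86 (B : Base) : SS B t5 [[1, 0, 2, 0, -1], [-1, 0, 0, 0, 1]] = v42 B :=
  ss_ref ok_t5 [.fst, .L (.swap) [[2, 2, -1], [-2, -2, 2]], .reb [[1, 1], [0, 0, 1]] [[2, 1, -1], [1]]] t7 _ _ (by decide +kernel) B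
theorem q33 (B : Base) : v13 B + v18 B ≤ v41 B + v42 B := by
  have h := ss_sub ok_t5 [[7, 3, -4, 0, -1], [-3, -1, 2, 0, 1]] [[1, 0, 2, 0, -1], [-1, 0, 0, 0, 1]] [[3, 1, 0, 0, -1], [-1, 0, 0, 0, 1], [2, 1, -2]] [[-1, 0, 1, 0, 1]] (by decide +kernel) (by decide +kernel) (by decide +kernel) B
  have he85 := e85 B
  have he86 := e86 B
  have he33 := e33 B
  have he32 := e32 B
  linarith
noncomputable def v43 (B : Base) : ℝ := SS B t7 [[2, 1, -2, 0, 0, -1]]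
theorem e87 (B : Base) : SS B t5 [[-1, 0, 0, 0, 1]] = v43 B :=
  ss_mor ok_t5 [.fst, .R (.swap) [[0, -1, 1], [2, 2, -2]], .reb [[1, 1], [0, 0, 1]] [[2, 1, -1], [1]]] t7 _ _ (by decide +kernel) B
theorem e88 (B : Base) : SS B t5 [[5, 2, 0, 0, -1, 0, 0, 0, -2], [-1, 0, 0, 0, 1]] = v42 B :=
  ss_mor ok_t5 [.snd, .R (.swap) [[0, -1, 1], [2, 2, -2]], .reb [[1, 1], [0, 0, 1]] [[2, 1, -1], [1]]] t7 _ _ (by decide +kernel) B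
theorem q34 (B : Base) : v42 B ≤ v4 B + v43 B := by
  have h := ss_add ok_t5 [[2, 1, 0, 0, 0, 0, 0, 0, -1]] [[-1, 0, 0, 0, 1]] [[5, 2, 0, 0, -1, 0, 0, 0, -2], [-1, 0, 0, 0, 1]] (by decide +kernel) B
  have he35 := e35 B
  have he87 := e87 B
  have he88 := e88 B
  linarith
theorem e89 (B : Base) : SS B t5 [[1], [-1, 0, 0, 0, 1], [3, 2, -2, 0, -1]] = v30 B :=
  ss_mor ok_t5 [.fst, .R (.swap) [[0, -1, 1], [2, 2, -2]], .reb [[1, 1], [0, 0, 1]] [[2, 1, -1], [1]]] t7 _ _ (by decide +kernel) B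
noncomputable def v44 (B : Base) : ℝ := SS B t7 [[1], [0, 1, -2, 0, 0, -1]]
theorem e90 (B : Base) : SS B t5 [[5, 2, -2, 0, -1], [-1, 0, 0, 0, 1]] = v44 B :=
  ss_ref ok_t5 [.fst, .L (.swap) [[2, 2, -1], [-2, -2, 2]], .reb [[1, 1], [0, 0, 1]] [[2, 1, -1], [1]]] t7 _ _ (by decide +kernel) B
theorem q35 (B : Base) : v32 B + v44 B ≤ v30 B + v30 B := by
  have h := ss_sub ok_t5 [[1], [-1, 0, 0, 0, 1], [3, 2, -2, 0, -1]] [[1, 0, 0, 0, -1, 0, 0, 0, 2], [-1, 0, 0, 0, 1], [4, 2, -2, 0, 0, 0, 0, 0, -2]] [[1], [-2, 0, 0, 0, 0, 0, 0, 0, 2], [4, 2, -2, 0, 0, 0, 0, 0, -2], [-1, 0, 0, 0, -1, 0, 0, 0, 2]] [[5, 2, -2, 0, -1], [-1, 0, 0, 0, 1]] (by decide +kernel) (by decide +kernel) (by decide +kernel) B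
  have he89 := e89 B
  have he58 := e58 B
  have he61 := e61 B
  have he90 := e90 B
  linarith
noncomputable def v45 (B : Base) : ℝ := SS B t11 [[1, 1, -2, 0, 0, -1, 0, 0, 1]]
theorem e91 (B : Base) : SS B t5 [[-2, 0, 0, 0, 0, 0, 0, 0, 2]] = v45 B :=
  ss_mor ok_t5 [.L (.swap) [[0, 1, 0, 0, 2], [1, 0, 0, 0, -1], [1, 1, -2, 0, 1]], .L (.R (.swap) [[0, -1, 1], [2, 2, -2]]) [[-2, -1, 4, 0, 0, 2], [2, 1, -2, 0, 0, -1], [0, 0, 0, 0, 0, 1]], .R (.R (.swap) [[0, -1, 1], [2, 2, -2]]) [[4, 2, -2, 0, 0, -1], [-2, -1, 2, 0, 0, 1], [2, 1, -2]], .reb [[2, 1], [0, 0, 1], [0, 0, 0, 0, 0, 1]] [[0, 0, 2, 0, 0, 1], [0, 0, 1], [2, 1, -2]], .L (.reb [[1, 1], [0, 0, 1]] [[2, 1, -1], [1]]) [[2, 1], [0, 0, 1], [0, 0, 0, 0, 0, 1]], .R (.reb [[0, 0, 1], [1, 1, -2]] [[1], [0, 1, -1]]) [[0, 0, 2, 0, 0, 1], [0, 0, 1],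 [2, 1, -2]]] t11 _ _ (by decide +kernel) B
theorem q36 (B : Base) : v34 B ≤ v45 B + v37 B := by
  have h := ss_add ok_t5 [[-2, 0, 0, 0, 0, 0, 0, 0, 2]] [[2, 2, 0, 0, 0, 0, 0, 0, -2]] [[1], [0, 1], [2, 1, 0, 0, 0, 0, 0, 0, -2]] (by decide +kernel) B
  have he91 := e91 B
  have he73 := e73 B
  have he72 := e72 B
  linarith
theorem e92 (B : Base) : SS B t5 [[1], [-2, 0, 0, 0, 0, 0, 0, 0, 2]] = v36 B :=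
  ss_mor ok_t5 [.L (.R (.swap) [[0, -1, 1], [2, 2, -2]]) [[4, 2, -2, 0, 0, -1], [-2, -1, 2, 0, 0, 1], [2, 1, -2]], .R (.swap) [[0, 1, 0, 0, 2], [1, 0, 0, 0, -1], [1, 1, -2, 0, 1]], .R (.R (.swap) [[0, -1, 1], [2, 2, -2]]) [[-2, -1, 4, 0, 0, 2], [2, 1, -2, 0, 0, -1], [0, 0, 0, 0, 0, 1]], .reb [[2, 1], [0, 0, 1], [0, 0, 0, 0, 0, 1]] [[0, 0, 2, 0, 0, 1], [0, 0, 1], [2, 1, -2]], .L (.reb [[1, 1], [0, 0, 1]] [[2, 1, -1], [1]]) [[2, 1], [0, 0, 1], [0, 0, 0, 0, 0, 1]], .R (.reb [[0, 0, 1], [1, 1, -2]] [[1], [0, 1, -1]]) [[0, 0, 2, 0, 0, 1], [0, 0, 1], [2, 1, -2]]] t11 _ _ (by decide +kernel) B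
noncomputable def v46 (B : Base) : ℝ := SS B t11 [[1], [0, 1, -2, 0, 0, -1], [0, 0, 0, 0, 0, 0, 0, 0, 1]]
theorem e93 (B : Base) : SS B t5 [[1], [-2, 0, 0, 0, 0, 0, 0, 0, 2], [-1, 0, 0, 0, -1, 0, 0, 0, 2]] = v46 B :=
  ss_mor ok_t5 [.L (.swap) [[0, 1, 0, 0, 2], [1, 0, 0, 0, -1], [1, 1, -2, 0, 1]], .L (.R (.swap) [[0, -1, 1], [2, 2, -2]]) [[-2, -1, 4, 0, 0, 2], [2, 1, -2, 0, 0, -1], [0, 0, 0, 0, 0, 1]], .R (.R (.swap) [[0, -1, 1], [2, 2, -2]]) [[4, 2, -2, 0, 0, -1], [-2, -1, 2, 0, 0, 1], [2, 1, -2]], .reb [[2, 1], [0, 0, 1], [0, 0, 0, 0, 0, 1]] [[0, 0, 2, 0, 0, 1], [0, 0, 1], [2, 1, -2]], .L (.reb [[1, 1], [0, 0, 1]] [[2, 1, -1], [1]]) [[2, 1], [0, 0, 1], [0, 0, 0, 0, 0, 1]], .R (.reb [[0, 0, 1], [1, 1, -2]] [[1], [0, 1, -1]]) [[0, 0, 2, 0, 0, 1], [0, 0, 1], [2, 1, -2]]] t11 _ _ (by decide +kernel)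 B
theorem q37 (B : Base) : v46 B + v45 B ≤ v36 B + v36 B := by
  have h := ss_sub ok_t5 [[2, 0, 0, 0, 1, 0, 0, 0, -2], [-2, 0, 0, 0, 0, 0, 0, 0, 2]] [[1], [-2, 0, 0, 0, 0, 0, 0, 0, 2]] [[1], [-2, 0, 0, 0, 0, 0, 0, 0, 2], [-1, 0, 0, 0, -1, 0, 0, 0, 2]] [[-2, 0, 0, 0, 0, 0, 0, 0, 2]] (by decide +kernel) (by decide +kernel) (by decide +kernel) B
  have he69 := e69 B
  have he92 := e92 B
  have he93 := e93 B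
  have he91 := e91 B
  linarith
noncomputable def v47 (B : Base) : ℝ := SS B t11 [[1, 0, 0, 0, 0, 0, 0, 0, -1], [0, 1, 0, 0, 0, 1, 0, 0, 2], [0, 0, 1, 0, 0, 1]]
theorem e94 (B : Base) : SS B t5 [[3, 1, -1, 0, 0, 0, 0, 0, -1], [-2, 0, 0, 0, 0, 0, 0, 0, 2], [-1, 0, 0, 0, -1, 0, 0, 0, 2]] = v47 B :=
  ss_mor ok_t5 [.L (.swap) [[0, 1, 0, 0, 2], [1, 0, 0, 0, -1], [1, 1, -2, 0, 1]], .L (.R (.swap) [[0, -1, 1], [2, 2, -2]]) [[-2, -1, 4, 0, 0, 2], [2, 1, -2, 0, 0, -1], [0, 0, 0, 0, 0, 1]], .R (.R (.swap) [[0, -1, 1], [2, 2, -2]]) [[4, 2, -2, 0, 0, -1], [-2, -1, 2, 0, 0, 1], [2, 1, -2]], .reb [[2, 1], [0, 0, 1], [0, 0, 0, 0, 0, 1]] [[0, 0, 2, 0, 0, 1], [0, 0, 1], [2, 1, -2]], .L (.reb [[1, 1], [0, 0, 1]] [[2, 1, -1], [1]]) [[2, 1], [0, 0, 1], [0, 0, 0, 0, 0, 1]], .R (.reb [[0, 0, 1], [1, 1, -2]] [[1],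 [0, 1, -1]]) [[0, 0, 2, 0, 0, 1], [0, 0, 1], [2, 1, -2]]] t11 _ _ (by decide +kernel) B
noncomputable def v48 (B : Base) : ℝ := SS B t11 [[1, 0, 0, 0, 0, 0, 0, 0, -1], [0, 1, -2, 0, 0, -1, 0, 0, 2]]
theorem e95 (B : Base) : SS B t5 [[-2, 0, 0, 0, 0, 0, 0, 0, 2], [-1, 0, 0, 0, -1, 0, 0, 0, 2]] = v48 B :=
  ss_mor ok_t5 [.L (.swap) [[0, 1, 0, 0, 2], [1, 0, 0, 0, -1], [1, 1, -2, 0, 1]], .L (.R (.swap) [[0, -1, 1], [2, 2, -2]]) [[-2, -1, 4, 0, 0, 2], [2, 1, -2, 0, 0, -1], [0, 0, 0, 0, 0, 1]], .R (.R (.swap) [[0, -1, 1], [2, 2, -2]]) [[4, 2, -2, 0, 0, -1], [-2, -1, 2, 0, 0, 1], [2, 1, -2]], .reb [[2, 1], [0, 0, 1], [0, 0, 0, 0, 0, 1]] [[0, 0, 2, 0, 0, 1], [0, 0, 1], [2, 1, -2]], .L (.reb [[1, 1], [0, 0, 1]] [[2, 1, -1], [1]]) [[2, 1], [0, 0, 1], [0, 0, 0, 0, 0, 1]], .R (.reb [[0, 0, 1], [1, 1, -2]]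 [[1], [0, 1, -1]]) [[0, 0, 2, 0, 0, 1], [0, 0, 1], [2, 1, -2]]] t11 _ _ (by decide +kernel) B
theorem q38 (B : Base) : v32 B + v48 B ≤ v46 B + v47 B := by
  have h := ss_sub ok_t5 [[1], [-2, 0, 0, 0, 0, 0, 0, 0, 2], [-1, 0, 0, 0, -1, 0, 0, 0, 2]] [[3, 1, -1, 0, 0, 0, 0, 0, -1], [-2, 0, 0, 0, 0, 0, 0, 0, 2], [-1, 0, 0, 0, -1, 0, 0, 0, 2]] [[1], [-2, 0, 0, 0, 0, 0, 0, 0, 2], [4, 2, -2, 0, 0, 0, 0, 0, -2], [-1, 0, 0, 0, -1, 0, 0, 0, 2]] [[-2, 0, 0, 0, 0, 0, 0, 0, 2], [-1, 0, 0, 0, -1, 0, 0, 0, 2]] (by decide +kernel) (by decide +kernel) (by decide +kernel) B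
  have he93 := e93 B
  have he94 := e94 B
  have he61 := e61 B
  have he95 := e95 B
  linarith
theorem q39 (B : Base) : v47 B + v43 B ≤ v44 B + v48 B := by
  have h := ss_sub ok_t5 [[5, 2, -2, 0, -1], [-1, 0, 0, 0, 1]] [[-2, 0, 0, 0, 0, 0, 0, 0, 2], [-1, 0, 0, 0, -1, 0, 0, 0, 2]] [[3, 1, -1, 0, 0, 0, 0, 0, -1], [-2, 0, 0, 0, 0, 0, 0, 0, 2], [-1, 0, 0, 0, -1, 0, 0, 0, 2]] [[-1, 0, 0, 0, 1]] (by decide +kernel) (by decide +kernel) (by decide +kernel) B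
  have he90 := e90 B
  have he95 := e95 B
  have he94 := e94 B
  have he87 := e87 B
  linarith
noncomputable def v49 (B : Base) : ℝ := SS B t11 [[1], [0, 1, 0, 0, 0, 0, 0, 0, -1], [0, 0, 1, 0, 0, 0, 0, 0, -1]]
theorem e96 (B : Base) : SS B t5 [[-2, -2, 0, 0, 1, 0, 0, 0, 2], [2, 2, 0, 0, 0, 0, 0, 0, -2], [0, 0, -2, 0, 0, 0, 0, 0, 2]] = v49 B :=
  ss_mor ok_t5 [.L (.swap) [[0, 1, 0, 0, 2], [1, 0, 0, 0, -1], [1, 1, -2, 0, 1]], .L (.R (.swap) [[0, -1, 1], [2, 2, -2]]) [[-2, -1, 4, 0, 0, 2], [2, 1, -2, 0, 0, -1], [0, 0, 0, 0, 0, 1]], .R (.R (.swap) [[0, -1, 1], [2, 2, -2]]) [[4, 2, -2, 0, 0, -1], [-2, -1, 2, 0, 0, 1], [2, 1, -2]], .reb [[2, 1], [0, 0, 1], [0, 0, 0, 0, 0, 1]] [[0, 0, 2, 0, 0, 1], [0, 0, 1], [2, 1, -2]], .L (.reb [[1, 1], [0, 0, 1]] [[2, 1, -1], [1]]) [[2, 1], [0, 0, 1], [0, 0, 0,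 0, 0, 1]], .R (.reb [[0, 0, 1], [1, 1, -2]] [[1], [0, 1, -1]]) [[0, 0, 2, 0, 0, 1], [0, 0, 1], [2, 1, -2]]] t11 _ _ (by decide +kernel) B
theorem e97 (B : Base) : SS B t5 [[-2, -2, 2, 0, 1], [2, 2, -2]] = v6 B :=
  ss_mor ok_t5 [.fst, .snd] t1 _ _ (by decide +kernel) B
theorem q40 (B : Base) : v12 B + v6 B ≤ v33 B + v49 B := by
  have h := ss_sub ok_t5 [[2, 0, 0, 0, 1, 0, 0, 0, -2], [-2, 0, 0, 0, 0, 0, 0, 0, 2], [4, 2, -2, 0, 0, 0, 0, 0, -2]] [[-2, -2, 0, 0, 1, 0, 0, 0, 2], [2, 2, 0, 0, 0, 0, 0, 0, -2], [0, 0, -2, 0, 0, 0, 0, 0, 2]] [[1], [0, 1], [2, 1, -2], [1, 1, 0, 0, -1], [2, 1, 0, 0, 0, 0, 0, 0, -2]] [[-2, -2, 2, 0, 1], [2, 2, -2]] (by decide +kernel) (by decide +kernel) (by decide +kernel) B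
  have he62 := e62 B
  have he96 := e96 B
  have he22 := e22 B
  have he97 := e97 B
  linarith
noncomputable def v50 (B : Base) : ℝ := SS B t11 [[1, 0, -2, 0, 0, -1], [0, 0, 0, 0, 0, 0, 0, 0, 1]]
theorem e98 (B : Base) : SS B t5 [[-2, -2, 0, 0, 1, 0, 0, 0, 2], [2, 2, 0, 0, 0, 0, 0, 0, -2]] = v50 B :=
  ss_mor ok_t5 [.swap, .L (.R (.swap) [[0, -1, 1], [2, 2, -2]]) [[4, 2, -2, 0, 0, -1], [-2, -1, 2, 0, 0, 1], [2, 1, -2]], .R (.swap) [[0, 1, 0, 0, 2], [1, 0, 0, 0, -1], [1, 1, -2, 0, 1]], .R (.R (.swap) [[0, -1, 1], [2, 2, -2]]) [[-2, -1, 4, 0, 0, 2], [2, 1, -2, 0, 0, -1], [0, 0, 0, 0, 0, 1]], .reb [[2, 1], [0, 0, 1], [0, 0, 0, 0, 0, 1]] [[0, 0, 2, 0, 0, 1], [0, 0, 1], [2, 1, -2]], .L (.reb [[1, 1], [0, 0, 1]] [[2, 1, -1], [1]]) [[2, 1], [0, 0, 1], [0, 0, 0, 0, 0, 1]], .R (.reb [[0, 0, 1], [1, 1,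 -2]] [[1], [0, 1, -1]]) [[0, 0, 2, 0, 0, 1], [0, 0, 1], [2, 1, -2]]] t11 _ _ (by decide +kernel) B
theorem e99 (B : Base) : SS B t5 [[1, 1, 0, 0, 1, 0, 0, 0, -1]] = v18 B :=
  ss_mor ok_t5 [.snd, .R (.swap) [[0, -1, 1], [2, 2, -2]], .reb [[1, 1], [0, 0, 1]] [[2, 1, -1], [1]]] t7 _ _ (by decide +kernel) B
theorem q41 (B : Base) : v49 B + v18 B ≤ v50 B + v16 B := by
  have h := ss_sub ok_t5 [[-2, -2, 0, 0, 1, 0, 0, 0, 2], [2, 2, 0, 0, 0, 0, 0, 0, -2]] [[1, 1, 0, 0, 1, 0, 0, 0, -1], [0, 0, -2, 0, 0, 0, 0, 0, 2]] [[-2, -2, 0, 0, 1, 0, 0, 0, 2], [2, 2, 0, 0, 0, 0, 0, 0, -2], [0, 0, -2, 0, 0, 0, 0, 0, 2]] [[1, 1, 0, 0, 1, 0, 0, 0, -1]] (by decide +kernel) (by decide +kernel) (by decide +kernel) B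
  have he98 := e98 B
  have he28 := e28 B
  have he96 := e96 B
  have he99 := e99 B
  linarith
theorem q42 (B : Base) : v50 B ≤ v4 B + v37 B := by
  have h := ss_add ok_t5 [[0, 0, 0, 0, 1]] [[2, 2, 0, 0, 0, 0, 0, 0, -2]] [[-2, -2, 0, 0, 1, 0, 0, 0, 2], [2, 2, 0, 0, 0, 0, 0, 0, -2]] (by decide +kernel) B
  have he34 := e34 B
  have he73 := e73 B
  have he98 := e98 B
  linarith
noncomputable def v51 (B : Base) : ℝ := SS B t11 [[1, 0, -1, 0, 0, -1], [0, 1, 0, 0, 0, 1], [0, 0, 0, 0, 0, 0, 0, 0, 1]]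
theorem e100 (B : Base) : SS B t5 [[1], [-1, 0, 0, 0, 1], [4, 2, -2, 0, 0, 0, 0, 0, -2]] = v51 B :=
  ss_mor ok_t5 [.swap, .L (.swap) [[0, 1, 0, 0, 2], [1, 0, 0, 0, -1], [1, 1, -2, 0, 1]], .L (.R (.swap) [[0, -1, 1], [2, 2, -2]]) [[-2, -1, 4, 0, 0, 2], [2, 1, -2, 0, 0, -1], [0, 0, 0, 0, 0, 1]], .R (.R (.swap) [[0, -1, 1], [2, 2, -2]]) [[4, 2, -2, 0, 0, -1], [-2, -1, 2, 0, 0, 1], [2, 1, -2]], .reb [[2, 1], [0, 0, 1], [0, 0, 0, 0, 0, 1]] [[0, 0, 2, 0, 0, 1], [0, 0, 1], [2, 1, -2]], .L (.reb [[1, 1], [0, 0, 1]] [[2, 1, -1], [1]]) [[2, 1], [0, 0, 1], [0, 0, 0, 0, 0, 1]], .R (.reb [[0, 0, 1], [1, 1, -2]] [[1], [0, 1, -1]]) [[0, 0, 2, 0, 0, 1], [0, 0, 1], [2, 1, -2]]] t11 _ _ (by decide +kernel) B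
noncomputable def v52 (B : Base) : ℝ := SS B t7 [[1, 0, -1, 0, 0, -1], [0, 1, 0, 0, 0, 1]]
theorem e101 (B : Base) : SS B t5 [[-1, 0, 0, 0, 1], [4, 2, -2, 0, 0, 0, 0, 0, -2]] = v52 B :=
  ss_mor ok_t5 [.snd, .R (.swap) [[0, -1, 1], [2, 2, -2]], .reb [[1, 1], [0, 0, 1]] [[2, 1, -1], [1]]] t7 _ _ (by decide +kernel) B
theorem q43 (B : Base) : v32 B + v52 B ≤ v51 B + v30 B := by
  have h := ss_sub ok_t5 [[1], [-1, 0, 0, 0, 1], [4, 2, -2, 0, 0, 0, 0, 0, -2]] [[1, 0, 0, 0, -1, 0, 0, 0, 2], [-1, 0, 0, 0, 1], [4, 2, -2, 0, 0, 0, 0, 0, -2]] [[1], [-2, 0, 0, 0, 0, 0, 0, 0, 2], [4, 2, -2, 0, 0, 0, 0, 0, -2], [-1, 0, 0, 0, -1, 0, 0, 0, 2]] [[-1, 0, 0, 0, 1], [4, 2, -2, 0, 0, 0, 0, 0, -2]] (by decide +kernel) (by decide +kernel) (by decide +kernel) B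
  have he100 := e100 B
  have he58 := e58 B
  have he61 := e61 B
  have he101 := e101 B
  linarith
theorem e102 (B : Base) : SS B t5 [[1], [-1, 0, 0, 0, 1]] = v44 B :=
  ss_mor ok_t5 [.fst, .R (.swap) [[0, -1, 1], [2, 2, -2]], .reb [[1, 1], [0, 0, 1]] [[2, 1, -1], [1]]] t7 _ _ (by decide +kernel) B
theorem q44 (B : Base) : v51 B + v43 B ≤ v44 B + v52 B := by
  have h := ss_sub ok_t5 [[1], [-1, 0, 0, 0, 1]] [[-1, 0, 0, 0, 1], [4, 2, -2, 0, 0, 0, 0, 0, -2]] [[1], [-1, 0, 0, 0, 1], [4, 2, -2, 0, 0, 0, 0, 0, -2]] [[-1, 0, 0, 0, 1]] (by decide +kernel) (by decide +kernel) (by decide +kernel) B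
  have he102 := e102 B
  have he101 := e101 B
  have he100 := e100 B
  have he87 := e87 B
  linarith

theorem final (B : Base) : 0 ≤ (-1 : ℝ) * v1 B + (1/2 : ℝ) * v3 B + (119/90 : ℝ) * v4 B := by
  have gq1 := q1 B
  have gq2 := q2 B
  have gq3 := q3 B
  have gq4 := q4 B
  have gq5 := q5 B
  have gq6 := q6 B
  have gq7 := q7 B
  have gq8 := q8 B
  have gq9 := q9 B
  have gq10 := q10 B
  have gq11 := q11 B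
  have gq12 := q12 B
  have gq13 := q13 B
  have gq14 := q14 B
  have gq15 := q15 B
  have gq16 := q16 B
  have gq17 := q17 B
  have gq18 := q18 B
  have gq19 := q19 B
  have gq20 := q20 B
  have gq21 := q21 B
  have gq22 := q22 B
  have gq23 := q23 B
  have gq24 := q24 B
  have gq25 := q25 B
  have gq26 := q26 B
  have gq27 := q27 B
  have gq28 := q28 B
  have gq29 := q29 B
  have gq30 := q30 B
  have gq31 := q31 B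
  have gq32 := q32 B
  have gq33 := q33 B
  have gq34 := q34 B
  have gq35 := q35 B
  have gq36 := q36 B
  have gq37 := q37 B
  have gq38 := q38 B
  have gq39 := q39 B
  have gq40 := q40 B
  have gq41 := q41 B
  have gq42 := q42 B
  have gq43 := q43 B
  have gq44 := q44 B
  linear_combination (7/15 : ℝ) * gq1 + (16/75 : ℝ) * gq2 + (14/75 : ℝ) * gq3 + (32/225 : ℝ) * gq4 + (28/225 : ℝ) * gq5 + (16/225 : ℝ) * gq6 + (16/225 : ℝ) * gq7 + (14/225 : ℝ) * gq8 + (4/75 : ℝ) * gq9 + (4/75 : ℝ) * gq10 + (4/75 : ℝ) * gq11 + (7/150 : ℝ) * gq12 + (1/25 : ℝ) * gq13 + (8/225 : ℝ) * gq14 + (8/225 : ℝ) * gq15 + (8/225 : ℝ) * gq16 + (8/225 : ℝ) * gq17 + (8/225 : ℝ) * gq18 + (8/225 : ℝ) * gq19 + (8/225 : ℝ) * gq20 + (8/225 : ℝ) * gq21 + (8/225 : ℝ) * gq22 + (7/225 : ℝ) * gq23 + (7/225 : ℝ) * gq24 + (1/45 : ℝ) *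 gq25 + (1/45 : ℝ) * gq26 + (1/50 : ℝ) * gq27 + (4/225 : ℝ) * gq28 + (4/225 : ℝ) * gq29 + (4/225 : ℝ) * gq30 + (4/225 : ℝ) * gq31 + (7/450 : ℝ) * gq32 + (7/450 : ℝ) * gq33 + (7/450 : ℝ) * gq34 + (7/450 : ℝ) * gq35 + (1/90 : ℝ) * gq36 + (1/90 : ℝ) * gq37 + (1/90 : ℝ) * gq38 + (1/90 : ℝ) * gq39 + (2/225 : ℝ) * gq40 + (2/225 : ℝ) * gq41 + (2/225 : ℝ) * gq42 + (1/225 : ℝ) * gq43 + (1/225 : ℝ) * gq44

end Pool.Agent.K3h57.Cert3
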