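import Pool.Agent.K3h57.Slopes
import Pool.Agent.K3h57.Cert3
import Pool.Agent.K3h57.Cert4

/-!
# Progressions of three and four terms
-/

set_option autoImplicit false

namespace Pool.Agent.K3h57

theorem ap3 : APk 3 (82 / 45) := by
  refine apk_of_cert 2 (by norm_num) _ (by norm_num) fun B T h0 h => ?_
  have h1 := h 2 1 1 (by norm_num) (by norm_num) (by norm_num)
  have := Cert3.final B
  simp only [Cert3.v1, Cert3.v3, Cert3.v4] at this
  linarith

theorem ap4 : APk 4 (29 / 16) := by
  refine apk_of_cert 3 (by norm_num) _ (by norm_num) fun B T h0 h => ?_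
  have h1 := h 3 1 1 (by norm_num) (by norm_num) (by norm_num)
  have := Cert4.final B
  simp only [Cert4.v1, Cert4.v3, Cert4.v4] at this
  linarith

end Pool.Agent.K3h57
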