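import Pool.Agent.K3h57.Refl

/-!
# Generated certificate
-/

set_option autoImplicit false
set_option maxRecDepth 100000
set_option linter.all false

namespace Pool.Agent.K3h57.Cert5
open Pool.Agent.K3h57 Pool.Agent.K3h57.Tm

abbrev t1 : Tm := .glue .line .line [[4, 3]] [[4, 3]]
theorem ok_t1 (B : Base) : Tm.Ok B t1 :=
  ok_rule ((fun _ => ok_line) B) [] .line _ _ (by decide +kernel)
abbrev t2 : Tm := .glue t1 .line [[4, 3]] [[4, 3]]
theorem ok_t2 (B : Base) : Tm.Ok B t2 :=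
  ok_rule (ok_t1 B) [.fst] .line _ _ (by decide +kernel)
noncomputable def v1 (B : Base) : ℝ := SS B .line [[1], [0, 1]]
theorem e1 (B : Base) : SS B t1 [[1], [0, 1]] = v1 B :=
  ss_mor ok_t1 [.fst] .line _ _ (by decide +kernel) B
theorem e2 (B : Base) : SS B .line [[4, 3], [0, 1]] = v1 B :=
  ss_mor (fun _ => ok_line) [] .line _ _ (by decide +kernel) B
abbrev t3 : Tm := .glue .line .line [[4, 1]] [[4, 1]]
noncomputable def v2 (B : Base) : ℝ := SS B t3 [[1], [0, 1], [0, 0, 1]]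
theorem e3 (B : Base) : SS B t2 [[1], [0, 1], [4, 3, 0, 0, -4]] = v2 B :=
  ss_ref ok_t2 [.L (.fst) [[4, 1]]] t3 _ _ (by decide +kernel) B
noncomputable def v3 (B : Base) : ℝ := SS B .line [[4, 1]]
theorem e4 (B : Base) : SS B t1 [[4, 3]] = v3 B :=
  ss_ref ok_t1 [.fst] .line _ _ (by decide +kernel) B
theorem q1 (B : Base) : v1 B + v1 B ≤ v2 B + v3 B := by
  have h := ss_ind (S := t1) (R := .line) ok_t2 [[1], [0, 1]] [[4, 3], [0, 1]] [[1], [0, 1], [4, 3, 0, 0, -4]] (by decide +kernel) (by decide +kernel) (by decide +kernel) (by decide +kernel) B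
  have he1 := e1 B
  have he2 := e2 B
  have he3 := e3 B
  have he4 := e4 B
  linarith
noncomputable def v4 (B : Base) : ℝ := SS B t3 [[3, 1, -2]]
theorem e5 (B : Base) : SS B t2 [[2, 0, 1]] = v4 B :=
  ss_ref ok_t2 [.fst, .swap] t3 _ _ (by decide +kernel) B
noncomputable def v5 (B : Base) : ℝ := SS B .line [[2, 1]]
theorem e6 (B : Base) : SS B t2 [[4, 3, 2]] = v5 B :=
  ss_mor ok_t2 [.fst, .snd] .line _ _ (by decide +kernel) B
theorem e7 (B : Base) : SS B t2 [[1], [0, 1], [4, 3, -4]] = v2 B :=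
  ss_ref ok_t2 [.fst] t3 _ _ (by decide +kernel) B
theorem q2 (B : Base) : v2 B ≤ v4 B + v5 B := by
  have h := ss_add ok_t2 [[2, 0, 1]] [[4, 3, 2]] [[1], [0, 1], [4, 3, -4]] (by decide +kernel) B
  have he5 := e5 B
  have he6 := e6 B
  have he7 := e7 B
  linarith
noncomputable def v6 (B : Base) : ℝ := SS B .line [[1]]
theorem e8 (B : Base) : SS B t2 [[1]] = v6 B :=
  ss_mor ok_t2 [.fst, .fst] .line _ _ (by decide +kernel) B
theorem e9 (B : Base) : SS B t2 [[0, 0, 0, 0, 1]] = v6 B :=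
  ss_mor ok_t2 [.snd] .line _ _ (by decide +kernel) B
noncomputable def v7 (B : Base) : ℝ := SS B t3 [[1, 0, -1], [0, 1, 1]]
theorem e10 (B : Base) : SS B t2 [[1], [-4, 0, 0, 0, 4]] = v7 B :=
  ss_ref ok_t2 [.L (.fst) [[4, 1]]] t3 _ _ (by decide +kernel) B
theorem q3 (B : Base) : v7 B ≤ v6 B + v6 B := by
  have h := ss_add ok_t2 [[1]] [[0, 0, 0, 0, 1]] [[1], [-4, 0, 0, 0, 4]] (by decide +kernel) B
  have he8 := e8 B
  have he9 := e9 B
  have he10 := e10 B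
  linarith
noncomputable def v8 (B : Base) : ℝ := SS B t3 [[1], [0, 1, -2]]
theorem e11 (B : Base) : SS B t2 [[-1, -3, 4], [4, 6, -4]] = v8 B :=
  ss_ref ok_t2 [.fst] t3 _ _ (by decide +kernel) B
theorem e12 (B : Base) : SS B t2 [[1], [-4, 0, 4]] = v7 B :=
  ss_ref ok_t2 [.fst] t3 _ _ (by decide +kernel) B
theorem e13 (B : Base) : SS B t2 [[1, 0, 2]] = v4 B :=
  ss_ref ok_t2 [.fst] t3 _ _ (by decide +kernel) B
theorem q4 (B : Base) : v2 B + v4 B ≤ v8 B + v7 B := by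
  have h := ss_sub ok_t2 [[-1, -3, 4], [4, 6, -4]] [[1], [-4, 0, 4]] [[1], [0, 1], [4, 3, -4]] [[1, 0, 2]] (by decide +kernel) (by decide +kernel) (by decide +kernel) B
  have he11 := e11 B
  have he12 := e12 B
  have he7 := e7 B
  have he13 := e13 B
  linarith
theorem e14 (B : Base) : SS B t2 [[1, 1]] = v6 B :=
  ss_ref ok_t2 [.fst, .fst] .line _ _ (by decide +kernel) B
theorem q5 (B : Base) : v8 B ≤ v6 B + v5 B := by
  have h := ss_add ok_t2 [[1, 1]] [[4, 3, 2]] [[-1, -3, 4], [4, 6, -4]] (by decide +kernel) B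
  have he14 := e14 B
  have he6 := e6 B
  have he11 := e11 B
  linarith

theorem final (B : Base) : 0 ≤ (-1 : ℝ) * v1 B + (1/2 : ℝ) * v3 B + (1/2 : ℝ) * v5 B + (3/4 : ℝ) * v6 B := by
  have gq1 := q1 B
  have gq2 := q2 B
  have gq3 := q3 B
  have gq4 := q4 B
  have gq5 := q5 B
  linear_combination (1/2 : ℝ) * gq1 + (1/4 : ℝ) * gq2 + (1/4 : ℝ) * gq3 + (1/4 : ℝ) * gq4 + (1/4 : ℝ) * gq5

end Pool.Agent.K3h57.Cert5
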