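import Pool.Agent.K3h57.Slopes
import Pool.Agent.K3h57.Cert5

/-!
# Progressions of five terms
-/

set_option autoImplicit false

namespace Pool.Agent.K3h57

theorem ap5 : APk 5 (7 / 4) := by
  refine apk_of_cert 4 (by norm_num) _ (by norm_num) fun B T h0 h => ?_
  have h1 := h 4 1 1 (by norm_num) (by norm_num) (by norm_num)
  have h2 := h 2 1 2 (by norm_num) (by norm_num) (by norm_num)
  have := Cert5.final B
  simp only [Cert5.v1, Cert5.v3, Cert5.v5, Cert5.v6] at this
  linarith

end Pool.Agent.K3h57
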