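import Pool.Agent.K3h57.Refl

/-!
# From entropies to cardinalities, three projections
-/

set_option autoImplicit false
set_option linter.unusedSectionVars false

open Finset
open scoped Classical

namespace Pool.Agent.K3h57
open Pool.Agent.W904.AK Tm

lemma H_comp_le_of_image {Ω : Type*} [Fintype Ω] {p : Ω → ℝ} (hp : IsLaw p) {f : Ω → ℚ}
    (S : Finset ℚ) (hS : ∀ x, f x ∈ S) (A : List Fm) (g : Ω → List ℚ)
    (h : ∀ x y, f x = f y → evs A (g x) = evs A (g y)) :
    H p (fun x => evs A (g x)) ≤ Real.log S.card := by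
  have h1 : H p (fun x => evs A (g x)) ≤ H p f :=
    H_mono hp (fun x y _ _ e => h x y e)
  exact h1.trans (H_le_log_card hp f S fun x _ => hS x)

/-- The base attached to a set of representatives of the differences. -/
theorem card_bound (α γ : ℝ) (hα : 0 ≤ α) (hγ : 0 ≤ γ)
    (h : ∀ B : Base, SS B .line [[1], [0, 1]] ≤ α * SS B .line [[1]] + γ * SS B .line [[2, 1]])
    (A : Finset (ℤ × ℤ)) (hA : A.Nonempty) :
    ((A.image (fun z => z.1 - z.2)).card : ℝ) ≤
      (((A.image (fun z => z.1)).card : ℝ) * ((A.image (fun z => z.2)).card : ℝ)) ^ (α / 2) *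
        ((A.image (fun z => z.1 + z.2)).card : ℝ) ^ γ := by
  set E : Finset ℤ := A.image (fun z => z.1 - z.2) with hE
  have hEne : E.Nonempty := hA.image _
  have hrep : ∀ b : E, ∃ a ∈ A, a.1 - a.2 = b.1 := fun b => Finset.mem_image.1 b.2
  choose rep hrepA hrepE using hrep
  have : Nonempty E := hEne.to_subtype
  have hlaw := unif_law E
  let B : Base :=
    { Ω := E
      X := fun b => ((rep b).2 : ℚ)
      D := fun b => ((b.1 : ℤ) : ℚ)
      p := unif E
      hp := hlaw
      hD := fun x y e => by
        have : x = y := Subtype.ext (by exact_mod_cast e)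
        rw [this] }
  have hx : ∀ b : E, ((rep b).1 : ℚ) = ((rep b).2 : ℚ) + ((b.1 : ℤ) : ℚ) := by
    intro b
    have := hrepE b
    have h2 : (rep b).1 = (rep b).2 + b.1 := by omega
    rw [h2]; push_cast; ring
  -- the entropy of the direction
  have e1 : HH B .line [[1], [0, 1]] = Real.log E.card := by
    have : H (unif E) (fun x : E => evs [[1], [0, 1]] [((rep x).2 : ℚ), ((x.1 : ℤ) : ℚ)]) =
        Real.log (Fintype.card E) := by
      refine H_unif E fun x y e => ?_
      simp only [evs, List.map_cons, List.map_nil, dot_cons, dot_nil, List.cons.injEq] at e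
      have h3 : ((x.1 : ℤ) : ℚ) = ((y.1 : ℤ) : ℚ) := by
        have := e.2.1
        push_cast at this
        linarith
      exact Subtype.ext (by exact_mod_cast h3)
    rw [Fintype.card_coe] at this
    exact this
  have e2 : HH B.refl .line [[1], [0, 1]] = Real.log E.card := by
    have : H (unif E) (fun x : E => evs [[1], [0, 1]]
        [((rep x).2 : ℚ) + ((x.1 : ℤ) : ℚ), -((x.1 : ℤ) : ℚ)]) =
        Real.log (Fintype.card E) := by
      refine H_unif E fun x y e => ?_
      simp only [evs, List.map_cons, List.map_nil, dot_cons, dot_nil, List.cons.injEq] at e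
      have h3 : ((x.1 : ℤ) : ℚ) = ((y.1 : ℤ) : ℚ) := by
        have := e.2.1
        push_cast at this
        linarith
      exact Subtype.ext (by exact_mod_cast h3)
    rw [Fintype.card_coe] at this
    exact this
  have cinj : Function.Injective (fun z : ℤ => (z : ℚ)) := Int.cast_injective
  have f1 : HH B .line [[1]] ≤ Real.log (A.image (fun z => z.2)).card := by
    have := H_comp_le_of_image (p := unif E) hlaw (f := fun x : E => ((rep x).2 : ℚ))
      ((A.image (fun z => z.2)).image (fun z : ℤ => (z : ℚ)))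
      (fun x => Finset.mem_image_of_mem _ (Finset.mem_image_of_mem _ (hrepA x))) [[1]]
      (fun x : E => [((rep x).2 : ℚ), ((x.1 : ℤ) : ℚ)]) (fun x y e => by
        simp only [evs, List.map_cons, List.map_nil, dot_cons, dot_nil, e])
    rw [Finset.card_image_of_injective _ cinj] at this
    exact this
  have f2 : HH B.refl .line [[1]] ≤ Real.log (A.image (fun z => z.1)).card := by
    have := H_comp_le_of_image (p := unif E) hlaw (f := fun x : E => ((rep x).1 : ℚ))
      ((A.image (fun z => z.1)).image (fun z : ℤ => (z : ℚ)))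
      (fun x => Finset.mem_image_of_mem _ (Finset.mem_image_of_mem _ (hrepA x))) [[1]]
      (fun x : E => [((rep x).2 : ℚ) + ((x.1 : ℤ) : ℚ), -((x.1 : ℤ) : ℚ)]) (fun x y e => by
        simp only [evs, List.map_cons, List.map_nil, dot_cons, dot_nil, ← hx, e])
    rw [Finset.card_image_of_injective _ cinj] at this
    exact this
  have f3 : HH B .line [[2, 1]] ≤ Real.log (A.image (fun z => z.1 + z.2)).card := by
    have := H_comp_le_of_image (p := unif E) hlaw
      (f := fun x : E => (((rep x).1 + (rep x).2 : ℤ) : ℚ))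
      ((A.image (fun z => z.1 + z.2)).image (fun z : ℤ => (z : ℚ)))
      (fun x => Finset.mem_image_of_mem _
        (Finset.mem_image_of_mem (fun z : ℤ × ℤ => z.1 + z.2) (hrepA x))) [[2, 1]]
      (fun x : E => [((rep x).2 : ℚ), ((x.1 : ℤ) : ℚ)]) (fun x y e => by
        have h1 := hx x
        have h2 := hx y
        simp only [evs, List.map_cons, List.map_nil, dot_cons, dot_nil]
        push_cast at e ⊢
        congr 1
        linarith)
    rw [Finset.card_image_of_injective _ cinj] at this
    exact this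
  have f4 : HH B.refl .line [[2, 1]] ≤ Real.log (A.image (fun z => z.1 + z.2)).card := by
    have := H_comp_le_of_image (p := unif E) hlaw
      (f := fun x : E => (((rep x).1 + (rep x).2 : ℤ) : ℚ))
      ((A.image (fun z => z.1 + z.2)).image (fun z : ℤ => (z : ℚ)))
      (fun x => Finset.mem_image_of_mem _
        (Finset.mem_image_of_mem (fun z : ℤ × ℤ => z.1 + z.2) (hrepA x))) [[2, 1]]
      (fun x : E => [((rep x).2 : ℚ) + ((x.1 : ℤ) : ℚ), -((x.1 : ℤ) : ℚ)]) (fun x y e => by
        have h1 := hx x
        have h2 := hx y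
        simp only [evs, List.map_cons, List.map_nil, dot_cons, dot_nil]
        push_cast at e ⊢
        congr 1
        linarith)
    rw [Finset.card_image_of_injective _ cinj] at this
    exact this
  have hB := h B
  unfold SS at hB
  rw [e1, e2] at hB
  have p0 : (0 : ℝ) < E.card := by exact_mod_cast Finset.card_pos.2 hEne
  have p1 : (0 : ℝ) < (A.image (fun z => z.1)).card := by
    exact_mod_cast Finset.card_pos.2 (hA.image _)
  have p2 : (0 : ℝ) < (A.image (fun z => z.2)).card := by
    exact_mod_cast Finset.card_pos.2 (hA.image _)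
  have p3 : (0 : ℝ) < (A.image (fun z => z.1 + z.2)).card := by
    exact_mod_cast Finset.card_pos.2 (hA.image _)
  have hfin : Real.log E.card ≤ α / 2 * (Real.log (A.image (fun z => z.1)).card +
      Real.log (A.image (fun z => z.2)).card) +
        γ * Real.log (A.image (fun z => z.1 + z.2)).card := by
    have g1 := mul_le_mul_of_nonneg_left f1 hα
    have g2 := mul_le_mul_of_nonneg_left f2 hα
    have g3 := mul_le_mul_of_nonneg_left f3 hγ
    have g4 := mul_le_mul_of_nonneg_left f4 hγ
    linarith
  rw [← Real.log_mul p1.ne' p2.ne', ← Real.log_rpow (mul_pos p1 p2), ← Real.log_rpow p3,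
    ← Real.log_mul (Real.rpow_pos_of_pos (mul_pos p1 p2) _).ne'
      (Real.rpow_pos_of_pos p3 _).ne'] at hfin
  exact (Real.log_le_log_iff p0 (mul_pos (Real.rpow_pos_of_pos (mul_pos p1 p2) _)
    (Real.rpow_pos_of_pos p3 _))).1 hfin

/-- The max form. -/
theorem card_max {α γ : ℝ} (hα : 0 ≤ α) (hγ : 0 ≤ γ) {e n1 n2 n3 M : ℝ} (h1 : 0 ≤ n1)
    (h2 : 0 ≤ n2) (h3 : 0 ≤ n3) (hM : 0 < M) (k1 : n1 ≤ M) (k2 : n2 ≤ M) (k3 : n3 ≤ M)
    (h : e ≤ (n1 * n2) ^ (α / 2) * n3 ^ γ) : e ≤ M ^ (α + γ) := by
  have a1 : (n1 * n2) ^ (α / 2) ≤ (M * M) ^ (α / 2) :=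
    Real.rpow_le_rpow (mul_nonneg h1 h2) (mul_le_mul k1 k2 h2 hM.le) (by linarith)
  have a2 : n3 ^ γ ≤ M ^ γ := Real.rpow_le_rpow h3 k3 hγ
  have a3 : (M * M) ^ (α / 2) = M ^ α := by
    rw [Real.mul_rpow hM.le hM.le, ← Real.rpow_add hM]
    ring_nf
  refine h.trans ?_
  rw [Real.rpow_add hM, ← a3]
  exact mul_le_mul a1 a2 (Real.rpow_nonneg h3 _) (Real.rpow_nonneg (mul_self_nonneg M) _)

end Pool.Agent.K3h57
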