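import Mathlib

/-!
# Integer linear forms, their values, and a span test by elimination
-/

set_option autoImplicit false

namespace Pool.Agent.K3h57

/-- A linear form: the list of its integer coefficients. -/
abbrev Fm := List ℤ

/-- The value of a form at a list of coordinates. -/
def dot : Fm → List ℚ → ℚ
  | a :: v, x :: c => (a : ℚ) * x + dot v c
  | [], _ => 0
  | _ :: _, [] => 0

/-- The values of a list of forms. -/
def evs (F : List Fm) (c : List ℚ) : List ℚ := F.map (fun v => dot v c)

/-- Sum of forms. -/
def vadd : Fm → Fm → Fm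
  | a :: v, b :: w => (a + b) :: vadd v w
  | [], w => w
  | a :: v, [] => a :: v

/-- Multiple of a form. -/
def vsmul (k : ℤ) (v : Fm) : Fm := v.map (fun a => k * a)

/-- The form in the variables from position `n` on. -/
def shift (n : ℕ) (v : Fm) : Fm := List.replicate n 0 ++ v

/-- The coordinate form with index `i`. -/
def unit (i : ℕ) : Fm := shift i [1]

@[simp] lemma dot_nil (c : List ℚ) : dot [] c = 0 := by cases c <;> rfl

@[simp] lemma dot_nil' (v : Fm) : dot v [] = 0 := by cases v <;> rfl

@[simp] lemma dot_cons (a : ℤ) (v : Fm) (x : ℚ) (c : List ℚ) :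
    dot (a :: v) (x :: c) = a * x + dot v c := rfl

lemma dot_vadd (v w : Fm) (c : List ℚ) : dot (vadd v w) c = dot v c + dot w c := by
  induction v generalizing w c with
  | nil => simp [vadd]
  | cons a v ih =>
    cases w with
    | nil => simp [vadd]
    | cons b w =>
      cases c with
      | nil => simp
      | cons x c => simp only [vadd, dot_cons, ih]; push_cast; ring

lemma dot_vsmul (k : ℤ) (v : Fm) (c : List ℚ) : dot (vsmul k v) c = k * dot v c := by
  induction v generalizing c with
  | nil => simp [vsmul]
  | cons a v ih =>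
    cases c with
    | nil => simp
    | cons x c =>
      have := ih c
      simp only [vsmul] at this
      simp only [vsmul, List.map_cons, dot_cons, this]; push_cast; ring

lemma dot_zero (v : Fm) (h : v.all (fun a => a == 0) = true) (c : List ℚ) : dot v c = 0 := by
  induction v generalizing c with
  | nil => simp
  | cons a v ih =>
    simp only [List.all_cons, Bool.and_eq_true, beq_iff_eq] at h
    cases c with
    | nil => simp
    | cons x c => rw [dot_cons, ih h.2 c, h.1]; simp

lemma dot_shift (n : ℕ) (v : Fm) (c d : List ℚ) (h : c.length = n) :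
    dot (shift n v) (c ++ d) = dot v d := by
  induction c generalizing n with
  | nil => simp only [List.length_nil] at h; subst h; simp [shift]
  | cons x c ih =>
    simp only [List.length_cons] at h; subst h
    have := ih c.length rfl
    simp only [shift] at this
    simp only [shift, List.replicate_succ, List.cons_append, dot_cons, this]
    simp

lemma dot_append (v : Fm) (c d : List ℚ) (h : v.length ≤ c.length) :
    dot v (c ++ d) = dot v c := by
  induction v generalizing c with
  | nil => simp
  | cons a v ih =>
    cases c with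
    | nil => simp at h
    | cons x c =>
      simp only [List.length_cons] at h
      simp only [List.cons_append, dot_cons, ih c (by omega)]

lemma dot_unit (i : ℕ) (c : List ℚ) : dot (unit i) c = c.getD i 0 := by
  induction i generalizing c with
  | zero => cases c <;> simp [unit, shift, dot]
  | succ i ih =>
    cases c with
    | nil => simp
    | cons x c =>
      have := ih c
      simp only [unit, shift] at this
      simp only [unit, shift, List.replicate_succ, List.cons_append, dot_cons, this]
      simp

/-- A linear functional on forms. -/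
structure IsLin (L : Fm → ℚ) : Prop where
  add : ∀ v w, L (vadd v w) = L v + L w
  smul : ∀ (k : ℤ) v, L (vsmul k v) = k * L v
  zero : ∀ v : Fm, v.all (fun a => a == 0) = true → L v = 0

lemma isLin_dot (c : List ℚ) : IsLin (fun v => dot v c) :=
  ⟨fun v w => dot_vadd v w c, fun k v => dot_vsmul k v c, fun v h => dot_zero v h c⟩

lemma isLin_sub (c d : List ℚ) : IsLin (fun v => dot v c - dot v d) := by
  refine ⟨fun v w => ?_, fun k v => ?_, fun v h => ?_⟩
  · simp only [dot_vadd]; ring
  · simp only [dot_vsmul]; ring
  · simp only [dot_zero v h]; ring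

/-- The first index with a nonzero coefficient. -/
def pv : Fm → Option ℕ
  | [] => none
  | a :: v => if a == 0 then (pv v).map (fun n => n + 1) else some 0

lemma pv_ne (v : Fm) (p : ℕ) (h : pv v = some p) : v.getD p 0 ≠ 0 := by
  induction v generalizing p with
  | nil => simp [pv] at h
  | cons a v ih =>
    simp only [pv] at h
    split_ifs at h with ha
    · rw [Option.map_eq_some_iff] at h
      obtain ⟨q, hq, rfl⟩ := h
      simpa using ih q hq
    · simp only [Option.some.injEq] at h
      subst h
      simpa using ha

/-- One elimination step. -/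
def red (v : Fm) (pb : ℕ × Fm) : Fm :=
  if v.getD pb.1 0 == 0 then v
  else vadd (vsmul (pb.2.getD pb.1 0) v) (vsmul (-(v.getD pb.1 0)) pb.2)

/-- Reduction by a list of vectors with pivots. -/
def redAll (B : List (ℕ × Fm)) (v : Fm) : Fm := B.foldl red v

/-- Adding a vector to the list. -/
def addB (B : List (ℕ × Fm)) (v : Fm) : List (ℕ × Fm) :=
  match pv (redAll B v) with
  | none => B
  | some p => B ++ [(p, redAll B v)]

/-- Adding vectors to the list. -/
def addAll (B : List (ℕ × Fm)) (vs : List Fm) : List (ℕ × Fm) := vs.foldl addB B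

/-- The span test. -/
def inSp (B : List (ℕ × Fm)) (v : Fm) : Bool := (redAll B v).all (fun a => a == 0)

/-- The functional vanishes on the list, and the pivots are nonzero. -/
def GB (L : Fm → ℚ) (B : List (ℕ × Fm)) : Prop :=
  ∀ pb ∈ B, L pb.2 = 0 ∧ pb.2.getD pb.1 0 ≠ 0

variable {L : Fm → ℚ}

lemma red_iff (hL : IsLin L) {pb : ℕ × Fm} (h1 : L pb.2 = 0) (h2 : pb.2.getD pb.1 0 ≠ 0)
    (v : Fm) : L (red v pb) = 0 ↔ L v = 0 := by
  unfold red
  split_ifs with h
  · exact Iff.rfl
  · rw [hL.add, hL.smul, hL.smul, h1, mul_zero, add_zero, mul_eq_zero]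
    constructor
    · rintro (h3 | h3)
      · exact absurd (by exact_mod_cast h3) h2
      · exact h3
    · exact fun h3 => Or.inr h3

lemma redAll_iff (hL : IsLin L) {B : List (ℕ × Fm)} (hB : GB L B) (v : Fm) :
    L (redAll B v) = 0 ↔ L v = 0 := by
  induction B generalizing v with
  | nil => exact Iff.rfl
  | cons pb B ih =>
    have h1 := hB pb (List.mem_cons_self ..)
    have h2 := ih (fun q hq => hB q (List.mem_cons_of_mem _ hq)) (red v pb)
    exact h2.trans (red_iff hL h1.1 h1.2 v)

lemma addB_good (hL : IsLin L) {B : List (ℕ × Fm)} (hB : GB L B) {v : Fm} (hv : L v = 0) :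
    GB L (addB B v) := by
  unfold addB
  split
  · exact hB
  · rename_i p hp
    intro q hq
    rw [List.mem_append, List.mem_singleton] at hq
    rcases hq with hq | hq
    · exact hB q hq
    · subst hq
      exact ⟨(redAll_iff hL hB v).2 hv, pv_ne _ _ hp⟩

lemma addAll_good (hL : IsLin L) {B : List (ℕ × Fm)} (hB : GB L B) {vs : List Fm}
    (hv : ∀ v ∈ vs, L v = 0) : GB L (addAll B vs) := by
  induction vs generalizing B with
  | nil => exact hB
  | cons v vs ih =>
    exact ih (addB_good hL hB (hv v (List.mem_cons_self ..)))
      (fun w hw => hv w (List.mem_cons_of_mem _ hw))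

lemma inSp_sound (hL : IsLin L) {B : List (ℕ × Fm)} (hB : GB L B) {v : Fm}
    (h : inSp B v = true) : L v = 0 :=
  (redAll_iff hL hB v).1 (hL.zero _ h)

/-- If the direction of line `i` is determined then so is its base point. -/
def clo1 (B : List (ℕ × Fm)) (i : ℕ) : List (ℕ × Fm) :=
  if inSp B (unit (2 * i + 1)) then addB B (unit (2 * i)) else B

/-- Closure step for all lines. -/
def clo (n : ℕ) (B : List (ℕ × Fm)) : List (ℕ × Fm) := (List.range n).foldl clo1 B

lemma clo1_good (hL : IsLin L) {B : List (ℕ × Fm)} (hB : GB L B) {i : ℕ}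
    (h : L (unit (2 * i + 1)) = 0 → L (unit (2 * i)) = 0) : GB L (clo1 B i) := by
  unfold clo1
  split_ifs with h1
  · exact addB_good hL hB (h (inSp_sound hL hB h1))
  · exact hB

lemma clo_good (hL : IsLin L) {n : ℕ} {B : List (ℕ × Fm)} (hB : GB L B)
    (h : ∀ i < n, L (unit (2 * i + 1)) = 0 → L (unit (2 * i)) = 0) : GB L (clo n B) := by
  unfold clo
  have key : ∀ l : List ℕ, (∀ i ∈ l, i < n) → ∀ B : List (ℕ × Fm), GB L B →
      GB L (l.foldl clo1 B) := by
    intro l
    induction l with
    | nil => intro _ B hB; exact hB
    | cons i l ih =>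
      intro hl B hB
      exact ih (fun j hj => hl j (List.mem_cons_of_mem _ hj)) _
        (clo1_good hL hB (h i (hl i (List.mem_cons_self ..))))
  exact key _ (fun i hi => List.mem_range.1 hi) B hB

/-- Test: the forms `vs` are determined by the forms `A`, given the relations `rel` and the
closure rule for `n` lines. -/
def detB (n : ℕ) (rel A vs : List Fm) : Bool :=
  let B0 := addAll [] (rel ++ A)
  if vs.all (inSp B0) then true else
  let B1 := clo n B0
  if vs.all (inSp B1) then true else
  let B2 := clo n B1
  if vs.all (inSp B2) then true else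
  let B3 := clo n B2
  vs.all (inSp B3)

lemma detB_sound (hL : IsLin L) {n : ℕ} {rel A vs : List Fm} (h : detB n rel A vs = true)
    (hrel : ∀ v ∈ rel, L v = 0) (hA : ∀ v ∈ A, L v = 0)
    (hc : ∀ i < n, L (unit (2 * i + 1)) = 0 → L (unit (2 * i)) = 0) :
    ∀ v ∈ vs, L v = 0 := by
  have hB0 : GB L (addAll [] (rel ++ A)) := by
    refine addAll_good hL (fun q hq => absurd hq (by simp)) fun v hv => ?_
    rcases List.mem_append.1 hv with h | h
    exacts [hrel v h, hA v h]
  have hB1 := clo_good hL hB0 hc
  have hB2 := clo_good hL hB1 hc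
  have hB3 := clo_good hL hB2 hc
  have fin : ∀ B : List (ℕ × Fm), GB L B → vs.all (inSp B) = true → ∀ v ∈ vs, L v = 0 :=
    fun B hB hb v hv => inSp_sound hL hB (List.all_eq_true.1 hb v hv)
  unfold detB at h
  dsimp only at h
  split_ifs at h with h0 h1 h2
  · exact fin _ hB0 h0
  · exact fin _ hB1 h1
  · exact fin _ hB2 h2
  · exact fin _ hB3 h

/-- Test: the forms `vs` vanish, given the relations `rel`. -/
def zeroB (rel vs : List Fm) : Bool :=
  let B0 := addAll [] rel
  vs.all (inSp B0)

lemma zeroB_sound (hL : IsLin L) {rel vs : List Fm} (h : zeroB rel vs = true)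
    (hrel : ∀ v ∈ rel, L v = 0) : ∀ v ∈ vs, L v = 0 := by
  have hB0 : GB L (addAll [] rel) := addAll_good hL (fun q hq => absurd hq (by simp)) hrel
  exact fun v hv => inSp_sound hL hB0 (List.all_eq_true.1 h v hv)

/-- Differences of forms. -/
def vsub (v w : Fm) : Fm := vadd v (vsmul (-1) w)

lemma dot_vsub (v w : Fm) (c : List ℚ) : dot (vsub v w) c = dot v c - dot w c := by
  rw [vsub, dot_vadd, dot_vsmul]; push_cast; ring

/-- Differences of lists of forms. -/
def subs (F G : List Fm) : List Fm := List.zipWith vsub F G

end Pool.Agent.K3h57
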