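import Pool.Agent.W904.AK.Glue

/-!
# Image laws of conditionally independent gluings
-/

set_option autoImplicit false
set_option linter.unusedSectionVars false

open Finset
open scoped Classical

namespace Pool.Agent.K3h57
open Pool.Agent.W904.AK

section

variable {A A' : Type*} [Fintype A] [Fintype A']

/-- The image law under a bijection which preserves weights. -/
lemma im_of_bij {e : A → A'} (he : Function.Bijective e) {p : A → ℝ} {p' : A' → ℝ}
    (h : ∀ a, p' (e a) = p a) : im p e = p' := by
  funext b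
  obtain ⟨a, rfl⟩ := he.2 b
  rw [im_eq_sum, h, Finset.sum_eq_single a]
  · simp
  · intro c _ hc
    exact if_neg fun h' => hc (he.1 h')
  · intro h'
    exact absurd (Finset.mem_univ _) h'

lemma im_congr_supp {γ : Type*} {p : A → ℝ} {f f' : A → γ} (h : ∀ x, p x ≠ 0 → f x = f' x)
    (c : γ) : im p f c = im p f' c := by
  rw [im_eq_sum, im_eq_sum]
  refine Finset.sum_congr rfl fun x _ => ?_
  by_cases hx : p x = 0
  · simp [hx]
  · rw [h x hx]

/-- Image laws of functions which determine each other. -/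
lemma im_eq_of_det {β γ : Type*} {p : A → ℝ} (hp : IsLaw p) {f : A → β} {g : A → γ}
    (h1 : Det p f g) (h2 : Det p g f) {x : A} (hx : p x ≠ 0) :
    im p f (f x) = im p g (g x) :=
  le_antisymm (im_le_im_of_det hp h1 hx) (im_le_im_of_det hp h2 hx)

end

section

variable {A A' B B' : Type*} [Fintype A] [Fintype A'] [Fintype B] [Fintype B'] {γ δ : Type*}
  {p : A → ℝ} {p' : A' → ℝ} {q : B → ℝ} {q' : B' → ℝ} {f : A → γ} {f' : A' → γ} {g : B → γ}
  {g' : B' → γ} {φ : A → A'} {ψ : B → B'}

/-- The image of a gluing. -/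
theorem glue_lift (hφ : im p φ = p') (hψ : im q ψ = q') (hf : ∀ x, p x ≠ 0 → f x = f' (φ x))
    (hg : ∀ y, q y ≠ 0 → g y = g' (ψ y)) :
    im (glue p q f g) (Prod.map φ ψ) = glue p' q' f' g' := by
  have hr : ∀ c, im p f c = im p' f' c := by
    intro c
    rw [← hφ, im_comp]
    exact im_congr_supp hf c
  funext c
  obtain ⟨a, b⟩ := c
  rw [im_eq_sum, Fintype.sum_prod_type]
  have e1 : glue p' q' f' g' (a, b) = (∑ x, if φ x = a then p x else 0) *
      (∑ y, if ψ y = b then q y else 0) * (if f' a = g' b then (im p' f' (f' a))⁻¹ else 0) := by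
    rw [← im_eq_sum p φ a, ← im_eq_sum q ψ b, hφ, hψ]
    unfold glue
    dsimp only
    split_ifs
    · rw [div_eq_mul_inv]
    · simp
  rw [e1, Finset.sum_mul_sum, Finset.sum_mul]
  refine Finset.sum_congr rfl fun x _ => ?_
  rw [Finset.sum_mul]
  refine Finset.sum_congr rfl fun y _ => ?_
  by_cases hx : φ x = a
  · by_cases hy : ψ y = b
    · subst hx; subst hy
      rw [if_pos rfl, if_pos rfl, if_pos (by rfl)]
      unfold glue
      dsimp only
      by_cases h1 : p x = 0
      · simp [h1]
      by_cases h2 : q y = 0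
      · simp [h2]
      rw [hf x h1, hg y h2, hr]
      split_ifs
      · rw [div_eq_mul_inv]
      · simp
    · rw [if_neg hy, if_neg (fun h => hy (congrArg Prod.snd h))]
      simp
  · rw [if_neg hx, if_neg (fun h => hx (congrArg Prod.fst h))]
    simp

/-- Swapping the two parts. -/
theorem glue_swap (hfg : ∀ c, im p f c = im q g c) :
    im (glue p q f g) Prod.swap = glue q p g f := by
  refine im_of_bij Prod.swap_bijective fun z => ?_
  unfold glue
  dsimp only [Prod.fst_swap, Prod.snd_swap]
  by_cases h : f z.1 = g z.2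
  · rw [if_pos h, if_pos h.symm, ← h, hfg, mul_comm]
  · rw [if_neg h, if_neg (fun h' => h h'.symm)]

/-- A different pair of functions with the same fibre product. -/
theorem glue_reb (hp : IsLaw p) {f2 : A → δ} {g2 : B → δ}
    (h1 : ∀ x y, p x ≠ 0 → q y ≠ 0 → f x = g y → f2 x = g2 y)
    (h2 : ∀ x y, p x ≠ 0 → q y ≠ 0 → f2 x = g2 y → f x = g y) (h3 : Det p f f2)
    (h4 : Det p f2 f) : glue p q f g = glue p q f2 g2 := by
  funext z
  unfold glue
  by_cases hx : p z.1 = 0
  · simp [hx]
  by_cases hy : q z.2 = 0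
  · simp [hy]
  by_cases h : f z.1 = g z.2
  · rw [if_pos h, if_pos (h1 _ _ hx hy h), im_eq_of_det hp h3 h4 hx]
  · rw [if_neg h, if_neg (fun h' => h (h2 _ _ hx hy h'))]

/-- The functions of a gluing have the same law. -/
theorem compat_reb (hp : IsLaw p) (hq : IsLaw q) (hfg : ∀ c, im p f c = im q g c) {f2 : A → δ}
    {g2 : B → δ} (h1 : ∀ x y, p x ≠ 0 → q y ≠ 0 → f x = g y → f2 x = g2 y) (c : δ) :
    im p f2 c = im q g2 c := by
  rw [← im_glue_fst hp hfg f2 c, ← im_glue_snd hq hfg g2 c]
  refine im_congr_supp (fun z hz => ?_) c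
  obtain ⟨a, b, d⟩ := glue_supp hz
  exact h1 _ _ b d a

end

section

variable {A B C : Type*} [Fintype A] [Fintype B] [Fintype C] {γ δ : Type*}
  {p : A → ℝ} {q : B → ℝ} {r : C → ℝ} {f : A → γ} {g : B → γ} {h : A × B → δ} {h2 : B → δ}
  {k : C → δ}

/-- Associativity of gluings, the second gluing being over a function of the middle part. -/
theorem glue_rot (hq : IsLaw q) (hfg : ∀ c, im p f c = im q g c)
    (hh : ∀ z, glue p q f g z ≠ 0 → h z = h2 z.2) :
    im (glue (glue p q f g) r h k) (fun z => (z.1.1, (z.1.2, z.2))) =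
      glue p (glue q r h2 k) f (fun z => g z.1) := by
  have hr : ∀ c, im (glue p q f g) h c = im q h2 c := by
    intro c
    rw [im_congr_supp hh c]
    exact im_glue_snd hq hfg h2 c
  refine im_of_bij ⟨?_, ?_⟩ fun z => ?_
  · rintro ⟨⟨a, b⟩, c⟩ ⟨⟨a', b'⟩, c'⟩ e
    simp only [Prod.mk.injEq] at e
    obtain ⟨e1, e2, e3⟩ := e
    rw [e1, e2, e3]
  · rintro ⟨a, b, c⟩
    exact ⟨((a, b), c), rfl⟩
  · obtain ⟨⟨a, b⟩, c⟩ := z
    by_cases h0 : glue p q f g (a, b) = 0
    · have e1 : glue (glue p q f g) r h k ((a, b), c) = 0 := by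
        unfold glue at h0 ⊢
        dsimp only at h0 ⊢
        rw [h0]
        simp
      rw [e1]
      unfold glue at h0 ⊢
      dsimp only at h0 ⊢
      by_cases h5 : f a = g b
      · rw [if_pos h5] at h0 ⊢
        rw [div_eq_zero_iff, mul_eq_zero] at h0
        rcases h0 with (h0 | h0) | h0
        · rw [h0]; simp
        · rw [h0]; simp
        · rw [h0]; simp
      · rw [if_neg h5]
    · have e2 := hh (a, b) h0
      have e3 := (glue_supp h0).1
      dsimp only at e2 e3
      unfold glue
      dsimp only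
      rw [if_pos e3, if_pos e3, e2]
      by_cases h6 : h2 b = k c
      · rw [if_pos h6, if_pos h6]
        have e4 : im (fun z : A × B => if f z.1 = g z.2 then p z.1 * q z.2 / im p f (f z.1) else 0)
            h (h2 b) = im q h2 (h2 b) := hr (h2 b)
        rw [e4]
        ring
      · rw [if_neg h6, if_neg h6]
        simp

end

end Pool.Agent.K3h57
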