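import Pool.Agent.K3h57.Tm

/-!
# Law preserving maps between configurations
-/

set_option autoImplicit false
set_option linter.unusedSectionVars false

open Finset
open scoped Classical

namespace Pool.Agent.K3h57
open Pool.Agent.W904.AK Tm

/-- The coordinates of the lines with indices `ml`. -/
def pick : List ℕ → List ℚ → List ℚ
  | [], _ => []
  | i :: ml, c => c.getD (2 * i) 0 :: c.getD (2 * i + 1) 0 :: pick ml c

/-- A form in the coordinates of the lines with indices `ml`. -/
def pull : List ℕ → Fm → Fm
  | i :: ml, a :: b :: v => vadd (shift (2 * i) [a, b]) (pull ml v)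
  | i :: _, [a] => shift (2 * i) [a]
  | _ :: _, [] => []
  | [], _ => []

lemma dot_shift1 (i : ℕ) (a : ℤ) (c : List ℚ) : dot (shift i [a]) c = a * c.getD i 0 := by
  induction i generalizing c with
  | zero => cases c <;> simp [shift, dot]
  | succ i ih =>
    cases c with
    | nil => simp
    | cons x c =>
      have := ih c
      simp only [shift] at this
      simp only [shift, List.replicate_succ, List.cons_append, dot_cons, this]
      simp

lemma dot_shift2 (i : ℕ) (a b : ℤ) (c : List ℚ) :
    dot (shift i [a, b]) c = a * c.getD i 0 + b * c.getD (i + 1) 0 := by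
  induction i generalizing c with
  | zero =>
    cases c with
    | nil => simp
    | cons x c => cases c <;> simp [shift, dot]
  | succ i ih =>
    cases c with
    | nil => simp
    | cons x c =>
      have := ih c
      simp only [shift] at this
      simp only [shift, List.replicate_succ, List.cons_append, dot_cons, this]
      simp

lemma dot_pull (ml : List ℕ) (v : Fm) (c : List ℚ) : dot (pull ml v) c = dot v (pick ml c) := by
  induction ml generalizing v with
  | nil => cases v <;> simp [pull, pick]
  | cons i ml ih =>
    match v with
    | [] => simp [pull]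
    | [a] => simp [pull, pick, dot_shift1, dot]
    | a :: b :: v => simp only [pull, pick, dot_vadd, dot_shift2, dot_cons, ih]; ring

lemma evs_pull (ml : List ℕ) (F : List Fm) (c : List ℚ) :
    evs (F.map (pull ml)) c = evs F (pick ml c) := by
  unfold evs
  rw [List.map_map]
  exact List.map_congr_left fun v _ => dot_pull ml v c

lemma pick_append (ml ml' : List ℕ) (c : List ℚ) :
    pick (ml ++ ml') c = pick ml c ++ pick ml' c := by
  induction ml with
  | nil => rfl
  | cons i ml ih => simp [pick, ih]

lemma pick_shift (ml : List ℕ) (n : ℕ) (c d : List ℚ) (h : c.length = 2 * n) :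
    pick (ml.map (fun i => n + i)) (c ++ d) = pick ml d := by
  induction ml with
  | nil => rfl
  | cons i ml ih =>
    simp only [List.map_cons, pick, ih]
    rw [List.getD_append_right _ _ _ _ (by omega), List.getD_append_right _ _ _ _ (by omega)]
    have e1 : 2 * (n + i) - c.length = 2 * i := by omega
    have e2 : 2 * (n + i) + 1 - c.length = 2 * i + 1 := by omega
    rw [e1, e2]

lemma pick_left (ml : List ℕ) (c d : List ℚ) (h : ∀ i ∈ ml, 2 * i + 1 < c.length) :
    pick ml (c ++ d) = pick ml c := by
  induction ml with
  | nil => rfl
  | cons i ml ih =>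
    have hi := h i (List.mem_cons_self ..)
    simp only [pick, ih fun j hj => h j (List.mem_cons_of_mem _ hj)]
    rw [List.getD_append _ _ _ _ (by omega), List.getD_append _ _ _ _ (by omega)]

lemma pick_range (n : ℕ) (c : List ℚ) (h : c.length = 2 * n) : pick (List.range n) c = c := by
  induction n generalizing c with
  | zero => simp only [mul_zero, List.length_eq_zero_iff] at h; subst h; rfl
  | succ n ih =>
    match c, h with
    | x :: y :: c, h =>
      have h' : c.length = 2 * n := by simp only [List.length_cons] at h; omega
      rw [List.range_succ_eq_map, pick]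
      have e : List.map Nat.succ (List.range n) = (List.range n).map (fun i => 1 + i) :=
        List.map_congr_left fun i _ => by omega
      have := pick_shift (List.range n) 1 [x, y] c rfl
      simp only [List.cons_append, List.nil_append] at this
      rw [e, this, ih c h']
      simp
    | [_], h => simp only [List.length_cons, List.length_nil] at h; omega
    | [], h => simp at h

lemma pick_getD (ml : List ℕ) (j : ℕ) (c : List ℚ) (h : j < ml.length) :
    (pick ml c).getD (2 * j) 0 = c.getD (2 * ml.getD j 0) 0 ∧
      (pick ml c).getD (2 * j + 1) 0 = c.getD (2 * ml.getD j 0 + 1) 0 := by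
  induction ml generalizing j with
  | nil => simp at h
  | cons i ml ih =>
    cases j with
    | zero => simp [pick]
    | succ j =>
      simp only [List.length_cons] at h
      have := ih j (by omega)
      simp only [pick, List.getD_cons_succ]
      have e1 : 2 * (j + 1) = (2 * j) + 1 + 1 := by ring
      rw [e1]
      simpa using this

lemma pick_pick (ml ml' : List ℕ) (c : List ℚ) (h : ∀ j ∈ ml', j < ml.length) :
    pick ml' (pick ml c) = pick (ml'.map (fun j => ml.getD j 0)) c := by
  induction ml' with
  | nil => rfl
  | cons j ml' ih =>
    have := pick_getD ml j c (h j (List.mem_cons_self ..))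
    rw [pick, List.map_cons, pick, this.1, this.2, ih fun k hk => h k (List.mem_cons_of_mem _ hk)]

variable {B : Base}

/-- `T'` is the law of the lines `ml` of `T`. -/
def IsMor (B : Base) (T T' : Tm) (ml : List ℕ) : Prop :=
  ∃ φ : T.Sp B → T'.Sp B, im (T.law B) φ = T'.law B ∧
    ∀ x, T'.co B (φ x) = pick ml (T.co B x)

theorem HH_mor {T T' : Tm} {ml : List ℕ} (h : IsMor B T T' ml) (A : List Fm) :
    HH B T (A.map (pull ml)) = HH B T' A := by
  obtain ⟨φ, h1, h2⟩ := h
  unfold HH
  rw [← H_map h1 (fun y => evs A (T'.co B y))]
  congr 1
  funext x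
  rw [evs_pull, h2]

/-- All lines. -/
def full (T : Tm) : List ℕ := List.range T.nl

theorem IsMor.id (T : Tm) : IsMor B T T (full T) := by
  refine ⟨fun x => x, ?_, fun x => ?_⟩
  · exact im_of_bij Function.bijective_id fun a => rfl
  · rw [full, pick_range _ _ (co_length T x)]

theorem IsMor.comp {T T' T'' : Tm} {ml ml' : List ℕ} (h : IsMor B T T' ml)
    (h' : IsMor B T' T'' ml') (hl : ∀ j ∈ ml', j < ml.length) :
    IsMor B T T'' (ml'.map (fun j => ml.getD j 0)) := by
  obtain ⟨φ, h1, h2⟩ := h
  obtain ⟨ψ, h3, h4⟩ := h'
  refine ⟨fun x => ψ (φ x), ?_, fun x => ?_⟩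
  · rw [← h3, ← h1]
    funext c
    rw [im_comp]
  · rw [h4, h2, pick_pick _ _ _ hl]

/-- Moves. -/
inductive Mv
  | fst : Mv
  | snd : Mv
  | swap : Mv
  | rot : List Fm → Mv
  | reb : List Fm → List Fm → Mv
  | L : Mv → List Fm → Mv
  | R : Mv → List Fm → Mv

/-- One move: the new term, and the lines of the old term which make up the new one. -/
def step : Mv → Tm → Option (Tm × List ℕ)
  | .fst, .glue S _ _ _ => some (S, List.range S.nl)
  | .snd, .glue S R _ _ => some (R, (List.range R.nl).map (fun i => S.nl + i))
  | .swap, .glue S R f g =>
    some (.glue R S g f, (List.range R.nl).map (fun i => S.nl + i) ++ List.range S.nl)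
  | .rot f2, .glue (.glue S1 S2 f1 g1) R f g =>
    if lenB (2 * S2.nl) f2 && decide (f2.length = f.length) &&
        zeroB (Tm.glue S1 S2 f1 g1).rel (subs f (f2.map (shift (2 * S1.nl)))) then
      some (.glue S1 (.glue S2 R f2 g) f1 g1, List.range (S1.nl + S2.nl + R.nl))
    else none
  | .reb f2 g2, .glue S R f g =>
    if lenB (2 * S.nl) f2 && lenB (2 * R.nl) g2 && decide (f2.length = g2.length) &&
        zeroB (Tm.glue S R f g).rel (subs f2 (g2.map (shift (2 * S.nl)))) &&
        zeroB (Tm.glue S R f2 g2).rel (subs f (g.map (shift (2 * S.nl)))) &&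
        S.det f f2 && S.det f2 f then
      some (.glue S R f2 g2, List.range (S.nl + R.nl))
    else none
  | .L m f', .glue S R f g =>
    match step m S with
    | none => none
    | some (S', ml) =>
      if lenB (2 * S'.nl) f' && decide (f'.length = f.length) &&
          zeroB S.rel (subs f (f'.map (pull ml))) && decide (∀ i ∈ ml, i < S.nl) then
        some (.glue S' R f' g, ml ++ (List.range R.nl).map (fun i => S.nl + i))
      else none
  | .R m g', .glue S R f g =>
    match step m R with
    | none => none
    | some (R', ml) =>
      if lenB (2 * R'.nl) g' && decide (g'.length = g.length) &&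
          zeroB R.rel (subs g (g'.map (pull ml))) then
        some (.glue S R' f g', List.range S.nl ++ ml.map (fun i => S.nl + i))
      else none
  | _, _ => none

end Pool.Agent.K3h57
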