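import Pool.Agent.K3h78.PN.Stm

/-!
# PN brick NOTBASE: classes which do not come from `Qbar`, under other embeddings
-/

set_option autoImplicit false
set_option maxHeartbeats 400000

open MvPolynomial CategoryTheory Pool.Agent.K3h78.RN Pool.Agent.K3h85.BS Pool.Agent.K3h78.PN

namespace Pool.Agent.K3h57.PN

/-- extension of an injective homomorphism to an algebraic extension -/
theorem ext_hom {A M Ω : Type} [CommRing A] [Field M] [Field Ω] [IsAlgClosed Ω] (i : A →+* M)
    (hi : Function.Injective i)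
    (halg : ∀ m : M, ∃ p : Polynomial A, p ≠ 0 ∧ p.eval₂ i m = 0) (ψ : A →+* Ω)
    (hψ : Function.Injective ψ) : ∃ Ψ : M →+* Ω, Ψ.comp i = ψ := by
  have h0 : IsDomain A := hi.isDomain i
  let _ : Algebra A M := i.toAlgebra
  let _ : Algebra A Ω := ψ.toAlgebra
  have h1 : FaithfulSMul A M := (faithfulSMul_iff_algebraMap_injective _ _).2 hi
  have h2 : FaithfulSMul A Ω := (faithfulSMul_iff_algebraMap_injective _ _).2 hψ
  have h3 : Algebra.IsAlgebraic A M := ⟨fun m => by
    obtain ⟨p, hp, hpm⟩ := halg m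
    exact ⟨p, hp, hpm⟩⟩
  let f : M →ₐ[A] Ω := IsAlgClosed.lift (R := A) (S := M) (M := Ω)
  refine ⟨f.toRingHom, ?_⟩
  ext a
  exact f.commutes a

/-- all embeddings of `Qbar` have the same image -/
theorem factor {G Ω : Type} [Field G] [IsAlgClosed G] [CharZero G] [Field Ω] (j : G →+* Ω)
    (g : AlgebraicClosure ℚ →+* Ω) : ∃ κ : AlgebraicClosure ℚ →+* G, j.comp κ = g := by
  have h : ∀ x, ∃ y, j y = g x := by
    intro x
    obtain ⟨p, hp, hpx⟩ := ((AlgebraicClosure.isAlgebraic ℚ).isAlgebraic x).isIntegral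
    refine mem_range_of_monic j (p := p.map (algebraMap ℚ G)) (hp.map _) ?_
    rw [Polynomial.eval₂_map]
    have h1 := congrArg g hpx
    rw [Polynomial.hom_eval₂, map_zero] at h1
    rw [← h1]
    congr 1
    exact RingHom.ext_rat _ _
  choose c hc using h
  refine ⟨{ toFun := c
            map_one' := j.injective (by rw [hc, map_one, map_one])
            map_mul' := fun x y => j.injective (by rw [hc, map_mul, map_mul, hc, hc])
            map_zero' := j.injective (by rw [hc, map_zero, map_zero])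
            map_add' := fun x y => j.injective (by rw [hc, map_add, map_add, hc, hc]) }, ?_⟩
  ext x
  exact hc x

theorem inj (F : CommRingCat.{0} ⥤ ModuleCat.{0} ℚ)
    (hF : ∀ (K L : Type) [Field K] [CharZero K] [Field L] [Algebra K L],
      IsFinitary (restr K F) L) (M Ω : Type) [Field M] [CharZero M] [IsAlgClosed M] [Field Ω]
    (Ψ : M →+* Ω) : Function.Injective (mr F Ψ) := by
  let _ : Algebra M Ω := Ψ.toAlgebra
  exact injective_of_isFinitary (hF M Ω)

theorem t_NOTBASE : S_NOTBASE := by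
  intro F hF Ω _ _ _ _ A a ψ hψ hnot hbase
  apply hnot
  obtain ⟨be, hbe'⟩ : ∃ be : ov F (AlgebraicClosure ℚ),
      mr F (algebraMap (AlgebraicClosure ℚ) Ω) be = mr F ψ a := by
    obtain ⟨be, hbe⟩ := hbase
    exact ⟨be, hbe⟩
  let k : IntermediateField ℚ Ω := IntermediateField.adjoin ℚ (A : Set Ω)
  let M : IntermediateField k Ω := algebraicClosure k Ω
  have hM : IsAlgClosed M := IsAlgClosure.isAlgClosed k
  have hAM : ∀ z : A, (z : Ω) ∈ M := by
    intro z
    have h1 : (z : Ω) ∈ k := IntermediateField.subset_adjoin ℚ _ z.2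
    exact M.algebraMap_mem ⟨z, h1⟩
  let j : M →+* Ω := (algebraMap M Ω)
  let i : A →+* M :=
    { toFun := fun z => ⟨z, hAM z⟩
      map_one' := Subtype.ext rfl
      map_mul' := fun _ _ => Subtype.ext rfl
      map_zero' := Subtype.ext rfl
      map_add' := fun _ _ => Subtype.ext rfl }
  have hji : j.comp i = (A.val : A →+* Ω) := RingHom.ext fun z => rfl
  have hi : Function.Injective i := fun x y hxy => Subtype.ext (congrArg j hxy)
  obtain ⟨Ψ, hΨ⟩ := ext_hom i hi (fun m => by
    have h1 : IsAlgebraic k (m : Ω) := mem_algebraicClosure_iff.1 m.2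
    have h2 : IsAlgebraic (Algebra.adjoin ℚ (A : Set Ω)) (m : Ω) :=
      IntermediateField.isAlgebraic_adjoin_iff.1 h1
    have h3 : IsAlgebraic A (m : Ω) := isAlgebraic_mono (Algebra.adjoin_eq A).le h2
    obtain ⟨p, hp, hpm⟩ := h3
    refine ⟨p, hp, ?_⟩
    apply j.injective
    rw [Polynomial.hom_eval₂, hji, map_zero]
    exact hpm) ψ hψ
  obtain ⟨κ, hκ⟩ := factor Ψ (algebraMap (AlgebraicClosure ℚ) Ω)
  have h1 : mr F i a = mr F κ be := by
    apply inj F hF M Ω Ψ
    rw [← mr_comp, ← mr_comp, hΨ, hκ]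
    exact hbe'.symm
  obtain ⟨ρ, hρ⟩ := factor (algebraMap (AlgebraicClosure ℚ) Ω) (j.comp κ)
  refine ⟨mr F ρ be, ?_⟩
  have h2 : mr F (A.val : A →+* Ω) a = mr F (algebraMap (AlgebraicClosure ℚ) Ω) (mr F ρ be) := by
    rw [← mr_comp, hρ, ← hji, mr_comp, mr_comp, h1]
  exact h2.symm

end Pool.Agent.K3h57.PN
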