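import Pool.Agent.K3h57.Step
import Pool.Agent.W904.AK.Final

/-!
# Reversal of the lines, and the cardinality form
-/

set_option autoImplicit false
set_option linter.unusedSectionVars false

open Finset
open scoped Classical

namespace Pool.Agent.K3h57
open Pool.Agent.W904.AK Tm

/-- The reversed base: the line `X + t D` is replaced by `X + (1 - t) D`. -/
def Base.refl (B : Base) : Base where
  Ω := B.Ω
  X := fun x => B.X x + B.D x
  D := fun x => -B.D x
  p := B.p
  hp := B.hp
  hD := fun x y h => by
    have h1 : B.D x = B.D y := neg_injective h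
    rw [B.hD x y h1, h1]

theorem Base.refl_refl (B : Base) : B.refl.refl = B := by
  rcases B with ⟨Ω, X, D, p, hp, hD⟩
  simp only [Base.refl, neg_neg, add_neg_cancel_right]

/-- Forms in the reversed coordinates. -/
def rf : Fm → Fm
  | x :: d :: v => x :: (x - d) :: rf v
  | [x] => [x, x]
  | [] => []

/-- The reversed coordinates. -/
def rc : List ℚ → List ℚ
  | x :: d :: c => (x + d) :: (-d) :: rc c
  | [x] => [x]
  | [] => []

lemma dot_rf (v : Fm) (c : List ℚ) (n : ℕ) (h : c.length = 2 * n) :
    dot (rf v) (rc c) = dot v c := by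
  induction n generalizing v c with
  | zero =>
    simp only [mul_zero, List.length_eq_zero_iff] at h
    subst h
    simp [rc]
  | succ n ih =>
    match c, h with
    | x :: d :: c, h =>
      have h' : c.length = 2 * n := by simp only [List.length_cons] at h; omega
      match v with
      | [] => simp [rf]
      | [a] => simp [rf, rc, dot]; ring
      | a :: b :: v =>
        simp only [rf, rc, dot_cons, ih v c h']
        push_cast
        ring
    | [_], h => simp only [List.length_cons, List.length_nil] at h; omega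
    | [], h => simp at h

lemma rc_append (c d : List ℚ) (n : ℕ) (h : c.length = 2 * n) : rc (c ++ d) = rc c ++ rc d := by
  induction n generalizing c with
  | zero =>
    simp only [mul_zero, List.length_eq_zero_iff] at h
    subst h
    simp [rc]
  | succ n ih =>
    match c, h with
    | x :: y :: c, h =>
      have h' : c.length = 2 * n := by simp only [List.length_cons] at h; omega
      simp only [List.cons_append, rc, ih c h']
    | [_], h => simp only [List.length_cons, List.length_nil] at h; omega
    | [], h => simp at h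

lemma evs_rf (F : List Fm) (c : List ℚ) (n : ℕ) (h : c.length = 2 * n) :
    evs (F.map rf) (rc c) = evs F c := by
  unfold evs
  rw [List.map_map]
  exact List.map_congr_left fun v _ => dot_rf v c n h

/-- The reversed term. -/
def Tm.refl : Tm → Tm
  | .line => .line
  | .glue S R f g => .glue S.refl R.refl (f.map rf) (g.map rf)

lemma glue_congr {A A' C C' γ : Type*} [Fintype A] [Fintype A'] [Fintype C] [Fintype C']
    {p : A → ℝ} {p' : A' → ℝ} {q : C → ℝ} {q' : C' → ℝ} {f : A → γ} {f' : A' → γ} {g : C → γ}
    {g' : C' → γ} {φ : A → A'} {ψ : C → C'} (hp : ∀ x, p' (φ x) = p x) (hq : ∀ x, q' (ψ x) = q x)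
    (hf : ∀ x, f' (φ x) = f x) (hg : ∀ x, g' (ψ x) = g x) (hi : ∀ c, im p' f' c = im p f c)
    (x : A) (y : C) : W904.AK.glue p' q' f' g' (φ x, ψ y) = W904.AK.glue p q f g (x, y) := by
  unfold W904.AK.glue
  dsimp only
  by_cases h : f x = g y
  · rw [if_pos h, if_pos (by rw [hf, hg, h]), hp, hq, hi, hf]
  · rw [if_neg h, if_neg (by rw [hf, hg]; exact h)]

/-- The identification of the sample spaces. -/
def rmap (B : Base) : (T : Tm) → T.Sp B → T.refl.Sp B.refl
  | .line => fun x => x
  | .glue S R _ _ => fun z => (rmap B S z.1, rmap B R z.2)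

theorem rmap_bij (B : Base) : (T : Tm) → Function.Bijective (rmap B T)
  | .line => Function.bijective_id
  | .glue S R _ _ => (rmap_bij B S).prodMap (rmap_bij B R)

theorem rmap_co (B : Base) (T : Tm) (x : T.Sp B) :
    T.refl.co B.refl (rmap B T x) = rc (T.co B x) := by
  induction T with
  | line => rfl
  | glue S R f g ihS ihR =>
    show S.refl.co B.refl (rmap B S x.1) ++ R.refl.co B.refl (rmap B R x.2) =
      rc (S.co B x.1 ++ R.co B x.2)
    rw [rc_append _ _ _ (co_length S x.1)]
    exact congrArg₂ _ (ihS x.1) (ihR x.2)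

theorem rmap_law (B : Base) (T : Tm) (x : T.Sp B) :
    T.refl.law B.refl (rmap B T x) = T.law B x := by
  induction T with
  | line => rfl
  | glue S R f g ihS ihR =>
    have e1 : ∀ u : S.Sp B, evs (f.map rf) (S.refl.co B.refl (rmap B S u)) =
        evs f (S.co B u) := fun u => by rw [rmap_co, evs_rf _ _ _ (co_length S u)]
    have e2 : ∀ u : R.Sp B, evs (g.map rf) (R.refl.co B.refl (rmap B R u)) =
        evs g (R.co B u) := fun u => by rw [rmap_co, evs_rf _ _ _ (co_length R u)]
    have e3 : im (S.law B) (rmap B S) = S.refl.law B.refl := im_of_bij (rmap_bij B S) ihS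
    have e4 : ∀ c, im (S.refl.law B.refl) (fun u => evs (f.map rf) (S.refl.co B.refl u)) c =
        im (S.law B) (fun u => evs f (S.co B u)) c := by
      intro c
      rw [← e3, im_comp]
      exact im_congr_supp (fun u _ => e1 u) c
    exact glue_congr ihS ihR e1 e2 e4 x.1 x.2

theorem HH_refl (B : Base) (T : Tm) (A : List Fm) :
    HH B.refl T.refl (A.map rf) = HH B T A := by
  unfold HH
  rw [← H_map (im_of_bij (rmap_bij B T) (rmap_law B T))
    (fun y => evs (A.map rf) (T.refl.co B.refl y))]
  congr 1
  funext x
  rw [rmap_co, evs_rf _ _ _ (co_length T x)]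

/-- The sum of the entropies for the two orientations. -/
noncomputable def SS (B : Base) (T : Tm) (A : List Fm) : ℝ := HH B T A + HH B.refl T A

theorem SS_refl (B : Base) (T : Tm) (A : List Fm) : SS B T.refl (A.map rf) = SS B T A := by
  unfold SS
  have h1 := HH_refl B T A
  have h2 := HH_refl B.refl T A
  rw [Base.refl_refl] at h2
  rw [h1, h2]
  ring

/-- Submodularity for the sums. -/
theorem ss_sub {T : Tm} (hT : ∀ B, T.Ok B) (A A' C K : List Fm) (h1 : T.det A K = true)
    (h2 : T.det A' K = true) (h3 : T.det (A ++ A') C = true) (B : Base) :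
    SS B T C + SS B T K ≤ SS B T A + SS B T A' := by
  have e1 := sub_rule (hT B) A A' C K h1 h2 h3
  have e2 := sub_rule (hT B.refl) A A' C K h1 h2 h3
  unfold SS
  linarith

theorem ss_nil {T : Tm} (hT : ∀ B, T.Ok B) (B : Base) : SS B T [] = 0 := by
  unfold SS
  rw [HH_nil (hT B), HH_nil (hT B.refl), add_zero]

/-- Subadditivity for the sums. -/
theorem ss_add {T : Tm} (hT : ∀ B, T.Ok B) (A A' C : List Fm)
    (h3 : T.det (A ++ A') C = true) (B : Base) :
    SS B T C ≤ SS B T A + SS B T A' := by
  have e1 := submod' (law_isLaw (hT B)) (Det.of_unit _ _) (Det.of_unit _ _)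
    (det_append (hT B) h3)
  have e2 := submod' (law_isLaw (hT B.refl)) (Det.of_unit _ _) (Det.of_unit _ _)
    (det_append (hT B.refl) h3)
  rw [H_const (law_isLaw (hT B)) ()] at e1
  rw [H_const (law_isLaw (hT B.refl)) ()] at e2
  unfold SS HH
  linarith

/-- Conditional independence for the sums. -/
theorem ss_ind {S R : Tm} {f g : List Fm} (hT : ∀ B, (Tm.glue S R f g).Ok B) (A A' C : List Fm)
    (hA : lenB (2 * S.nl) A = true) (h1 : S.det A f = true) (h2 : R.det A' g = true)
    (h3 : (Tm.glue S R f g).det C (A ++ A'.map (shift (2 * S.nl))) = true) (B : Base) :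
    SS B S A + SS B R A' ≤ SS B (Tm.glue S R f g) C + SS B S f := by
  have e1 := ind_rule (hT B) A A' hA h1 h2
  have e2 := ind_rule (hT B.refl) A A' hA h1 h2
  have e3 := H_mono (law_isLaw (hT B)) (det_sound (hT B) h3)
  have e4 := H_mono (law_isLaw (hT B.refl)) (det_sound (hT B.refl) h3)
  unfold SS
  unfold HH at e1 e2 ⊢
  linarith

/-- Monotonicity for the sums. -/
theorem ss_mono {T : Tm} (hT : ∀ B, T.Ok B) (A C : List Fm) (h : T.det A C = true) (B : Base) :
    SS B T C ≤ SS B T A := by
  have e1 := H_mono (law_isLaw (hT B)) (det_sound (hT B) h)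
  have e2 := H_mono (law_isLaw (hT B.refl)) (det_sound (hT B.refl) h)
  unfold SS HH
  linarith

/-- Equality of entropies through moves. -/
theorem ss_mor {T : Tm} (hT : ∀ B, T.Ok B) (l : List Mv) (T' : Tm) (A A' : List Fm)
    (h : morB l T T' A A' = true) (B : Base) : SS B T A = SS B T' A' := by
  unfold SS
  rw [mor_rule (hT B) l T' A A' h, mor_rule (hT B.refl) l T' A A' h]

theorem okS {B : Base} {S R : Tm} {f g : List Fm} (h : (Tm.glue S R f g).Ok B) : S.Ok B := h.1

theorem okR {B : Base} {S R : Tm} {f g : List Fm} (h : (Tm.glue S R f g).Ok B) : R.Ok B := h.2.1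

theorem refl_nl (T : Tm) : T.refl.nl = T.nl := by
  induction T with
  | line => rfl
  | glue S R f g ihS ihR =>
    show S.refl.nl + R.refl.nl = S.nl + R.nl
    rw [ihS, ihR]

lemma rf_length (v : Fm) (n : ℕ) (h : v.length ≤ 2 * n) : (rf v).length ≤ 2 * n := by
  induction n generalizing v with
  | zero =>
    have : v = [] := by
      rw [← List.length_eq_zero_iff]; omega
    subst this
    simp [rf]
  | succ n ih =>
    match v, h with
    | [], _ => simp [rf]
    | [a], _ => simp [rf]
    | a :: b :: v, h =>
      have := ih v (by simp only [List.length_cons] at h; omega)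
      simp only [rf, List.length_cons]
      omega

/-- Validity of the reversed term. -/
theorem ok_refl {T : Tm} {B : Base} (h : T.Ok B) : T.refl.Ok B.refl := by
  induction T with
  | line => trivial
  | glue S R f g ihS ihR =>
    obtain ⟨h1, h2, h3, h4, h5, h6⟩ := h
    have e : ∀ (U : Tm) (F : List Fm) (c : List ℚ),
        im (U.refl.law B.refl) (fun u => evs (F.map rf) (U.refl.co B.refl u)) c =
        im (U.law B) (fun u => evs F (U.co B u)) c := by
      intro U F c
      rw [← im_of_bij (rmap_bij B U) (rmap_law B U), im_comp]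
      refine im_congr_supp (fun u _ => ?_) c
      rw [rmap_co, evs_rf _ _ _ (co_length U u)]
    have hl : ∀ (n : ℕ) (F : List Fm), lenB (2 * n) F = true → lenB (2 * n) (F.map rf) = true := by
      intro n F hF
      rw [lenB_iff] at hF ⊢
      intro v hv
      rw [List.mem_map] at hv
      obtain ⟨w, hw, rfl⟩ := hv
      exact rf_length w n (hF w hw)
    refine ⟨ihS h1, ihR h2, ?_, ?_, ?_, fun c => ?_⟩
    · rw [refl_nl]; exact hl _ _ h3
    · rw [refl_nl]; exact hl _ _ h4
    · rw [List.length_map, List.length_map, h5]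
    · rw [e, e, h6]

/-- Equality of entropies through reversal and moves. -/
theorem ss_ref {T : Tm} (hT : ∀ B, T.Ok B) (l : List Mv) (T' : Tm) (A A' : List Fm)
    (h : morB l T.refl T' (A.map rf) A' = true) (B : Base) : SS B T A = SS B T' A' := by
  rw [← SS_refl B T A]
  refine ss_mor (fun B' => ?_) l T' _ A' h B
  have := ok_refl (hT B'.refl)
  rwa [Base.refl_refl] at this

end Pool.Agent.K3h57
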