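import Pool.Agent.K3h57.Refl

/-!
# From entropies to cardinalities, any set of slopes
-/

set_option autoImplicit false
set_option linter.unusedSectionVars false

open Finset
open scoped Classical

namespace Pool.Agent.K3h57
open Pool.Agent.W904.AK Tm

/-- The integer form `(q - p) y + p x`. -/
def sl (q p : ℤ) (A : Finset (ℤ × ℤ)) : Finset ℤ := A.image fun z => (q - p) * z.2 + p * z.1

lemma HH_le_of {B : Base} (hp : IsLaw B.p) (S : Finset ℤ) (g : B.Ω → ℤ) (hS : ∀ x, g x ∈ S)
    (A : List Fm) (h : ∀ x, evs A [B.X x, B.D x] = [((g x : ℤ) : ℚ)]) :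
    HH B .line A ≤ Real.log S.card := by
  have h1 : HH B .line A ≤ H B.p g :=
    H_mono hp (fun x y _ _ e => by
      show evs A [B.X x, B.D x] = evs A [B.X y, B.D y]
      rw [h x, h y, e])
  exact h1.trans (H_le_log_card hp g S fun x _ => hS x)

/-- The base attached to a set of representatives of the differences. -/
theorem slopes_base (A : Finset (ℤ × ℤ)) (hA : A.Nonempty) : ∃ B : Base,
    HH B .line [[1], [0, 1]] = Real.log (A.image (fun z => z.1 - z.2)).card ∧
    HH B.refl .line [[1], [0, 1]] = Real.log (A.image (fun z => z.1 - z.2)).card ∧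
    HH B .line [[1]] ≤ Real.log (sl 1 0 A).card ∧
    HH B.refl .line [[1]] ≤ Real.log (sl 1 1 A).card ∧
    ∀ q p : ℤ, HH B .line [[q, p]] ≤ Real.log (sl q p A).card ∧
      HH B.refl .line [[q, p]] ≤ Real.log (sl q (q - p) A).card := by
  set E : Finset ℤ := A.image (fun z => z.1 - z.2) with hE
  have hEne : E.Nonempty := hA.image _
  have hrep : ∀ b : E, ∃ a ∈ A, a.1 - a.2 = b.1 := fun b => Finset.mem_image.1 b.2
  choose rep hrepA hrepE using hrep
  have : Nonempty E := hEne.to_subtype
  have hlaw := unif_law E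
  let B : Base :=
    { Ω := E
      X := fun b => ((rep b).2 : ℚ)
      D := fun b => ((b.1 : ℤ) : ℚ)
      p := unif E
      hp := hlaw
      hD := fun x y e => by
        have : x = y := Subtype.ext (by exact_mod_cast e)
        rw [this] }
  have hx : ∀ b : E, ((b.1 : ℤ) : ℚ) = ((rep b).1 : ℚ) - ((rep b).2 : ℚ) := by
    intro b
    have := hrepE b
    rw [← this]; push_cast; ring
  have mem : ∀ (q p : ℤ) (b : E), (q - p) * (rep b).2 + p * (rep b).1 ∈ sl q p A := fun q p b =>
    Finset.mem_image_of_mem (fun z : ℤ × ℤ => (q - p) * z.2 + p * z.1) (hrepA b)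
  refine ⟨B, ?_, ?_, ?_, ?_, fun q p => ⟨?_, ?_⟩⟩
  · have : H (unif E) (fun x : E => evs [[1], [0, 1]] [((rep x).2 : ℚ), ((x.1 : ℤ) : ℚ)]) =
        Real.log (Fintype.card E) := by
      refine H_unif E fun x y e => ?_
      simp only [evs, List.map_cons, List.map_nil, dot_cons, dot_nil, List.cons.injEq] at e
      have h3 : ((x.1 : ℤ) : ℚ) = ((y.1 : ℤ) : ℚ) := by
        have := e.2.1
        push_cast at this
        linarith
      exact Subtype.ext (by exact_mod_cast h3)
    rw [Fintype.card_coe] at this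
    exact this
  · have : H (unif E) (fun x : E => evs [[1], [0, 1]]
        [((rep x).2 : ℚ) + ((x.1 : ℤ) : ℚ), -((x.1 : ℤ) : ℚ)]) =
        Real.log (Fintype.card E) := by
      refine H_unif E fun x y e => ?_
      simp only [evs, List.map_cons, List.map_nil, dot_cons, dot_nil, List.cons.injEq] at e
      have h3 : ((x.1 : ℤ) : ℚ) = ((y.1 : ℤ) : ℚ) := by
        have := e.2.1
        push_cast at this
        linarith
      exact Subtype.ext (by exact_mod_cast h3)
    rw [Fintype.card_coe] at this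
    exact this
  · refine HH_le_of (B := B) hlaw _ _ (mem 1 0) _ fun b => ?_
    show evs [[1]] [((rep b).2 : ℚ), ((b.1 : ℤ) : ℚ)] = _
    simp only [evs, List.map_cons, List.map_nil, dot_cons, dot_nil]
    push_cast
    ring_nf
  · refine HH_le_of (B := B.refl) hlaw _ _ (mem 1 1) _ fun b => ?_
    show evs [[1]] [((rep b).2 : ℚ) + ((b.1 : ℤ) : ℚ), -((b.1 : ℤ) : ℚ)] = _
    simp only [evs, List.map_cons, List.map_nil, dot_cons, dot_nil, hx]
    push_cast
    ring_nf
  · refine HH_le_of (B := B) hlaw _ _ (mem q p) _ fun b => ?_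
    show evs [[q, p]] [((rep b).2 : ℚ), ((b.1 : ℤ) : ℚ)] = _
    simp only [evs, List.map_cons, List.map_nil, dot_cons, dot_nil, hx]
    push_cast
    ring_nf
  · refine HH_le_of (B := B.refl) hlaw _ _ (mem q (q - p)) _ fun b => ?_
    show evs [[q, p]] [((rep b).2 : ℚ) + ((b.1 : ℤ) : ℚ), -((b.1 : ℤ) : ℚ)] = _
    simp only [evs, List.map_cons, List.map_nil, dot_cons, dot_nil, hx]
    push_cast
    ring_nf

/-- Symmetric form. -/
theorem slopes_SS (A : Finset (ℤ × ℤ)) (hA : A.Nonempty) : ∃ B : Base,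
    SS B .line [[1], [0, 1]] = 2 * Real.log (A.image (fun z => z.1 - z.2)).card ∧
    SS B .line [[1]] ≤ Real.log (sl 1 0 A).card + Real.log (sl 1 1 A).card ∧
    ∀ q p : ℤ, SS B .line [[q, p]] ≤ Real.log (sl q p A).card +
      Real.log (sl q (q - p) A).card := by
  obtain ⟨B, h1, h2, h3, h4, h5⟩ := slopes_base A hA
  refine ⟨B, ?_, ?_, fun q p => ?_⟩
  · unfold SS; rw [h1, h2]; ring
  · unfold SS; linarith
  · unfold SS; linarith [(h5 q p).1, (h5 q p).2]

/-- `k`-term progressions with exponent `c`. -/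
def APk (k : ℕ) (c : ℝ) : Prop :=
  ∀ (P : Finset (ℤ × ℤ)) (S : Finset ℤ), Set.InjOn Prod.snd (P : Set (ℤ × ℤ)) →
    (∀ z ∈ P, ∀ i < k, z.1 + (i : ℤ) * z.2 ∈ S) → (P.card : ℝ) ≤ (S.card : ℝ) ^ c

/-- A certificate with the heights `i / m` gives the bound for progressions of `m + 1` terms. -/
theorem apk_of_cert (m : ℕ) (hm : 0 < m) (c : ℝ) (hc : 0 < c)
    (h : ∀ (B : Base) (T : ℝ), SS B .line [[1]] ≤ T →
      (∀ (q p : ℤ) (i : ℕ), i ≤ m → 0 < q → (i : ℤ) * q = p * m → SS B .line [[q, p]] ≤ T) →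
        SS B .line [[1], [0, 1]] ≤ c * T) : APk (m + 1) c := by
  intro P S hinj hS
  rcases P.eq_empty_or_nonempty with hP | hP
  · subst hP
    simp only [Finset.card_empty, Nat.cast_zero]
    positivity
  set A : Finset (ℤ × ℤ) := P.image (fun z => (z.1 + m * z.2, z.1)) with hAd
  have hA : A.Nonempty := hP.image _
  have hm0 : (m : ℤ) ≠ 0 := by exact_mod_cast hm.ne'
  have hcard : (A.image (fun z => z.1 - z.2)).card = P.card := by
    rw [hAd, Finset.image_image]
    refine Finset.card_image_of_injOn fun a ha b hb e => hinj ha hb ?_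
    simp only [Function.comp_apply, add_sub_cancel_left] at e
    exact mul_left_cancel₀ hm0 e
  have hsl : ∀ (q p : ℤ) (i : ℕ), i ≤ m → (i : ℤ) * q = p * m → (sl q p A).card ≤ S.card := by
    intro q p i hi e
    have h1 : sl q p A ⊆ S.image (fun s => q * s) := by
      intro x hx
      simp only [sl, hAd, Finset.image_image, Finset.mem_image, Function.comp_apply] at hx ⊢
      obtain ⟨z, hz, rfl⟩ := hx
      refine ⟨z.1 + i * z.2, hS z hz i (by omega), ?_⟩
      have : q * ((i : ℤ) * z.2) = (p * m) * z.2 := by rw [← e]; ring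
      rw [mul_add, this]
      ring
    exact (Finset.card_le_card h1).trans Finset.card_image_le
  have hSne : 0 < S.card := by
    obtain ⟨z, hz⟩ := hP
    exact Finset.card_pos.2 ⟨_, hS z hz 0 (by omega)⟩
  have hlog : ∀ (q p : ℤ) (i : ℕ), i ≤ m → (i : ℤ) * q = p * m →
      Real.log (sl q p A).card ≤ Real.log S.card := by
    intro q p i hi e
    have hne : 0 < (sl q p A).card := Finset.card_pos.2 (hA.image _)
    exact Real.log_le_log (by exact_mod_cast hne) (by exact_mod_cast hsl q p i hi e)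
  obtain ⟨B, b1, b2, b3⟩ := slopes_SS A hA
  have key := h B (2 * Real.log S.card) ?_ ?_
  · rw [b1, hcard] at key
    have p0 : (0 : ℝ) < P.card := by exact_mod_cast Finset.card_pos.2 hP
    have p1 : (0 : ℝ) < S.card := by exact_mod_cast hSne
    rw [← Real.log_le_log_iff p0 (Real.rpow_pos_of_pos p1 _), Real.log_rpow p1]
    linarith
  · refine b2.trans ?_
    have h1 := hlog 1 0 0 (Nat.zero_le _) (by simp)
    have h2 := hlog 1 1 m le_rfl (by ring)
    linarith
  · intro q p i hi _ e
    refine (b3 q p).trans ?_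
    have h1 := hlog q p i hi e
    have h2 := hlog q (q - p) (m - i) (Nat.sub_le _ _) (by
      rw [Nat.cast_sub hi]
      linear_combination -e)
    linarith

end Pool.Agent.K3h57
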