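import Pool.Agent.K3h57.Mor

/-!
# Soundness of the moves
-/

set_option autoImplicit false
set_option linter.unusedSectionVars false

open Finset
open scoped Classical

namespace Pool.Agent.K3h57
open Pool.Agent.W904.AK Tm

variable {B : Base}

lemma pick_range_left {n : ℕ} (c d : List ℚ) (h : c.length = 2 * n) :
    pick (List.range n) (c ++ d) = c := by
  rw [pick_left _ _ _ (fun i hi => by rw [List.mem_range] at hi; omega), pick_range _ _ h]

lemma pick_range_right {n k : ℕ} (c d : List ℚ) (h : c.length = 2 * n) (h' : d.length = 2 * k) :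
    pick ((List.range k).map (fun i => n + i)) (c ++ d) = d := by
  rw [pick_shift _ _ _ _ h, pick_range _ _ h']

theorem mor_fst {S R : Tm} {f g : List Fm} (h : (Tm.glue S R f g).Ok B) :
    IsMor B (Tm.glue S R f g) S (List.range S.nl) := by
  obtain ⟨h1, h2, h3, h4, h5, h6⟩ := h
  exact ⟨fun z => z.1, glue_fst (law_isLaw h1) h6,
    fun z => (pick_range_left _ _ (co_length S z.1)).symm⟩

theorem mor_snd {S R : Tm} {f g : List Fm} (h : (Tm.glue S R f g).Ok B) :
    IsMor B (Tm.glue S R f g) R ((List.range R.nl).map (fun i => S.nl + i)) := by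
  obtain ⟨h1, h2, h3, h4, h5, h6⟩ := h
  exact ⟨fun z => z.2, glue_snd (law_isLaw h2) h6,
    fun z => (pick_range_right _ _ (co_length S z.1) (co_length R z.2)).symm⟩

theorem mor_swap {S R : Tm} {f g : List Fm} (h : (Tm.glue S R f g).Ok B) :
    (Tm.glue R S g f).Ok B ∧ IsMor B (Tm.glue S R f g) (Tm.glue R S g f)
      ((List.range R.nl).map (fun i => S.nl + i) ++ List.range S.nl) := by
  obtain ⟨h1, h2, h3, h4, h5, h6⟩ := h
  refine ⟨⟨h2, h1, h4, h3, h5.symm, fun c => (h6 c).symm⟩, fun z => (z.2, z.1), ?_, fun z => ?_⟩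
  · exact glue_swap h6
  · show R.co B z.2 ++ S.co B z.1 = pick _ (S.co B z.1 ++ R.co B z.2)
    rw [pick_append, pick_range_left _ _ (co_length S z.1),
      pick_range_right _ _ (co_length S z.1) (co_length R z.2)]

/-- The values of forms which differ by relations. -/
lemma evs_of_zero {T : Tm} (hT : T.Ok B) {F G : List Fm} (hl : F.length = G.length)
    (h : zeroB T.rel (subs F G) = true) {x : T.Sp B} (hx : T.law B x ≠ 0) :
    evs F (T.co B x) = evs G (T.co B x) :=
  (subs_zero_iff hl).1 (zero_sound hT h hx)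

theorem mor_rot {S1 S2 R : Tm} {f1 g1 f g f2 : List Fm}
    (h : (Tm.glue (Tm.glue S1 S2 f1 g1) R f g).Ok B) (hl : lenB (2 * S2.nl) f2 = true)
    (hn : f2.length = f.length)
    (hz : zeroB (Tm.glue S1 S2 f1 g1).rel (subs f (f2.map (shift (2 * S1.nl)))) = true) :
    (Tm.glue S1 (Tm.glue S2 R f2 g) f1 g1).Ok B ∧
      IsMor B (Tm.glue (Tm.glue S1 S2 f1 g1) R f g) (Tm.glue S1 (Tm.glue S2 R f2 g) f1 g1)
        (List.range (S1.nl + S2.nl + R.nl)) := by
  obtain ⟨h1, h2, h3, h4, h5, h6⟩ := h
  have h1' := h1
  obtain ⟨k1, k2, k3, k4, k5, k6⟩ := h1'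
  have key : ∀ z : S1.Sp B × S2.Sp B, W904.AK.glue (S1.law B) (S2.law B)
      (fun x => evs f1 (S1.co B x)) (fun y => evs g1 (S2.co B y)) z ≠ 0 →
      evs f (S1.co B z.1 ++ S2.co B z.2) = evs f2 (S2.co B z.2) := by
    intro z hz'
    have e : evs f ((Tm.glue S1 S2 f1 g1).co B z) =
        evs (f2.map (shift (2 * S1.nl))) ((Tm.glue S1 S2 f1 g1).co B z) :=
      evs_of_zero h1 (by rw [List.length_map, hn]) hz hz'
    have e2 : evs (f2.map (shift (2 * S1.nl))) (S1.co B z.1 ++ S2.co B z.2) =
      evs f2 (S2.co B z.2) := evs_shift _ (co_length S1 z.1)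
    exact e.trans e2
  have c1 : ∀ c, im (S2.law B) (fun y => evs f2 (S2.co B y)) c =
      im (R.law B) (fun y => evs g (R.co B y)) c := by
    intro c
    rw [← h6 c]
    have e1 : im ((Tm.glue S1 S2 f1 g1).law B)
        (fun x => evs f ((Tm.glue S1 S2 f1 g1).co B x)) c =
        im (W904.AK.glue (S1.law B) (S2.law B) (fun x => evs f1 (S1.co B x))
          (fun y => evs g1 (S2.co B y))) (fun z => evs f2 (S2.co B z.2)) c :=
      im_congr_supp key c
    rw [e1]
    exact (im_glue_snd (law_isLaw k2) k6 (fun y => evs f2 (S2.co B y)) c).symm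
  have ok2 : (Tm.glue S2 R f2 g).Ok B := ⟨k2, h2, hl, h4, hn.trans h5, c1⟩
  refine ⟨⟨k1, ok2, k3, ?_, k5, ?_⟩, ?_⟩
  · rw [lenB_iff] at k4 ⊢
    intro v hv
    have := k4 v hv
    show v.length ≤ 2 * (S2.nl + R.nl)
    omega
  · intro c
    rw [k6 c]
    have e1 : ∀ z : S2.Sp B × R.Sp B, evs g1 (S2.co B z.1 ++ R.co B z.2) =
        evs g1 (S2.co B z.1) := fun z =>
      evs_append _ (by rw [co_length]; exact k4)
    have e2 : im ((Tm.glue S2 R f2 g).law B)
        (fun x => evs g1 ((Tm.glue S2 R f2 g).co B x)) c =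
        im (W904.AK.glue (S2.law B) (R.law B) (fun x => evs f2 (S2.co B x))
          (fun y => evs g (R.co B y))) (fun z => evs g1 (S2.co B z.1)) c :=
      im_congr_supp (fun z _ => e1 z) c
    rw [e2]
    exact (im_glue_fst (law_isLaw k2) c1 (fun y => evs g1 (S2.co B y)) c).symm
  · refine ⟨fun z => (z.1.1, (z.1.2, z.2)), ?_, fun z => ?_⟩
    · have e := glue_rot (r := R.law B) (h := fun z : S1.Sp B × S2.Sp B =>
        evs f (S1.co B z.1 ++ S2.co B z.2)) (h2 := fun y => evs f2 (S2.co B y))
        (k := fun y => evs g (R.co B y)) (law_isLaw k2) k6 key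
      have e1 : (fun z : S2.Sp B × R.Sp B => evs g1 (S2.co B z.1)) =
          fun z : S2.Sp B × R.Sp B => evs g1 (S2.co B z.1 ++ R.co B z.2) := by
        funext z
        exact (evs_append _ (by rw [co_length]; exact k4)).symm
      rw [e1] at e
      exact e
    · show S1.co B z.1.1 ++ (S2.co B z.1.2 ++ R.co B z.2) =
        pick _ ((S1.co B z.1.1 ++ S2.co B z.1.2) ++ R.co B z.2)
      rw [pick_range _ _ (by
        rw [List.length_append, List.length_append, co_length, co_length, co_length]; ring),
        List.append_assoc]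

theorem mor_reb {S R : Tm} {f g f2 g2 : List Fm} (h : (Tm.glue S R f g).Ok B)
    (hl : lenB (2 * S.nl) f2 = true) (hl' : lenB (2 * R.nl) g2 = true)
    (hn : f2.length = g2.length)
    (hz : zeroB (Tm.glue S R f g).rel (subs f2 (g2.map (shift (2 * S.nl)))) = true)
    (hz' : zeroB (Tm.glue S R f2 g2).rel (subs f (g.map (shift (2 * S.nl)))) = true)
    (hd : S.det f f2 = true) (hd' : S.det f2 f = true) :
    (Tm.glue S R f2 g2).Ok B ∧
      IsMor B (Tm.glue S R f g) (Tm.glue S R f2 g2) (List.range (S.nl + R.nl)) := by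
  have h0 := h
  obtain ⟨h1, h2, h3, h4, h5, h6⟩ := h
  have i1 := law_isLaw h1
  have i2 := law_isLaw h2
  have r1 := rel_length h1
  have r2 := rel_length h2
  -- the first implication
  have a1 : ∀ (x : S.Sp B) (y : R.Sp B), S.law B x ≠ 0 → R.law B y ≠ 0 →
      evs f (S.co B x) = evs g (R.co B y) → evs f2 (S.co B x) = evs g2 (R.co B y) := by
    intro x y hx hy e
    have hne : (Tm.glue S R f g).law B (x, y) ≠ 0 := by
      show W904.AK.glue (S.law B) (R.law B) (fun x => evs f (S.co B x))
        (fun y => evs g (R.co B y)) (x, y) ≠ 0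
      unfold W904.AK.glue
      dsimp only
      rw [if_pos e]
      exact div_ne_zero (mul_ne_zero hx hy) (im_pos i1 _ hx).ne'
    have e2 := evs_of_zero h0 (by rw [List.length_map, hn]) hz hne
    have e3 : evs f2 (S.co B x ++ R.co B y) =
      evs (g2.map (shift (2 * S.nl))) (S.co B x ++ R.co B y) := e2
    rwa [evs_append _ (by rw [co_length]; exact hl), evs_shift _ (co_length S x)] at e3
  have c2 := compat_reb (f2 := fun x => evs f2 (S.co B x)) (g2 := fun y => evs g2 (R.co B y))
    i1 i2 h6 a1
  have ok2 : (Tm.glue S R f2 g2).Ok B := ⟨h1, h2, hl, hl', hn, c2⟩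
  have a2 : ∀ (x : S.Sp B) (y : R.Sp B), S.law B x ≠ 0 → R.law B y ≠ 0 →
      evs f2 (S.co B x) = evs g2 (R.co B y) → evs f (S.co B x) = evs g (R.co B y) := by
    intro x y hx hy e
    have hne : (Tm.glue S R f2 g2).law B (x, y) ≠ 0 := by
      show W904.AK.glue (S.law B) (R.law B) (fun x => evs f2 (S.co B x))
        (fun y => evs g2 (R.co B y)) (x, y) ≠ 0
      unfold W904.AK.glue
      dsimp only
      rw [if_pos e]
      exact div_ne_zero (mul_ne_zero hx hy) (im_pos i1 _ hx).ne'
    have e2 := evs_of_zero ok2 (by rw [List.length_map, h5]) hz' hne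
    have e3 : evs f (S.co B x ++ R.co B y) =
      evs (g.map (shift (2 * S.nl))) (S.co B x ++ R.co B y) := e2
    rwa [evs_append _ (by rw [co_length]; exact h3), evs_shift _ (co_length S x)] at e3
  refine ⟨ok2, fun z => z, ?_, fun z => ?_⟩
  · have e := glue_reb (f2 := fun x => evs f2 (S.co B x)) (g2 := fun y => evs g2 (R.co B y))
      i1 a1 a2 (det_sound h1 hd) (det_sound h1 hd')
    have e' : (Tm.glue S R f g).law B = (Tm.glue S R f2 g2).law B := e
    rw [← e']
    exact im_of_bij Function.bijective_id fun a => rfl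
  · show _ = pick _ (S.co B z.1 ++ R.co B z.2)
    rw [pick_range _ _ (by rw [List.length_append, co_length, co_length]; ring)]
    rfl

theorem mor_L {S S' R : Tm} {f g f' : List Fm} {ml : List ℕ} (h : (Tm.glue S R f g).Ok B)
    (hS : S'.Ok B) (hm : IsMor B S S' ml) (hl : lenB (2 * S'.nl) f' = true)
    (hn : f'.length = f.length) (hz : zeroB S.rel (subs f (f'.map (pull ml))) = true)
    (hi : ∀ i ∈ ml, i < S.nl) :
    (Tm.glue S' R f' g).Ok B ∧ IsMor B (Tm.glue S R f g) (Tm.glue S' R f' g)
      (ml ++ (List.range R.nl).map (fun i => S.nl + i)) := by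
  obtain ⟨h1, h2, h3, h4, h5, h6⟩ := h
  obtain ⟨φ, hφ, hc⟩ := hm
  have key : ∀ x, S.law B x ≠ 0 → evs f (S.co B x) = evs f' (S'.co B (φ x)) := by
    intro x hx
    have e := evs_of_zero h1 (by rw [List.length_map, hn]) hz hx
    rw [e, evs_pull, hc]
  have c1 : ∀ c, im (S'.law B) (fun x => evs f' (S'.co B x)) c =
      im (R.law B) (fun y => evs g (R.co B y)) c := by
    intro c
    rw [← h6 c, ← hφ, im_comp]
    exact (im_congr_supp key c).symm
  refine ⟨⟨hS, h2, hl, h4, hn.trans h5, c1⟩, Prod.map φ (fun y => y), ?_, fun z => ?_⟩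
  · exact glue_lift hφ (im_of_bij Function.bijective_id fun a => rfl) key (fun y _ => rfl)
  · show S'.co B (φ z.1) ++ R.co B z.2 = pick _ (S.co B z.1 ++ R.co B z.2)
    rw [pick_append, pick_range_right _ _ (co_length S z.1) (co_length R z.2), hc,
      pick_left _ _ _ (fun i hi' => by rw [co_length]; have := hi i hi'; omega)]

theorem mor_R {S R R' : Tm} {f g g' : List Fm} {ml : List ℕ} (h : (Tm.glue S R f g).Ok B)
    (hR : R'.Ok B) (hm : IsMor B R R' ml) (hl : lenB (2 * R'.nl) g' = true)
    (hn : g'.length = g.length) (hz : zeroB R.rel (subs g (g'.map (pull ml))) = true) :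
    (Tm.glue S R' f g').Ok B ∧ IsMor B (Tm.glue S R f g) (Tm.glue S R' f g')
      (List.range S.nl ++ ml.map (fun i => S.nl + i)) := by
  obtain ⟨h1, h2, h3, h4, h5, h6⟩ := h
  obtain ⟨φ, hφ, hc⟩ := hm
  have key : ∀ x, R.law B x ≠ 0 → evs g (R.co B x) = evs g' (R'.co B (φ x)) := by
    intro x hx
    have e := evs_of_zero h2 (by rw [List.length_map, hn]) hz hx
    rw [e, evs_pull, hc]
  have c1 : ∀ c, im (S.law B) (fun x => evs f (S.co B x)) c =
      im (R'.law B) (fun y => evs g' (R'.co B y)) c := by
    intro c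
    rw [h6 c, ← hφ, im_comp]
    exact im_congr_supp key c
  refine ⟨⟨h1, hR, h3, hl, h5.trans hn.symm, c1⟩, Prod.map (fun x => x) φ, ?_, fun z => ?_⟩
  · exact glue_lift (im_of_bij Function.bijective_id fun a => rfl) hφ (fun y _ => rfl) key
  · show S.co B z.1 ++ R'.co B (φ z.2) = pick _ (S.co B z.1 ++ R.co B z.2)
    rw [pick_append, pick_range_left _ _ (co_length S z.1), hc,
      pick_shift _ _ _ _ (co_length S z.1)]

/-- Soundness of a move. -/
theorem step_sound : ∀ (m : Mv) (T T' : Tm) (ml : List ℕ), step m T = some (T', ml) →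
    T.Ok B → T'.Ok B ∧ IsMor B T T' ml := by
  intro m
  induction m with
  | fst =>
    intro T T' ml h hT
    cases T with
    | line => simp [step] at h
    | glue S R f g =>
      simp only [step, Option.some.injEq, Prod.mk.injEq] at h
      obtain ⟨rfl, rfl⟩ := h
      exact ⟨hT.1, mor_fst hT⟩
  | snd =>
    intro T T' ml h hT
    cases T with
    | line => simp [step] at h
    | glue S R f g =>
      simp only [step, Option.some.injEq, Prod.mk.injEq] at h
      obtain ⟨rfl, rfl⟩ := h
      exact ⟨hT.2.1, mor_snd hT⟩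
  | swap =>
    intro T T' ml h hT
    cases T with
    | line => simp [step] at h
    | glue S R f g =>
      simp only [step, Option.some.injEq, Prod.mk.injEq] at h
      obtain ⟨rfl, rfl⟩ := h
      exact mor_swap hT
  | rot f2 =>
    intro T T' ml h hT
    cases T with
    | line => simp [step] at h
    | glue S R f g =>
      cases S with
      | line => simp [step] at h
      | glue S1 S2 f1 g1 =>
        simp only [step] at h
        split_ifs at h with hc
        simp only [Option.some.injEq, Prod.mk.injEq] at h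
        obtain ⟨rfl, rfl⟩ := h
        simp only [Bool.and_eq_true, decide_eq_true_eq] at hc
        exact mor_rot hT hc.1.1 hc.1.2 hc.2
  | reb f2 g2 =>
    intro T T' ml h hT
    cases T with
    | line => simp [step] at h
    | glue S R f g =>
      simp only [step] at h
      split_ifs at h with hc
      simp only [Option.some.injEq, Prod.mk.injEq] at h
      obtain ⟨rfl, rfl⟩ := h
      simp only [Bool.and_eq_true, decide_eq_true_eq] at hc
      obtain ⟨⟨⟨⟨⟨⟨b1, b2⟩, b3⟩, b4⟩, b5⟩, b6⟩, b7⟩ := hc
      exact mor_reb hT b1 b2 b3 b4 b5 b6 b7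
  | L m f' ih =>
    intro T T' ml h hT
    cases T with
    | line => simp [step] at h
    | glue S R f g =>
      simp only [step] at h
      split at h
      · exact absurd h (by simp)
      · rename_i S' ml' hs
        split_ifs at h with hc
        simp only [Option.some.injEq, Prod.mk.injEq] at h
        obtain ⟨rfl, rfl⟩ := h
        simp only [Bool.and_eq_true, decide_eq_true_eq] at hc
        have := ih S S' ml' hs hT.1
        exact mor_L hT this.1 this.2 hc.1.1.1 hc.1.1.2 hc.1.2 hc.2
  | R m g' ih =>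
    intro T T' ml h hT
    cases T with
    | line => simp [step] at h
    | glue S R f g =>
      simp only [step] at h
      split at h
      · exact absurd h (by simp)
      · rename_i R' ml' hs
        split_ifs at h with hc
        simp only [Option.some.injEq, Prod.mk.injEq] at h
        obtain ⟨rfl, rfl⟩ := h
        simp only [Bool.and_eq_true, decide_eq_true_eq] at hc
        have := ih R R' ml' hs hT.2.1
        exact mor_R hT this.1 this.2 hc.1.1 hc.1.2 hc.2

/-- A sequence of moves. -/
def steps : List Mv → Tm → Option (Tm × List ℕ)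
  | [], T => some (T, List.range T.nl)
  | m :: l, T =>
    match step m T with
    | none => none
    | some (T', ml) =>
      match steps l T' with
      | none => none
      | some (T'', ml') =>
        if decide (∀ j ∈ ml', j < ml.length) then some (T'', ml'.map (fun j => ml.getD j 0))
        else none

theorem steps_sound : ∀ (l : List Mv) (T T' : Tm) (ml : List ℕ), steps l T = some (T', ml) →
    T.Ok B → T'.Ok B ∧ IsMor B T T' ml := by
  intro l
  induction l with
  | nil =>
    intro T T' ml h hT
    simp only [steps, Option.some.injEq, Prod.mk.injEq] at h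
    obtain ⟨rfl, rfl⟩ := h
    exact ⟨hT, IsMor.id T⟩
  | cons m l ih =>
    intro T T' ml h hT
    simp only [steps] at h
    split at h
    · exact absurd h (by simp)
    · rename_i T1 ml1 h1
      split at h
      · exact absurd h (by simp)
      · rename_i T2 ml2 h2
        split_ifs at h with hc
        simp only [Option.some.injEq, Prod.mk.injEq] at h
        obtain ⟨rfl, rfl⟩ := h
        rw [decide_eq_true_eq] at hc
        obtain ⟨a1, a2⟩ := step_sound m T T1 ml1 h1 hT
        obtain ⟨b1, b2⟩ := ih T1 T2 ml2 h2 a1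
        exact ⟨b1, a2.comp b2 hc⟩

/-- The test for the equality of two entropies. -/
def morB (l : List Mv) (T T' : Tm) (A A' : List Fm) : Bool :=
  match steps l T with
  | none => false
  | some (T1, ml) =>
    decide (T1 = T') && T.det A (A'.map (pull ml)) && T.det (A'.map (pull ml)) A

theorem mor_rule {T : Tm} (hT : T.Ok B) (l : List Mv) (T' : Tm) (A A' : List Fm)
    (h : morB l T T' A A' = true) : HH B T A = HH B T' A' := by
  unfold morB at h
  split at h
  · exact absurd h (by simp)
  · rename_i T1 ml h1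
    simp only [Bool.and_eq_true, decide_eq_true_eq] at h
    obtain ⟨⟨rfl, h2⟩, h3⟩ := h
    rw [← HH_mor (steps_sound l T T1 ml h1 hT).2 A']
    exact eq_rule hT _ _ h2 h3

/-- A term is valid when its parts are, and its second part is obtained from the first one. -/
def okB (l : List Mv) (S R : Tm) (f g : List Fm) : Bool :=
  match steps l S with
  | none => false
  | some (T1, ml) =>
    decide (T1 = R) && lenB (2 * S.nl) f && lenB (2 * R.nl) g && decide (f.length = g.length) &&
      zeroB S.rel (subs f (g.map (pull ml)))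

theorem ok_rule {S : Tm} (hS : S.Ok B) (l : List Mv) (R : Tm) (f g : List Fm)
    (h : okB l S R f g = true) : (Tm.glue S R f g).Ok B := by
  unfold okB at h
  split at h
  · exact absurd h (by simp)
  · rename_i T1 ml h1
    simp only [Bool.and_eq_true, decide_eq_true_eq] at h
    obtain ⟨⟨⟨⟨rfl, h2⟩, h3⟩, h4⟩, h5⟩ := h
    obtain ⟨a1, φ, hφ, hc⟩ := steps_sound l S T1 ml h1 hS
    refine ⟨hS, a1, h2, h3, h4, fun c => ?_⟩
    rw [← hφ, im_comp]
    refine im_congr_supp (fun x hx => ?_) c
    rw [evs_of_zero hS (by rw [List.length_map, h4]) h5 hx, evs_pull, hc]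

theorem ok_line : (Tm.line).Ok B := trivial

end Pool.Agent.K3h57
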