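import Pool.Agent.K3h57.Fm
import Pool.Agent.K3h57.GlueMor

/-!
# Configurations of lines built by conditionally independent gluings

A base is a random line `X + t D` (a law `p` on a finite type, and rational functions `X`, `D`)
whose direction `D` determines it.  A term `T` describes a law on a product of copies of the base;
the coordinates of a point are the `X` and `D` of all its lines.
-/

set_option autoImplicit false
set_option linter.unusedSectionVars false

open Finset
open scoped Classical

namespace Pool.Agent.K3h57
open Pool.Agent.W904.AK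

/-- A random line, determined by its direction. -/
structure Base where
  /-- the sample space -/
  Ω : Type
  /-- it is finite -/
  [fin : Fintype Ω]
  /-- the base point -/
  X : Ω → ℚ
  /-- the direction -/
  D : Ω → ℚ
  /-- the law -/
  p : Ω → ℝ
  hp : IsLaw p
  hD : ∀ x y, D x = D y → X x = X y

attribute [instance] Base.fin

/-- Terms: a single line, or the gluing of two terms over two lists of forms. -/
inductive Tm
  | line : Tm
  | glue : Tm → Tm → List Fm → List Fm → Tm
  deriving DecidableEq

namespace Tm

/-- Number of lines. -/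
def nl : Tm → ℕ
  | line => 1
  | glue S R _ _ => S.nl + R.nl

/-- Relations between the coordinates. -/
def rel : Tm → List Fm
  | line => []
  | glue S R f g => S.rel ++ (R.rel.map (shift (2 * S.nl)) ++ subs f (g.map (shift (2 * S.nl))))

/-- Sample space. -/
def Sp (B : Base) : Tm → Type
  | line => B.Ω
  | glue S R _ _ => S.Sp B × R.Sp B

/-- The sample spaces are finite. -/
instance instSp (B : Base) : (T : Tm) → Fintype (T.Sp B)
  | line => B.fin
  | glue S R _ _ => @instFintypeProd _ _ (instSp B S) (instSp B R)

/-- Coordinates. -/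
def co (B : Base) : (T : Tm) → T.Sp B → List ℚ
  | line, x => [B.X x, B.D x]
  | glue S R _ _, z => S.co B z.1 ++ R.co B z.2

/-- The law. -/
noncomputable def law (B : Base) : (T : Tm) → T.Sp B → ℝ
  | line => B.p
  | glue S R f g =>
    W904.AK.glue (S.law B) (R.law B) (fun x => evs f (S.co B x)) (fun y => evs g (R.co B y))

/-- All forms have length at most `n`. -/
def lenB (n : ℕ) (f : List Fm) : Bool := f.all (fun v => decide (v.length ≤ n))

/-- Validity of a term. -/
def Ok (B : Base) : Tm → Prop
  | line => True
  | glue S R f g => S.Ok B ∧ R.Ok B ∧ lenB (2 * S.nl) f = true ∧ lenB (2 * R.nl) g = true ∧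
      f.length = g.length ∧
      ∀ c, im (S.law B) (fun x => evs f (S.co B x)) c = im (R.law B) (fun y => evs g (R.co B y)) c

variable {B : Base}

lemma co_length (T : Tm) (x : T.Sp B) : (T.co B x).length = 2 * T.nl := by
  induction T with
  | line => rfl
  | glue S R f g ihS ihR =>
    show (S.co B x.1 ++ R.co B x.2).length = 2 * (S.nl + R.nl)
    rw [List.length_append, ihS, ihR]; ring

lemma law_isLaw {T : Tm} (h : T.Ok B) : IsLaw (T.law B) := by
  induction T with
  | line => exact B.hp
  | glue S R f g ihS ihR => exact glue_law (ihS h.1) (ihR h.2.1) h.2.2.2.2.2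

end Tm

open Tm

variable {B : Base}

lemma evs_eq_iff {F : List Fm} {c d : List ℚ} :
    evs F c = evs F d ↔ ∀ v ∈ F, dot v c = dot v d := by
  unfold evs
  exact List.map_inj_left

lemma lenB_iff {n : ℕ} {f : List Fm} : lenB n f = true ↔ ∀ v ∈ f, v.length ≤ n := by
  simp [lenB]

lemma evs_append {F : List Fm} {c : List ℚ} (d : List ℚ) (h : lenB c.length F = true) :
    evs F (c ++ d) = evs F c := by
  rw [lenB_iff] at h
  exact List.map_congr_left fun v hv => dot_append v c d (h v hv)

lemma evs_shift {F : List Fm} {c : List ℚ} (d : List ℚ) {n : ℕ} (h : c.length = n) :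
    evs (F.map (shift n)) (c ++ d) = evs F d := by
  unfold evs
  rw [List.map_map]
  exact List.map_congr_left fun v _ => dot_shift n v c d h

lemma vadd_length (v w : Fm) : (vadd v w).length = max v.length w.length := by
  induction v generalizing w with
  | nil => simp [vadd]
  | cons a v ih =>
    cases w with
    | nil => simp [vadd]
    | cons b w => simp [vadd, ih]

lemma vsub_length (v w : Fm) : (vsub v w).length = max v.length w.length := by
  simp [vsub, vadd_length, vsmul]

lemma shift_length (n : ℕ) (v : Fm) : (shift n v).length = n + v.length := by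
  simp [shift]

/-- The differences of two lists of forms vanish iff the values agree. -/
lemma subs_zero_iff {F G : List Fm} {c : List ℚ} (h : F.length = G.length) :
    (∀ v ∈ subs F G, dot v c = 0) ↔ evs F c = evs G c := by
  induction F generalizing G with
  | nil =>
    cases G with
    | nil => simp [subs, evs]
    | cons b G => simp at h
  | cons a F ih =>
    cases G with
    | nil => simp at h
    | cons b G =>
      have h' : F.length = G.length := by simpa using h
      have := ih h'
      unfold subs evs at this ⊢
      simp only [List.zipWith_cons_cons, List.map_cons, List.mem_cons, forall_eq_or_imp,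
        List.cons.injEq, dot_vsub, sub_eq_zero, this]

lemma mem_subs_length {F G : List Fm} {n : ℕ} (hF : ∀ v ∈ F, v.length ≤ n)
    (hG : ∀ v ∈ G, v.length ≤ n) : ∀ v ∈ subs F G, v.length ≤ n := by
  induction F generalizing G with
  | nil => simp [subs]
  | cons a F ih =>
    cases G with
    | nil => simp [subs]
    | cons b G =>
      intro v hv
      unfold subs at hv
      simp only [List.zipWith_cons_cons, List.mem_cons] at hv
      rcases hv with rfl | hv
      · rw [vsub_length]
        exact max_le (hF a (List.mem_cons_self ..)) (hG b (List.mem_cons_self ..))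
      · exact ih (fun w hw => hF w (List.mem_cons_of_mem _ hw))
          (fun w hw => hG w (List.mem_cons_of_mem _ hw)) v hv

namespace Tm

lemma rel_length {T : Tm} (h : T.Ok B) : ∀ r ∈ T.rel, r.length ≤ 2 * T.nl := by
  induction T with
  | line => intro r hr; exact absurd hr (by simp [rel])
  | glue S R f g ihS ihR =>
    obtain ⟨h1, h2, h3, h4, h5, h6⟩ := h
    intro r hr
    rw [rel, List.mem_append, List.mem_append] at hr
    show r.length ≤ 2 * (S.nl + R.nl)
    rcases hr with hr | hr | hr
    · have := ihS h1 r hr; omega
    · rw [List.mem_map] at hr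
      obtain ⟨s, hs, rfl⟩ := hr
      have := ihR h2 s hs
      rw [shift_length]; omega
    · rw [lenB_iff] at h3 h4
      refine mem_subs_length (fun v hv => ?_) (fun v hv => ?_) r hr
      · have := h3 v hv; omega
      · rw [List.mem_map] at hv
        obtain ⟨s, hs, rfl⟩ := hv
        have := h4 s hs
        rw [shift_length]; omega

/-- On the support, the relations hold. -/
lemma rel_zero {T : Tm} (h : T.Ok B) {x : T.Sp B} (hx : T.law B x ≠ 0) :
    ∀ r ∈ T.rel, dot r (T.co B x) = 0 := by
  induction T with
  | line => intro r hr; exact absurd hr (by simp [rel])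
  | glue S R f g ihS ihR =>
    have hl := rel_length h.1
    obtain ⟨h1, h2, h3, h4, h5, h6⟩ := h
    obtain ⟨e1, e2, e3⟩ := glue_supp hx
    have c1 := co_length S x.1
    intro r hr
    rw [rel, List.mem_append, List.mem_append] at hr
    show dot r (S.co B x.1 ++ R.co B x.2) = 0
    rcases hr with hr | hr | hr
    · rw [dot_append _ _ _ (by rw [c1]; exact hl r hr)]
      exact ihS h1 e2 r hr
    · rw [List.mem_map] at hr
      obtain ⟨s, hs, rfl⟩ := hr
      rw [dot_shift _ _ _ _ c1]
      exact ihR h2 e3 s hs
    · refine (subs_zero_iff (by rw [List.length_map]; exact h5)).2 ?_ r hr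
      rw [evs_append _ (by rw [c1]; exact h3), evs_shift _ c1]
      exact e1

/-- On the support of the pair: if the directions of line `i` agree, then so do the base
points. -/
lemma co_det (T : Tm) (x y : T.Sp B) (i : ℕ) (hi : i < T.nl)
    (h : (T.co B x).getD (2 * i + 1) 0 = (T.co B y).getD (2 * i + 1) 0) :
    (T.co B x).getD (2 * i) 0 = (T.co B y).getD (2 * i) 0 := by
  induction T generalizing i with
  | line =>
    have : i = 0 := by simp only [nl] at hi; omega
    subst this
    exact B.hD x y h
  | glue S R f g ihS ihR =>
    have c1 := co_length S x.1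
    have c2 := co_length S y.1
    change (S.co B x.1 ++ R.co B x.2).getD (2 * i + 1) 0 =
      (S.co B y.1 ++ R.co B y.2).getD (2 * i + 1) 0 at h
    show (S.co B x.1 ++ R.co B x.2).getD (2 * i) 0 = (S.co B y.1 ++ R.co B y.2).getD (2 * i) 0
    by_cases hc : i < S.nl
    · rw [List.getD_append _ _ _ _ (by omega), List.getD_append _ _ _ _ (by omega)] at h ⊢
      exact ihS x.1 y.1 i hc h
    · have hi' : i < S.nl + R.nl := hi
      rw [List.getD_append_right _ _ _ _ (by omega), List.getD_append_right _ _ _ _ (by omega)]
        at h ⊢
      rw [c1, c2] at h ⊢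
      have e1 : 2 * i + 1 - 2 * S.nl = 2 * (i - S.nl) + 1 := by omega
      have e2 : 2 * i - 2 * S.nl = 2 * (i - S.nl) := by omega
      rw [e1] at h
      rw [e2]
      exact ihR x.2 y.2 (i - S.nl) (by omega) h

end Tm

/-- Determination in a term, tested by elimination. -/
def Tm.det (T : Tm) (A C : List Fm) : Bool := detB T.nl T.rel A C

theorem det_sound {T : Tm} (hT : T.Ok B) {A C : List Fm} (h : T.det A C = true) :
    Det (T.law B) (fun x => evs A (T.co B x)) (fun x => evs C (T.co B x)) := by
  intro x y hx hy hA
  rw [evs_eq_iff] at hA ⊢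
  have := detB_sound (isLin_sub (T.co B x) (T.co B y)) h
    (fun v hv => by rw [rel_zero hT hx v hv, rel_zero hT hy v hv, sub_zero])
    (fun v hv => sub_eq_zero.2 (hA v hv))
    (fun i hi hD => by
      simp only [dot_unit, sub_eq_zero] at hD ⊢
      exact co_det T x y i hi hD)
  exact fun v hv => sub_eq_zero.1 (this v hv)

/-- Forms vanishing on the support. -/
theorem zero_sound {T : Tm} (hT : T.Ok B) {C : List Fm} (h : zeroB T.rel C = true) {x : T.Sp B}
    (hx : T.law B x ≠ 0) : ∀ v ∈ C, dot v (T.co B x) = 0 :=
  zeroB_sound (isLin_dot (T.co B x)) h (rel_zero hT hx)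

/-- The entropy of a list of forms. -/
noncomputable def HH (B : Base) (T : Tm) (A : List Fm) : ℝ :=
  H (T.law B) (fun x => evs A (T.co B x))

lemma det_append {T : Tm} (hT : T.Ok B) {A A' C : List Fm} (h : T.det (A ++ A') C = true) :
    Det (T.law B) (fun x => (evs A (T.co B x), evs A' (T.co B x)))
      (fun x => evs C (T.co B x)) := by
  intro x y hx hy hA
  refine det_sound hT h x y hx hy ?_
  have h1 : evs A (T.co B x) = evs A (T.co B y) := congrArg Prod.fst hA
  have h2 : evs A' (T.co B x) = evs A' (T.co B y) := congrArg Prod.snd hA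
  unfold evs at h1 h2 ⊢
  simp only [List.map_append, h1, h2]

/-- Submodularity. -/
theorem sub_rule {T : Tm} (hT : T.Ok B) (A A' C K : List Fm) (h1 : T.det A K = true)
    (h2 : T.det A' K = true) (h3 : T.det (A ++ A') C = true) :
    HH B T C + HH B T K ≤ HH B T A + HH B T A' :=
  submod' (law_isLaw hT) (det_sound hT h1) (det_sound hT h2) (det_append hT h3)

/-- Forms which determine each other. -/
theorem eq_rule {T : Tm} (hT : T.Ok B) (A A' : List Fm) (h1 : T.det A A' = true)
    (h2 : T.det A' A = true) : HH B T A = HH B T A' :=
  H_congr (law_isLaw hT) (det_sound hT h1) (det_sound hT h2)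

lemma HH_nonneg {T : Tm} (hT : T.Ok B) (A : List Fm) : 0 ≤ HH B T A :=
  H_nonneg (law_isLaw hT) _

lemma HH_nil {T : Tm} (hT : T.Ok B) : HH B T [] = 0 := H_const (law_isLaw hT) _

/-- Conditional independence of the two parts of a gluing. -/
theorem ind_rule {S R : Tm} {f g : List Fm} (hT : (Tm.glue S R f g).Ok B) (A A' : List Fm)
    (hA : lenB (2 * S.nl) A = true) (h1 : S.det A f = true) (h2 : R.det A' g = true) :
    HH B (Tm.glue S R f g) (A ++ A'.map (shift (2 * S.nl))) + HH B S f =
      HH B S A + HH B R A' := by
  obtain ⟨k1, k2, k3, k4, k5, k6⟩ := hT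
  have e := H_glue (law_isLaw k1) (law_isLaw k2) k6 (det_sound k1 h1) (det_sound k2 h2)
  have hl := glue_law (law_isLaw k1) (law_isLaw k2) k6
  have key : ∀ (u : S.Sp B) (v : R.Sp B), evs (A ++ A'.map (shift (2 * S.nl)))
      (S.co B u ++ R.co B v) = evs A (S.co B u) ++ evs A' (R.co B v) := by
    intro u v
    have c1 := co_length S u
    have : evs (A ++ A'.map (shift (2 * S.nl))) (S.co B u ++ R.co B v) =
        evs A (S.co B u ++ R.co B v) ++
          evs (A'.map (shift (2 * S.nl))) (S.co B u ++ R.co B v) := by
      unfold evs; rw [List.map_append]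
    rw [this, evs_append _ (by rw [c1]; exact hA), evs_shift _ c1]
  have e2 : H (W904.AK.glue (S.law B) (R.law B) (fun x => evs f (S.co B x))
        (fun y => evs g (R.co B y))) (fun z : S.Sp B × R.Sp B =>
          evs (A ++ A'.map (shift (2 * S.nl))) (S.co B z.1 ++ R.co B z.2)) =
      H (W904.AK.glue (S.law B) (R.law B) (fun x => evs f (S.co B x))
        (fun y => evs g (R.co B y))) (fun z => (evs A (S.co B z.1), evs A' (R.co B z.2))) := by
    refine H_congr hl (fun x y _ _ h => ?_) (fun x y _ _ h => ?_)
    · rw [key, key] at h
      have hlen : (evs A (S.co B x.1)).length = (evs A (S.co B y.1)).length := by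
        simp [evs]
      exact Prod.ext (List.append_inj h hlen).1 (List.append_inj h hlen).2
    · rw [key, key]
      have h1 : evs A (S.co B x.1) = evs A (S.co B y.1) := congrArg Prod.fst h
      have h2 : evs A' (R.co B x.2) = evs A' (R.co B y.2) := congrArg Prod.snd h
      rw [h1, h2]
  have e3 : HH B (Tm.glue S R f g) (A ++ A'.map (shift (2 * S.nl))) =
      HH B S A + HH B R A' - HH B S f := e2.trans e
  rw [e3]
  ring

end Pool.Agent.K3h57
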